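import Pool.Agent.Y572.SA.Dbl

set_option autoImplicit false

/-!
Global correlation along a chain for kernels all of whose small submatrices are positive
semidefinite.
-/

namespace Pool.Agent.Y572.SA

open Finset Pool.Agent.H647R3.UG Pool.Agent.H573R3.SL Pool.Agent.TH522.US

section
variable {W : Type} [Fintype W] [DecidableEq W] {m : W → ℝ} {T : (W → ℝ) → (W → ℝ)}

/-- Cauchy-Schwarz at time `t` -/
theorem cor_cs (h : IsOper m T) (G : W → W → ℝ) (t : ℕ) :
    cor m T G t ^ 2 ≤ (∑ u, ∑ v, m u * m v * hk m T t u v ^ 2) *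
      ∑ u, ∑ v, m u * m v * G u v ^ 2 := by
  have h1 := Finset.sum_sq_le_sum_mul_sum_of_sq_le_mul ((univ : Finset W) ×ˢ (univ : Finset W))
    (r := fun p => m p.1 * m p.2 * hk m T t p.1 p.2 * G p.1 p.2)
    (f := fun p => m p.1 * m p.2 * hk m T t p.1 p.2 ^ 2) (g := fun p => m p.1 * m p.2 * G p.1 p.2 ^ 2)
    (fun p _ => mul_nonneg (mul_nonneg (h.pos _).le (h.pos _).le) (sq_nonneg _))
    (fun p _ => mul_nonneg (mul_nonneg (h.pos _).le (h.pos _).le) (sq_nonneg _))
    (fun p _ => le_of_eq (by ring))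
  rwa [sum_product, sum_product, sum_product] at h1

/-- global correlation, positive masses -/
theorem gcz (h : IsOper m T) (hW : Nonempty W) (κ q : ℝ) (hκ : 0 < κ) (hκ1 : κ < 1)
    (hq : 0 < q)
    (hH : ∀ g : W → ℝ, (∀ u, 0 ≤ g u) → ip m g (T g) ≤
      (vol m univ) ^ (-κ) * (∑ u, m u * g u ^ (2 / (1 + κ))) ^ (1 + κ))
    {N : ℕ} {G : W → W → ℝ} (hG : Loc N G) (hs : ∀ u v, G u v = G v u) (J : ℕ) (lam : ℝ)
    (hlam : 0 ≤ lam) (hJ : Real.log (1 / q) / κ ≤ 2 ^ J)
    (hN : 1 + 2 * (J + 1) * Real.exp (4 * (2 ^ J * lam)) ≤ N)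
    (h0 : 0 < cor m T G 0) (ht : Real.exp (-lam) * cor m T G 0 ≤ cor m T G 1) :
    (cor m T G 0) ^ 2 * (Real.exp (-(4 * (2 ^ J * lam))) * (Fintype.card W : ℝ) ^ (-q))
      ≤ ∑ u, ∑ v, m u * m v * G u v ^ 2 := by
  have l1 := dbl_iter h hG hs 1 J lam hlam h0 ht hN
  rw [mul_one] at l1
  set s : ℕ := 2 ^ J with hsd
  set δ : ℝ := (1 - κ) ^ s with hδ
  have hδ0 : 0 ≤ δ := pow_nonneg (by linarith) _
  have hδq : δ ≤ q := by
    have a1 : 1 - κ ≤ Real.exp (-κ) := by
      have := Real.add_one_le_exp (-κ)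
      linarith
    calc (1 - κ) ^ s ≤ Real.exp (-κ) ^ s := pow_le_pow_left₀ (by linarith) a1 s
      _ = Real.exp (s * -κ) := by rw [← Real.exp_nat_mul]
      _ ≤ Real.exp (-Real.log (1 / q)) := by
          apply Real.exp_le_exp.2
          rw [div_le_iff₀ hκ] at hJ
          rw [hsd]
          push_cast
          linarith
      _ = q := by rw [← Real.log_inv, one_div, inv_inv, Real.exp_log hq]
  have hδ1 : δ ≤ 1 := pow_le_one₀ (by linarith) (by linarith)
  have hM : 0 < vol m univ := sum_pos (fun u _ => h.pos u) univ_nonempty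
  have hn : (1 : ℝ) ≤ (Fintype.card W : ℝ) := by
    exact_mod_cast Fintype.card_pos
  have l2 := cor_cs h G s
  have l3 : ∑ u, ∑ v, m u * m v * hk m T s u v ^ 2 ≤ (Fintype.card W : ℝ) ^ q := by
    rw [sum_comm]
    have h1 : ∀ v ∈ (univ : Finset W), ∑ u, m u * m v * hk m T s u v ^ 2 ≤
        m v * (1 / vol m univ * (vol m univ / m v) ^ δ) := by
      intro v _
      have e : ∑ u, m u * m v * hk m T s u v ^ 2 = m v * ip m (T^[s] (dl m v)) (T^[s] (dl m v)) := by
        unfold ip hk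
        rw [mul_sum]
        apply sum_congr rfl
        intro u _
        ring
      rw [e]
      exact mul_le_mul_of_nonneg_left (decay h κ hκ hκ1 hH v s) (h.pos v).le
    refine (sum_le_sum h1).trans ?_
    have h2 := T_SQ W m δ h.pos hδ0 hδ1
    have h3 : ∑ v, m v * (1 / vol m univ * (vol m univ / m v) ^ δ) =
        (∑ v, m v * (4 / vol m univ * (vol m univ / m v) ^ δ)) / 4 := by
      rw [sum_div]
      refine sum_congr rfl fun v _ => ?_
      ring
    rw [h3]
    have h4 : (Fintype.card W : ℝ) ^ δ ≤ (Fintype.card W : ℝ) ^ q :=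
      Real.rpow_le_rpow_of_exponent_le hn hδq
    linarith
  set Q : ℝ := ∑ u, ∑ v, m u * m v * G u v ^ 2 with hQ
  have hQ0 : 0 ≤ Q := sum_nonneg fun u _ => sum_nonneg fun v _ =>
    mul_nonneg (mul_nonneg (h.pos _).le (h.pos _).le) (sq_nonneg _)
  set a := cor m T G 0 with had
  have hc0 : 0 ≤ Real.exp (-(2 * (2 ^ J * lam))) * a := by positivity
  have l4 : (Real.exp (-(2 * (2 ^ J * lam))) * a) ^ 2 ≤ (Fintype.card W : ℝ) ^ q * Q :=
    (pow_le_pow_left₀ hc0 l1 2).trans (l2.trans (mul_le_mul_of_nonneg_right l3 hQ0))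
  have l5 : a ^ 2 * Real.exp (-(4 * (2 ^ J * lam))) ≤ (Fintype.card W : ℝ) ^ q * Q := by
    refine le_trans (le_of_eq ?_) l4
    rw [mul_pow, ← Real.exp_nat_mul, mul_comm]
    congr 2
    push_cast
    ring
  have hp : 0 < (Fintype.card W : ℝ) ^ q := Real.rpow_pos_of_pos (by linarith) _
  have hpn : (Fintype.card W : ℝ) ^ (-q) * (Fintype.card W : ℝ) ^ q = 1 := by
    rw [← Real.rpow_add (by linarith), neg_add_cancel, Real.rpow_zero]
  refine le_of_mul_le_mul_right ?_ hp
  calc a ^ 2 * (Real.exp (-(4 * (2 ^ J * lam))) *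
        (Fintype.card W : ℝ) ^ (-q)) * (Fintype.card W : ℝ) ^ q
      = a ^ 2 * Real.exp (-(4 * (2 ^ J * lam))) *
        ((Fintype.card W : ℝ) ^ (-q) * (Fintype.card W : ℝ) ^ q) := by ring
    _ = a ^ 2 * Real.exp (-(4 * (2 ^ J * lam))) := by
        rw [hpn, mul_one]
    _ ≤ (Fintype.card W : ℝ) ^ q * Q := l5
    _ = Q * (Fintype.card W : ℝ) ^ q := by ring

end

/-- global correlation property -/
def GCK {V : Type} [Fintype V] (N : ℕ) (K : V → V → ℝ) (m : V → ℝ) (r g : ℝ) : Prop :=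
  ∀ G : V → V → ℝ, Loc N G → (∀ u v, G u v = G v u) → 0 < ∑ u, m u * G u u →
    r * ∑ u, m u * G u u ≤ ∑ u, ∑ v, K u v * G u v →
    (∑ u, m u * G u u) ^ 2 * g ≤ ∑ u, ∑ v, m u * m v * G u v ^ 2

open Classical in
/-- global correlation, zero masses allowed -/
theorem gcz0 {V : Type} [Fintype V] (K : V → V → ℝ) (hK : IsKer K) (m : V → ℝ)
    (hd : ∀ u, ∑ v, K u v = m u) (κ q : ℝ) (n : ℕ) (hκ : 0 < κ) (hκ1 : κ < 1)
    (hq : 0 < q) (hn : (univ.filter fun v => 0 < m v).card ≤ n)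
    (hH : ∀ g : V → ℝ, (∀ u, 0 ≤ g u) → bil K g g ≤
      (∑ u, m u) ^ (-κ) * (∑ u, m u * g u ^ (2 / (1 + κ))) ^ (1 + κ))
    (N J : ℕ) (lam : ℝ) (hlam : 0 ≤ lam) (hJ : Real.log (1 / q) / κ ≤ 2 ^ J)
    (hN : 1 + 2 * (J + 1) * Real.exp (4 * (2 ^ J * lam)) ≤ N) :
    GCK N K m (Real.exp (-lam)) (Real.exp (-(4 * (2 ^ J * lam))) * (n : ℝ) ^ (-q)) := by
  intro G hG hs hpos hen
  have hm : ∀ u, 0 ≤ m u := fun u => by rw [← hd]; exact sum_nonneg fun v _ => hK.nonneg u v
  have h0 : ∀ u, m u = 0 → ∀ v, K u v = 0 := fun u hu v => by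
    rw [← hd] at hu
    exact (sum_eq_zero_iff_of_nonneg fun v _ => hK.nonneg u v).1 hu v (mem_univ v)
  have h0' : ∀ u v, m v = 0 → K u v = 0 := fun u v hv => by rw [hK.symm, h0 v hv]
  set W := {v // 0 < m v} with hWd
  set K' : W → W → ℝ := fun u v => K u.1 v.1 with hK'
  set m' : W → ℝ := fun u => m u.1 with hm'
  have ext0 : ∀ (g : W → ℝ), ∃ e : V → ℝ, (∀ u : W, e u.1 = g u) ∧
      ((∀ u, 0 ≤ g u) → ∀ v, 0 ≤ e v) := by
    intro g
    refine ⟨fun v => if hv : 0 < m v then g ⟨v, hv⟩ else 0, fun u => ?_, fun hg v => ?_⟩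
    · simp only [dif_pos u.2]
      rfl
    · simp only
      split_ifs
      · exact hg _
      · exact le_rfl
  have hbil : ∀ (f g : V → ℝ), bil K f g = bil K' (fun u => f u.1) (fun u => g u.1) := by
    intro f g
    unfold bil
    exact GCFL.red2 m hm (fun u v => K u v * (f u * g v)) (fun u v hu => by simp [h0 u hu v])
      (fun u v hv => by simp [h0' u v hv])
  have hKer : IsKer K' := by
    refine ⟨fun u v => hK.nonneg _ _, fun u v => hK.symm _ _, fun f => ?_⟩
    obtain ⟨e, he, -⟩ := ext0 f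
    have h1 := hK.psd e
    rw [hbil] at h1
    simp only [he] at h1
    exact h1
  have hdW : ∀ u : W, ∑ v, K' u v = m' u := by
    intro u
    have h1 := GCFL.red m hm (fun v => K u.1 v) (fun v hv => h0' _ _ hv)
    rw [hd] at h1
    exact h1.symm
  have hop := isOper hKer m' (fun u => u.2) hdW
  set G' : W → W → ℝ := fun u v => G u.1 v.1 with hG'
  have c0 : cor m' (ch K' m') G' 0 = ∑ u, m u * G u u := by
    rw [cor_zero hop]
    exact (GCFL.red m hm (fun u => m u * G u u) (fun v hv => by simp [hv])).symm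
  have c1 : cor m' (ch K' m') G' 1 = ∑ u, ∑ v, K u v * G u v := by
    have h1 : ∑ u, ∑ v, K u v * G u v = ∑ u : W, ∑ v : W, K' u v * G' u v :=
      GCFL.red2 m hm (fun u v => K u v * G u v) (fun u v hu => by simp [h0 u hu v])
        (fun u v hv => by simp [h0' u v hv])
    rw [h1]
    unfold cor
    refine sum_congr rfl fun u _ => sum_congr rfl fun v _ => ?_
    have h2 : hk m' (ch K' m') 1 u v = K' u v / (m' u * m' v) := by
      unfold hk
      rw [Function.iterate_one]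
      unfold ch
      have h3 : ∑ x, K' u x * dl m' v x = K' u v * (1 / m' v) := by
        rw [sum_eq_single v]
        · unfold dl; rw [if_pos rfl]
        · intro x _ hx
          unfold dl
          rw [if_neg hx, mul_zero]
        · intro h; exact absurd (mem_univ v) h
      rw [h3]
      have hu : m' u ≠ 0 := (u.2).ne'
      have hv : m' v ≠ 0 := (v.2).ne'
      field_simp
    rw [h2]
    have hu : m' u ≠ 0 := (u.2).ne'
    have hv : m' v ≠ 0 := (v.2).ne'
    field_simp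
  have e3 : ∑ u, ∑ v, m u * m v * G u v ^ 2 =
      ∑ u : W, ∑ v : W, m' u * m' v * G' u v ^ 2 :=
    GCFL.red2 m hm (fun u v => m u * m v * G u v ^ 2) (fun u v hu => by simp [hu])
      (fun u v hv => by simp [hv])
  have hne : Nonempty W := by
    by_contra hemp
    rw [not_nonempty_iff] at hemp
    rw [← c0, cor_zero hop, Fintype.sum_empty] at hpos
    exact lt_irrefl _ hpos
  have hvol : vol m' univ = ∑ u, m u :=
    (GCFL.red m hm (fun v => m v) (fun v hv => hv)).symm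
  have hH' : ∀ g : W → ℝ, (∀ u, 0 ≤ g u) → ip m' g (ch K' m' g) ≤
      (vol m' univ) ^ (-κ) * (∑ u, m' u * g u ^ (2 / (1 + κ))) ^ (1 + κ) := by
    intro g hg
    obtain ⟨e, he, he0⟩ := ext0 g
    have h1 := hH e (he0 hg)
    rw [hbil, GCFL.red m hm (fun u => m u * e u ^ (2 / (1 + κ))) (fun v hv => by simp [hv])] at h1
    simp only [he] at h1
    rw [ip_ch m' (fun u => u.2), hvol]
    exact h1
  have hLoc : Loc N G' := fun φ s => hG (fun i => (φ i).1) s
  have h := gcz hop hne κ q hκ hκ1 hq hH' hLoc (fun u v => hs _ _) J lam hlam hJ hN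
    (by rw [c0]; exact hpos) (by rw [c0, c1]; exact hen)
  rw [c0] at h
  rw [e3]
  refine le_trans ?_ h
  refine mul_le_mul_of_nonneg_left ?_ (sq_nonneg _)
  refine mul_le_mul_of_nonneg_left ?_ (Real.exp_pos _).le
  have hc : Fintype.card W ≤ n := by
    have h9 : Fintype.card W = (univ.filter fun v => 0 < m v).card :=
      Fintype.card_subtype (fun v => 0 < m v)
    rw [h9]
    exact hn
  have hc1 : 1 ≤ Fintype.card W := Fintype.card_pos
  refine Real.rpow_le_rpow_of_nonpos ?_ ?_ (by linarith)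
  · exact_mod_cast hc1
  · exact_mod_cast hc

end Pool.Agent.Y572.SA
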