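import Pool.Agent.Y572.SA.Hier

set_option autoImplicit false

/-!
Conditioning in the Sherali-Adams hierarchy, for a kernel with a global correlation property.
-/

namespace Pool.Agent.Y572.SA

open Finset Pool.Agent.H647R3.UG Pool.Agent.H573R3.SL Pool.Agent.TH522.UG Pool.Agent.TH522.US

theorem two_point {V : Type} [Fintype V] {N : ℕ} (hN : 0 < N) {G : V → V → ℝ} (hG : Loc N G)
    (hs : ∀ u v, G u v = G v u) (u v : V) : 0 ≤ G u u + G v v - 2 * G u v := by
  classical
  have h := star hN hG hs (fun x => if x = v then 1 else 0) (fun x => by split_ifs <;> norm_num)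
    (by simp) u 1
  have e1 : ∑ x, (if x = v then (1 : ℝ) else 0) * G x x = G v v := by simp
  have e2 : ∑ x, ∑ y, (if x = v then (1 : ℝ) else 0) * (if y = v then (1 : ℝ) else 0) * G x y =
      G v v := by simp
  have e3 : ∑ x, (if x = v then (1 : ℝ) else 0) * G u x = G u v := by simp
  rw [e1, e2, e3] at h
  linarith

section
variable {V A E : Type} [Fintype V] [DecidableEq V] [Fintype A] [DecidableEq A] [Fintype E]
  {N : ℕ}

/-- the energy of the kernel -/
theorem eng_eq (K : V → V → ℝ) (hK : ∀ u v, K u v = K v u) (m : V → ℝ)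
    (hd : ∀ u, ∑ v, K u v = m u) (L : ((V → A) → ℝ) →ₗ[ℝ] ℝ) :
    Eng K L = ∑ u, m u * kr L u u - ∑ u, ∑ v, K u v * kr L u v := by
  have e1 : ∑ u, ∑ v, K u v * kr L u u = ∑ u, m u * kr L u u := by
    refine sum_congr rfl fun u _ => ?_
    rw [← sum_mul, hd]
  have e2 : ∑ u, ∑ v, K u v * kr L v v = ∑ u, m u * kr L u u := by
    rw [sum_comm, ← e1]
    exact sum_congr rfl fun u _ => sum_congr rfl fun v _ => by rw [hK]
  unfold Eng
  have e3 : ∑ u, ∑ v, K u v * (kr L u u + kr L v v - 2 * kr L u v) =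
      ∑ u, ∑ v, K u v * kr L u u + ∑ u, ∑ v, K u v * kr L v v -
      2 * ∑ u, ∑ v, K u v * kr L u v := by
    rw [mul_sum, ← sum_add_distrib, ← sum_sub_distrib]
    refine sum_congr rfl fun u _ => ?_
    rw [mul_sum, ← sum_add_distrib, ← sum_sub_distrib]
    exact sum_congr rfl fun v _ => by ring
  rw [e3, e1, e2]
  ring

/-- one conditioning step -/
theorem s1g (K : V → V → ℝ) (hK : ∀ u v, K u v = K v u) (m : V → ℝ)
    (hd : ∀ u, ∑ v, K u v = m u) (L : ((V → A) → ℝ) →ₗ[ℝ] ℝ) (r τ g c0 ε' : ℝ)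
    (hL : FctN N L) (hm : ∀ v, 0 ≤ m v) (hM : 0 < ∑ v, m v) (hg : 0 ≤ g)
    (hGC : GCK N K m r g) (hr : r ≤ 1 - τ)
    (hc0 : 0 < c0) (hτ : 192 * ε' / c0 ≤ τ) (hτ0 : 0 ≤ τ)
    (hPhi : c0 * ∑ v, m v ≤ PhiM m L) (hE : Eng K L ≤ 24 * (ε' * ∑ v, m v)) :
    ∃ u, c0 ^ 2 / 64 * g * ∑ v, m v ≤ PhiM m L - ∑ a, pr L u a * PhiM m (cnd L u a) := by
  set M : ℝ := ∑ v, m v with hMd
  have hT1 : PhiM m L / 8 ≤ ∑ u, m u * kr L u u := by
    unfold PhiM
    rw [sum_div]
    refine sum_le_sum fun u hu => ?_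
    rw [mul_div_assoc]
    exact mul_le_mul_of_nonneg_left (kr_diag hL u) (hm u)
  set a := ∑ u, m u * kr L u u with ha
  have hT2 : c0 * M / 8 ≤ a := le_trans (by linarith) hT1
  have hT0 : 0 < a := lt_of_lt_of_le (by positivity) hT2
  have hen := eng_eq K hK m hd L
  have hE2 : Eng K L ≤ τ * a := by
    refine hE.trans ?_
    have h1 : 24 * (ε' * M) = 192 * ε' / c0 * (c0 * M / 8) := by
      field_simp
      ring
    rw [h1]
    have h2 : 0 ≤ c0 * M / 8 := by positivity
    calc 192 * ε' / c0 * (c0 * M / 8) ≤ τ * (c0 * M / 8) := mul_le_mul_of_nonneg_right hτ h2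
      _ ≤ _ := mul_le_mul_of_nonneg_left hT2 hτ0
  have hgc := hGC (kr L) hL.loc (kr_symm hL) hT0 (by
    rw [hen] at hE2
    have h1 : r * a ≤ (1 - τ) * a := mul_le_mul_of_nonneg_right hr hT0.le
    linarith)
  rw [← ha] at hgc
  refine exists_dec hL m hm hM _ (le_trans ?_ hgc)
  have h1 : (c0 * M / 8) ^ 2 ≤ a ^ 2 := pow_le_pow_left₀ (by positivity) hT2 2
  have h2 : c0 ^ 2 / 64 * g * M ^ 2 = (c0 * M / 8) ^ 2 * g := by ring
  rw [h2]
  exact mul_le_mul_of_nonneg_right h1 hg

/-- iteration -/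
theorem s2g {Q : ℕ → (((V → A) → ℝ) →ₗ[ℝ] ℝ) → Prop} (hQ : HierN N Q) (s t : E → V)
    (π : E → Equiv.Perm A) (K : V → V → ℝ) (hK : ∀ u v, K u v = K v u) (m : V → ℝ)
    (hd : ∀ u, ∑ v, K u v = m u) (α : E → ℝ) (r τ g c0 ε0 : ℝ) (k : ℕ)
    (hm : ∀ v, 0 ≤ m v) (hM' : 0 < ∑ v, m v) (hα : ∀ e, 0 ≤ α e) (hg : 0 ≤ g)
    (hGC : GCK N K m r g) (hr : r ≤ 1 - τ)
    (hc0 : 0 < c0) (hε : 0 < ε0) (hτ : 384 * ε0 / c0 ≤ τ) (hτ0 : 0 ≤ τ)
    (hk : 2 ≤ k * (c0 ^ 2 / 64 * g))
    (hEng : ∀ (k : ℕ) (L : ((V → A) → ℝ) →ₗ[ℝ] ℝ), Q k L → Eng K L ≤ 24 * ErrW s t π α L)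
    (K0 : ℕ) (L : ((V → A) → ℝ) →ₗ[ℝ] ℝ) (hL : Q (K0 + k) L)
    (hErr : ErrW s t π α L ≤ ε0 * ∑ v, m v) :
    ∃ L' : ((V → A) → ℝ) →ₗ[ℝ] ℝ, Q K0 L' ∧ PhiM m L' ≤ c0 * ∑ v, m v ∧
      ErrW s t π α L' ≤ 2 * ε0 * ∑ v, m v := by
  set M := ∑ v, m v with hMdef
  have hM : 0 < M := hM'
  set Δ := c0 ^ 2 / 64 * g with hΔ
  have hΔ0 : 0 < Δ := by
    by_contra hneg
    push Not at hneg
    have : (k : ℝ) * Δ ≤ 0 := mul_nonpos_of_nonneg_of_nonpos (Nat.cast_nonneg k) hneg
    linarith
  have key : ∀ k' : ℕ, ∀ (L : ((V → A) → ℝ) →ₗ[ℝ] ℝ), Q (K0 + k') L →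
      PhiM m L / M + ErrW s t π α L / (ε0 * M) ≤ 2 →
      PhiM m L / M + ErrW s t π α L / (ε0 * M) ≤ k' * Δ →
      ∃ L' : ((V → A) → ℝ) →ₗ[ℝ] ℝ, Q K0 L' ∧ PhiM m L' ≤ c0 * M ∧
      ErrW s t π α L' ≤ 2 * ε0 * M := by
    intro k'
    induction k' with
    | zero =>
      intro L hL h2 hk'
      have hfc := hQ.fct _ _ hL
      obtain ⟨hp0, hp1⟩ := phiM_bounds m hm hfc
      have he0 := errW_nonneg s t π α hα hfc
      have h1 : 0 ≤ PhiM m L / M := by positivity
      have h3 : 0 ≤ ErrW s t π α L / (ε0 * M) := by positivity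
      have h4 : PhiM m L / M ≤ 0 := by
        push_cast at hk'; linarith
      have h5 : ErrW s t π α L / (ε0 * M) ≤ 0 := by
        push_cast at hk'; linarith
      rw [div_le_iff₀ hM] at h4
      rw [div_le_iff₀ (by positivity)] at h5
      refine ⟨L, hL, ?_, ?_⟩
      · have : 0 < c0 * M := by positivity
        linarith
      · have : 0 < 2 * ε0 * M := by positivity
        linarith
    | succ k' ih =>
      intro L hL h2 hk'
      have hfc := hQ.fct _ _ hL
      obtain ⟨hp0, hp1⟩ := phiM_bounds m hm hfc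
      have he0 := errW_nonneg s t π α hα hfc
      have h1 : 0 ≤ PhiM m L / M := by positivity
      have h3 : 0 ≤ ErrW s t π α L / (ε0 * M) := by positivity
      have herr : ErrW s t π α L ≤ 2 * ε0 * M := by
        have h5 : ErrW s t π α L / (ε0 * M) ≤ 2 := by linarith
        rw [div_le_iff₀ (by positivity)] at h5
        linarith
      rcases le_total (PhiM m L) (c0 * M) with hc | hc
      · exact ⟨L, hQ.mono' L K0 (k' + 1) hL, hc, herr⟩
      · have hE : Eng K L ≤ 24 * (2 * ε0 * M) :=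
          (hEng _ L hL).trans (mul_le_mul_of_nonneg_left herr (by norm_num))
        obtain ⟨u, hle⟩ := s1g K hK m hd L r τ g c0 (2 * ε0) hfc hm hM' hg hGC hr hc0
          (by
            have e1 : 192 * (2 * ε0) / c0 = 384 * ε0 / c0 := by ring
            rw [e1]; exact hτ) hτ0 hc hE
        rw [← hΔ, ← hMdef] at hle
        have hpr0 := hfc.nn
        have hone : ∑ a, pr L u a = 1 := (hfc.law u u).one
        have havg := errW_avg hQ s t π α (k := K0 + k') hL u
        have hex : ∃ a, 0 < pr L u a ∧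
            PhiM m (cnd L u a) / M + ErrW s t π α (cnd L u a) / (ε0 * M)
              ≤ PhiM m L / M + ErrW s t π α L / (ε0 * M) - Δ := by
          by_contra hne
          push Not at hne
          have hs : ∑ a, pr L u a * (PhiM m (cnd L u a) / M
              + ErrW s t π α (cnd L u a) / (ε0 * M))
              ≤ PhiM m L / M + ErrW s t π α L / (ε0 * M) - Δ := by
            have e2 : ∑ a, pr L u a * (PhiM m (cnd L u a) / M
              + ErrW s t π α (cnd L u a) / (ε0 * M))
              = (∑ a, pr L u a * PhiM m (cnd L u a)) / M + ErrW s t π α L / (ε0 * M) := by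
              rw [← havg, sum_div, sum_div, ← sum_add_distrib]
              refine sum_congr rfl fun a _ => ?_
              ring
            rw [e2]
            have h6 : (∑ a, pr L u a * PhiM m (cnd L u a)) / M ≤ PhiM m L / M - Δ := by
              rw [div_le_iff₀ hM, sub_mul, div_mul_cancel₀ _ hM.ne']
              linarith
            linarith
          have hpos' : ∃ a, 0 < pr L u a := by
            by_contra hno
            push Not at hno
            have : ∑ a, pr L u a ≤ 0 := sum_nonpos fun a _ => hno a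
            linarith
          obtain ⟨a0, ha0⟩ := hpos'
          have hlt : ∑ a, pr L u a * (PhiM m L / M + ErrW s t π α L / (ε0 * M) - Δ)
              < ∑ a, pr L u a * (PhiM m (cnd L u a) / M
              + ErrW s t π α (cnd L u a) / (ε0 * M)) := by
            apply sum_lt_sum
            · intro a _
              rcases (hpr0 u a).lt_or_eq with h | h
              · exact mul_le_mul_of_nonneg_left (hne a h).le h.le
              · rw [← h, zero_mul, zero_mul]
            · exact ⟨a0, mem_univ _, mul_lt_mul_of_pos_left (hne a0 ha0) ha0⟩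
          rw [← sum_mul, hone, one_mul] at hlt
          linarith
        obtain ⟨a, ha, hle2⟩ := hex
        have hL' := hQ.step (K0 + k') L hL u a ha
        refine ih (cnd L u a) hL' ?_ ?_
        · linarith
        · push_cast at hk'
          linarith
  obtain ⟨hp0, hp1⟩ := phiM_bounds m hm (hQ.fct _ _ hL)
  have h1 : PhiM m L / M ≤ 1 := by rw [div_le_one hM]; exact hp1
  have h2 : ErrW s t π α L / (ε0 * M) ≤ 1 := by rw [div_le_one (by positivity)]; exact hErr
  exact key k L hL (by linarith) (by linarith)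

/-- energy bound -/
theorem eng_le (s t : E → V) (π : E → Equiv.Perm A) (ω : E → ℝ) (hω : ∀ e, 0 ≤ ω e)
    (F : V → ℝ) (hF : ∀ v, 0 ≤ F v) (L : ((V → A) → ℝ) →ₗ[ℝ] ℝ) (hL : FctN N L) (hT : Tri L) :
    Eng (kf (K2 s t ω) F) L ≤ 24 * ErrW s t π (al s t ω F) L := by
  have h1 : Eng (kf (K2 s t ω) F) L = (1 / 2) * PS t ω (fun e e' => F (s e) * F (s e') *
      (kr L (s e) (s e) + kr L (s e') (s e') - 2 * kr L (s e) (s e'))) := by
    unfold Eng kf
    congr 1
    rw [← K2_sum s t ω fun u v => F u * F v * (kr L u u + kr L v v - 2 * kr L u v)]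
    exact sum_congr rfl fun u _ => sum_congr rfl fun v _ => by ring
  have h2 : PS t ω (fun e e' => F (s e) * F (s e') *
      (kr L (s e) (s e) + kr L (s e') (s e') - 2 * kr L (s e) (s e'))) ≤
      PS t ω (fun e e' => 24 * (F (s e) * F (s e') * (1 - L (sat (s e) (t e) (π e))) +
        F (s e') * F (s e) * (1 - L (sat (s e') (t e') (π e'))))) := by
    refine PS_mono t ω hω _ _ fun e e' he => ?_
    have h3 := kr_edge hL (s e) (s e') ((π e).trans (π e').symm)
    have h4 := hT (s e) (s e') (t e) (π e) (π e')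
    rw [he] at h4
    have h5 := mul_nonneg (hF (s e)) (hF (s e'))
    have h6 := mul_le_mul_of_nonneg_left (h3.trans (mul_le_mul_of_nonneg_left h4 (by norm_num :
      (0 : ℝ) ≤ 24))) h5
    rw [← he] at h6
    rw [← he]
    linarith
  rw [h1]
  rw [PS_smul, PS_add] at h2
  have h7 : PS t ω (fun e e' => F (s e') * F (s e) * (1 - L (sat (s e') (t e') (π e')))) =
      PS t ω (fun e e' => F (s e) * F (s e') * (1 - L (sat (s e) (t e) (π e)))) :=
    PS_comm t ω fun e e' => F (s e) * F (s e') * (1 - L (sat (s e) (t e) (π e)))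
  rw [h7] at h2
  have h8 : ErrW s t π (al s t ω F) L =
      PS t ω (fun e e' => F (s e) * F (s e') * (1 - L (sat (s e) (t e) (π e)))) :=
    al_sum s t ω F fun e => 1 - L (sat (s e) (t e) (π e))
  rw [h8]
  linarith

/-- rounding of a soft part by the most likely labels -/
theorem viol_le (s t : E → V) (π : E → Equiv.Perm A) (ω : E → ℝ) (hω : ∀ e, 0 ≤ ω e)
    (F : V → ℝ) (hF : ∀ v, 0 ≤ F v) (L : ((V → A) → ℝ) →ₗ[ℝ] ℝ) (hL : FctN N L) (hT : Tri L)
    (x : V → A) (hx : ∀ v, 1 - vr L v ≤ pr L v (x v)) :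
    PS t ω (fun e e' => F (s e) * F (s e') *
      (if π e (x (s e)) = π e' (x (s e')) then 0 else 1)) ≤
      4 * ErrW s t π (al s t ω F) L + 8 * PhiM (fun u => ∑ v, kf (K2 s t ω) F u v) L := by
  have h2 : PS t ω (fun e e' => F (s e) * F (s e') *
      (if π e (x (s e)) = π e' (x (s e')) then 0 else 1)) ≤
      PS t ω (fun e e' => (2 * (F (s e) * F (s e') * (1 - L (sat (s e) (t e) (π e)))) +
        2 * (F (s e') * F (s e) * (1 - L (sat (s e') (t e') (π e'))))) +
        (4 * (F (s e) * F (s e') * vr L (s e)) + 4 * (F (s e') * F (s e) * vr L (s e')))) := by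
    refine PS_mono t ω hω _ _ fun e e' he => ?_
    have h5 := mul_nonneg (hF (s e)) (hF (s e'))
    have v1 := (vr_bounds hL (s e)).1
    have v2 := (vr_bounds hL (s e')).1
    have r1 : 0 ≤ 1 - L (sat (s e) (t e) (π e)) := by linarith [hL.sat1 (s e) (t e) (π e)]
    have r2 : 0 ≤ 1 - L (sat (s e') (t e') (π e')) := by
      linarith [hL.sat1 (s e') (t e') (π e')]
    have key : (if π e (x (s e)) = π e' (x (s e')) then (0 : ℝ) else 1) ≤
        2 * (1 - L (sat (s e) (t e) (π e))) + 2 * (1 - L (sat (s e') (t e') (π e'))) +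
        (4 * vr L (s e) + 4 * vr L (s e')) := by
      split_ifs with h
      · linarith
      · by_cases h1 : vr L (s e) < 1 / 4
        · by_cases h3 : vr L (s e') < 1 / 4
          · have h4 := argmax_edge hL x hx (s e) (s e') ((π e).trans (π e').symm) h1 h3 (by
              intro h6
              apply h
              have h7 : (π e').symm (π e (x (s e))) = x (s e') := h6
              rw [← h7, Equiv.apply_symm_apply])
            have h6 := hT (s e) (s e') (t e) (π e) (π e')
            rw [he] at h6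
            rw [← he] at h6 ⊢
            linarith
          · push Not at h3
            linarith
        · push Not at h1
          linarith
    have h6 := mul_le_mul_of_nonneg_left key h5
    linarith
  rw [PS_add, PS_add, PS_add, PS_smul, PS_smul, PS_smul, PS_smul] at h2
  have h7 : PS t ω (fun e e' => F (s e') * F (s e) * (1 - L (sat (s e') (t e') (π e')))) =
      PS t ω (fun e e' => F (s e) * F (s e') * (1 - L (sat (s e) (t e) (π e)))) :=
    PS_comm t ω fun e e' => F (s e) * F (s e') * (1 - L (sat (s e) (t e) (π e)))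
  have h8 : PS t ω (fun e e' => F (s e') * F (s e) * vr L (s e')) =
      PS t ω (fun e e' => F (s e) * F (s e') * vr L (s e)) :=
    PS_comm t ω fun e e' => F (s e) * F (s e') * vr L (s e)
  have h9 : ErrW s t π (al s t ω F) L =
      PS t ω (fun e e' => F (s e) * F (s e') * (1 - L (sat (s e) (t e) (π e)))) :=
    al_sum s t ω F fun e => 1 - L (sat (s e) (t e) (π e))
  have h10 : PhiM (fun u => ∑ v, kf (K2 s t ω) F u v) L =
      PS t ω (fun e e' => F (s e) * F (s e') * vr L (s e)) := by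
    rw [← K2_sum s t ω fun u v => F u * F v * vr L u]
    unfold PhiM kf
    refine sum_congr rfl fun u _ => ?_
    rw [sum_mul]
    exact sum_congr rfl fun v _ => by ring
  rw [h7, h8] at h2
  rw [h9, h10]
  linarith

end

end Pool.Agent.Y572.SA
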