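import Pool.Agent.Y572.SA.Cond

set_option autoImplicit false

/-!
Rounding of one soft part to a set of vertices, in the Sherali-Adams hierarchy.
-/

namespace Pool.Agent.Y572.SA

open Finset Pool.Agent.H647R3.UG Pool.Agent.H573R3.SL Pool.Agent.TH522.UG Pool.Agent.TH522.US

theorem exp_le_sub (τ : ℝ) (hτ : 0 ≤ τ) (hτ1 : τ ≤ 1 / 2) : Real.exp (-(2 * τ)) ≤ 1 - τ := by
  have h := convexOn_exp.2 (Set.mem_univ (0 : ℝ)) (Set.mem_univ (-1 : ℝ))
    (by linarith : (0 : ℝ) ≤ 1 - 2 * τ) (by linarith : (0 : ℝ) ≤ 2 * τ) (by ring)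
  simp only [smul_eq_mul, mul_zero, zero_add, Real.exp_zero, mul_one] at h
  have he : Real.exp (-1) ≤ 1 / 2 := by
    rw [Real.exp_neg, one_div]
    apply inv_anti₀ (by norm_num)
    have := Real.add_one_le_exp (1 : ℝ)
    linarith
  calc Real.exp (-(2 * τ)) = Real.exp (2 * τ * -1) := by ring_nf
    _ ≤ 1 - 2 * τ + 2 * τ * Real.exp (-1) := h
    _ ≤ 1 - 2 * τ + 2 * τ * (1 / 2) := by
        have := mul_le_mul_of_nonneg_left he (by linarith : (0 : ℝ) ≤ 2 * τ)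
        linarith
    _ = 1 - τ := by ring

section
variable {V E A : Type} [Fintype V] [DecidableEq V] [Fintype E] [Fintype A] [DecidableEq A]

/-- rounding of one part -/
theorem part_round {Q : ℕ → (((V → A) → ℝ) →ₗ[ℝ] ℝ) → Prop} {N : ℕ} (hQ : HierN N Q)
    (hT : ∀ k L, Q k L → Tri L) (s t : E → V) (π : E → Equiv.Perm A) (ω : E → ℝ)
    (hω : ∀ e, 0 ≤ ω e) (hD : 0 < ∑ e, ω e) (n : ℕ) (hn : 0 < n) (κ q ε0 τ : ℝ) (hκ : 0 < κ)
    (hκ1 : κ < 1) (hq : 0 < q) (hε : 0 < ε0) (hτ : 12288 * ε0 ≤ τ)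
    (hτ1 : τ ≤ 1 / 2) (J : ℕ) (hJ : Real.log (1 / q) / κ ≤ 2 ^ J)
    (hNJ : 1 + 2 * (J + 1) * Real.exp (4 * (2 ^ J * (2 * τ))) ≤ N) (k : ℕ)
    (hk : 2 ≤ k * ((1 / 32) ^ 2 / 64 * (Real.exp (-(4 * (2 ^ J * (2 * τ)))) *
      (n : ℝ) ^ (-q))))
    (L : ((V → A) → ℝ) →ₗ[ℝ] ℝ) (hL : Q k L)
    (hloc : ∀ e, 0 < ω e → 1 - L (sat (s e) (t e) (π e)) ≤ ε0)
    (U0 : Finset V) (hU0 : U0.card ≤ n)
    (hU : (∑ e, ω e) / 2 ≤ bil (K2 s t ω) (fun v => if v ∈ U0 then 1 else 0)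
      (fun v => if v ∈ U0 then 1 else 0)) :
    ∃ (x : V → A) (S : Finset V), S.Nonempty ∧ S ⊆ U0 ∧
      (n : ℝ) ^ (-(2 * κ)) / 1024 * ∑ u ∈ S, ds s ω u ≤
        PS t ω fun e e' => if (s e ∈ S ∧ s e' ∈ S) ∧ π e (x (s e)) = π e' (x (s e')) then 1
          else 0 := by
  classical
  have hn0 : (0 : ℝ) < n := by exact_mod_cast hn
  set K := K2 s t ω with hKd
  have hK : IsKer K := isKer_K2 s t ω hω
  set D := ∑ e, ω e with hDd
  set T : V → ℝ := ds s ω with hTd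
  have hT0 : ∀ u, 0 ≤ T u := ds_nonneg s ω hω
  have hTs : ∑ u, T u = D := by
    have := ds_sum s ω fun _ => 1
    simpa using this
  set ρ : V → ℝ := fun u => T u / D + 1 / n with hρd
  have hρ : ∀ v, 0 < ρ v := fun v => add_pos_of_nonneg_of_pos (div_nonneg (hT0 v) hD.le)
    (by positivity)
  obtain ⟨F, hF, hF0, hN, hΘ, hbig, hH⟩ := part_exists hK ρ hρ U0 κ hκ hκ1
    (lt_of_lt_of_le (by linarith) hU)
  set Θ := bil K F F with hΘd
  set p : ℝ := 2 / (1 + κ) with hp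
  have hp1 : 1 < p := by rw [hp, lt_div_iff₀ (by linarith)]; linarith
  have hpk : p * (1 + κ) = 2 := by rw [hp]; field_simp
  -- size of the part
  have hΘD : D / 8 ≤ Θ := by
    have h1 : ∑ v ∈ U0, ρ v ≤ 2 := by
      simp only [hρd]
      rw [sum_add_distrib, sum_const, ← sum_div, nsmul_eq_mul]
      have h2 : ∑ v ∈ U0, T v ≤ D := by
        rw [← hTs]
        exact sum_le_sum_of_subset_of_nonneg (subset_univ _) fun v _ _ => hT0 v
      have h3 : (∑ v ∈ U0, T v) / D ≤ 1 := by rw [div_le_one hD]; exact h2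
      have h4 : (U0.card : ℝ) * (1 / n) ≤ 1 := by
        rw [mul_one_div, div_le_one hn0]
        exact_mod_cast hU0
      linarith
    have h0 : 0 ≤ ∑ v ∈ U0, ρ v := sum_nonneg fun v _ => (hρ v).le
    have h2 : (∑ v ∈ U0, ρ v) ^ (1 + κ) ≤ 4 := by
      calc (∑ v ∈ U0, ρ v) ^ (1 + κ) ≤ (2 : ℝ) ^ (1 + κ) :=
            Real.rpow_le_rpow h0 h1 (by linarith)
        _ ≤ (2 : ℝ) ^ (2 : ℝ) := Real.rpow_le_rpow_of_exponent_le (by norm_num) (by linarith)
        _ = 4 := by norm_num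
    have h3 : Θ * (∑ v ∈ U0, ρ v) ^ (1 + κ) ≤ Θ * 4 := mul_le_mul_of_nonneg_left h2 hΘ.le
    linarith
  -- the mass of the squares
  have hsqF : ∀ u, F u ^ 2 ≤ F u ^ p * (n : ℝ) ^ κ := by
    intro u
    have h1 : F u ^ p ≤ n := by
      have h2 : ρ u * F u ^ p ≤ 1 := by
        rw [← hN]
        exact single_le_sum (f := fun v => ρ v * F v ^ p)
          (fun v _ => mul_nonneg (hρ v).le (Real.rpow_nonneg (hF v) _)) (mem_univ u)
      have h3 : 1 / (n : ℝ) * F u ^ p ≤ ρ u * F u ^ p := by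
        refine mul_le_mul_of_nonneg_right ?_ (Real.rpow_nonneg (hF u) _)
        have := div_nonneg (hT0 u) hD.le
        simp only [hρd]
        linarith
      have h4 : 1 / (n : ℝ) * F u ^ p ≤ 1 := h3.trans h2
      rw [one_div_mul_eq_div, div_le_one hn0] at h4
      exact h4
    rcases (hF u).eq_or_lt with h0 | h0
    · rw [← h0, Real.zero_rpow (by linarith)]
      simp
    · have h5 : F u ^ 2 = F u ^ p * (F u ^ p) ^ κ := by
        have h6 : F u ^ p * (F u ^ p) ^ κ = (F u ^ p) ^ (1 + κ) := by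
          rw [Real.rpow_add (Real.rpow_pos_of_pos h0 _), Real.rpow_one]
        rw [h6, ← Real.rpow_mul h0.le, hpk]
        norm_num
      rw [h5]
      exact mul_le_mul_of_nonneg_left (Real.rpow_le_rpow (Real.rpow_nonneg h0.le _) h1 hκ.le)
        (Real.rpow_nonneg h0.le _)
  have hnk : 0 < (n : ℝ) ^ κ := Real.rpow_pos_of_pos hn0 _
  have hM : ∑ u, T u * F u ^ 2 ≤ D * (n : ℝ) ^ κ := by
    calc ∑ u, T u * F u ^ 2 ≤ ∑ u, D * (n : ℝ) ^ κ * (ρ u * F u ^ p) := by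
          refine sum_le_sum fun u _ => ?_
          have h1 : T u ≤ D * ρ u := by
            simp only [hρd]
            rw [mul_add, mul_div_cancel₀ _ hD.ne']
            have : 0 ≤ D * (1 / n) := by positivity
            linarith
          have h2 : 0 ≤ F u ^ p * (n : ℝ) ^ κ :=
            mul_nonneg (Real.rpow_nonneg (hF u) _) hnk.le
          calc T u * F u ^ 2 ≤ T u * (F u ^ p * (n : ℝ) ^ κ) :=
                mul_le_mul_of_nonneg_left (hsqF u) (hT0 u)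
            _ ≤ D * ρ u * (F u ^ p * (n : ℝ) ^ κ) := mul_le_mul_of_nonneg_right h1 h2
            _ = _ := by ring
      _ = D * (n : ℝ) ^ κ := by rw [← mul_sum, hN, mul_one]
  -- conditioning
  set m : V → ℝ := fun u => ∑ v, kf K F u v with hmd
  have hker := isKer_kf hK F hF
  have hm : ∀ u, 0 ≤ m u := fun u => sum_nonneg fun v _ => hker.nonneg u v
  have hmt : ∑ u, m u = Θ := rfl
  set g : ℝ := Real.exp (-(4 * (2 ^ J * (2 * τ)))) * (n : ℝ) ^ (-q) with hgd
  have hg : 0 ≤ g := mul_nonneg (Real.exp_pos _).le (Real.rpow_nonneg hn0.le _)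
  have hτ0 : 0 ≤ τ := by linarith
  have hcardm : (univ.filter fun v => 0 < m v).card ≤ n := by
    refine le_trans (card_le_card fun v hv => ?_) hU0
    by_contra hcon
    have h1 := (mem_filter.1 hv).2
    have h2 : m v = 0 := by
      refine sum_eq_zero fun w _ => ?_
      unfold kf
      rw [hF0 v hcon]
      ring
    rw [h2] at h1
    exact lt_irrefl _ h1
  have hGC : GCK N (kf K F) m (Real.exp (-(2 * τ))) g :=
    gcz0 (kf K F) hker m (fun u => rfl) κ q n hκ hκ1 hq hcardm hH N J (2 * τ) (by linarith) hJ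
      hNJ
  have hr : Real.exp (-(2 * τ)) ≤ 1 - τ := exp_le_sub τ hτ0 hτ1
  have hα := al_nonneg s t ω hω F hF
  have hErr : ErrW s t π (al s t ω F) L ≤ ε0 * ∑ v, m v := by
    rw [hmt, hΘd, hKd, ← al_total, mul_sum]
    unfold ErrW
    refine sum_le_sum fun e _ => ?_
    rcases (hω e).eq_or_lt with h0 | h0
    · have h1 : al s t ω F e = 0 := by
        unfold al
        have h2 : ∀ e', pw t ω e e' * F (s e') = 0 := by
          intro e'
          unfold pw
          rw [← h0]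
          split_ifs <;> simp
        rw [sum_congr rfl fun e' _ => h2 e', sum_const_zero, mul_zero]
      rw [h1]
      simp
    · rw [mul_comm ε0]
      exact mul_le_mul_of_nonneg_left (hloc e h0) (hα e)
  obtain ⟨L', hL', hPhi, hErr'⟩ := s2g hQ s t π (kf K F) hker.symm m (fun u => rfl)
    (al s t ω F) _ τ g (1 / 32) ε0 k hm
    (by rw [hmt]; exact hΘ) hα hg hGC hr (by norm_num) hε (by linarith) hτ0 hk
    (fun k L hL => eng_le s t π ω hω F hF L (hQ.fct k L hL) (hT k L hL)) 0 L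
    (by rw [Nat.zero_add]; exact hL) hErr
  rw [hmt] at hPhi hErr'
  obtain ⟨x, hx⟩ := exists_argmax (hQ.fct 0 L' hL')
  have hviol := viol_le s t π ω hω F hF L' (hQ.fct 0 L' hL') (hT 0 L' hL') x hx
  have hviol' : PS t ω (fun e e' => F (s e) * F (s e') *
      (if π e (x (s e)) = π e' (x (s e')) then 0 else 1)) ≤ Θ / 2 := by
    refine hviol.trans ?_
    have h1 : PhiM (fun u => ∑ v, kf (K2 s t ω) F u v) L' ≤ 1 / 32 * Θ := hPhi
    have h2 : ε0 * Θ ≤ 1 / 32 * Θ := mul_le_mul_of_nonneg_right (by linarith) hΘ.le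
    nlinarith
  set c : E × E → ℝ := fun i => pw t ω i.1 i.2 *
    (if π i.1 (x (s i.1)) = π i.2 (x (s i.2)) then 1 else 0) with hcd
  have hc0 : ∀ i, 0 ≤ c i := fun i => mul_nonneg (pw_nonneg t ω hω _ _) (by
    split_ifs <;> norm_num)
  have hgood : Θ / 2 ≤ ∑ i, c i * (F (s i.1) * F (s i.2)) := by
    have h1 : Θ = PS t ω (fun e e' => F (s e) * F (s e') *
        (if π e (x (s e)) = π e' (x (s e')) then 0 else 1)) +
        ∑ i, c i * (F (s i.1) * F (s i.2)) := by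
      rw [hΘd, hKd, bil_K2, Fintype.sum_prod_type]
      unfold PS
      rw [← sum_add_distrib]
      refine sum_congr rfl fun e _ => ?_
      rw [← sum_add_distrib]
      refine sum_congr rfl fun e' _ => ?_
      simp only [hcd]
      split_ifs <;> ring
    linarith
  have hcs : (∑ i, c i * (F (s i.1) * F (s i.2))) ^ 2 ≤
      (∑ i, c i * min (F (s i.1) ^ 2) (F (s i.2) ^ 2)) *
        ∑ i, c i * max (F (s i.1) ^ 2) (F (s i.2) ^ 2) := by
    refine sum_sq_le_sum_mul_sum_of_sq_le_mul _ (fun i _ => mul_nonneg (hc0 i)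
      (le_min (sq_nonneg _) (sq_nonneg _))) (fun i _ => mul_nonneg (hc0 i)
      (le_trans (sq_nonneg _) (le_max_left _ _))) fun i _ => le_of_eq ?_
    have := min_mul_max (F (s i.1) ^ 2) (F (s i.2) ^ 2)
    calc (c i * (F (s i.1) * F (s i.2))) ^ 2 = c i ^ 2 * (F (s i.1) ^ 2 * F (s i.2) ^ 2) := by
          ring
      _ = c i ^ 2 * (min (F (s i.1) ^ 2) (F (s i.2) ^ 2) * max (F (s i.1) ^ 2) (F (s i.2) ^ 2)) := by
          rw [this]
      _ = _ := by ring
  have hmax2 : ∑ i, c i * max (F (s i.1) ^ 2) (F (s i.2) ^ 2) ≤ 2 * (∑ u, T u * F u ^ 2) := by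
    have h1 : ∑ i, c i * max (F (s i.1) ^ 2) (F (s i.2) ^ 2) ≤
        PS t ω (fun e e' => F (s e) ^ 2 + F (s e') ^ 2) := by
      rw [Fintype.sum_prod_type]
      unfold PS
      refine sum_le_sum fun e _ => sum_le_sum fun e' _ => ?_
      have h2 : max (F (s e) ^ 2) (F (s e') ^ 2) ≤ F (s e) ^ 2 + F (s e') ^ 2 :=
        max_le (by linarith [sq_nonneg (F (s e'))]) (by linarith [sq_nonneg (F (s e))])
      have h3 : 0 ≤ max (F (s e) ^ 2) (F (s e') ^ 2) := le_trans (sq_nonneg _) (le_max_left _ _)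
      have h4 := pw_nonneg t ω hω e e'
      simp only [hcd]
      split_ifs
      · rw [mul_one]
        exact mul_le_mul_of_nonneg_left h2 h4
      · rw [mul_zero, zero_mul]
        exact mul_nonneg h4 (h3.trans h2)
    refine h1.trans (le_of_eq ?_)
    rw [PS_add, PS_left t ω hω fun e => F (s e) ^ 2,
      PS_comm t ω fun e _ => F (s e) ^ 2, PS_left t ω hω fun e => F (s e) ^ 2,
      ← ds_sum s ω fun u => F u ^ 2]
    ring
  set X := ∑ i, c i * min (F (s i.1) ^ 2) (F (s i.2) ^ 2) with hXd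
  have hX0 : 0 ≤ X := sum_nonneg fun i _ => mul_nonneg (hc0 i)
    (le_min (sq_nonneg _) (sq_nonneg _))
  set M := ∑ u, T u * F u ^ 2 with hMd
  have hM0 : 0 ≤ M := sum_nonneg fun u _ => mul_nonneg (hT0 u) (sq_nonneg _)
  have hmain : (n : ℝ) ^ (-(2 * κ)) / 1024 * M < X := by
    by_contra hcon
    push Not at hcon
    have h1 : (D / 16) ^ 2 ≤ X * (2 * M) := by
      have h2 : (D / 16) ^ 2 ≤ (∑ i, c i * (F (s i.1) * F (s i.2))) ^ 2 :=
        pow_le_pow_left₀ (by positivity) (by linarith) 2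
      exact h2.trans (hcs.trans (mul_le_mul_of_nonneg_left hmax2 hX0))
    have h3 : X * (2 * M) ≤ (n : ℝ) ^ (-(2 * κ)) / 1024 * M * (2 * M) :=
      mul_le_mul_of_nonneg_right hcon (by linarith)
    have h4 : M * M ≤ (D * (n : ℝ) ^ κ) * (D * (n : ℝ) ^ κ) :=
      mul_le_mul hM hM hM0 (by positivity)
    have h5 : (n : ℝ) ^ (-(2 * κ)) * ((n : ℝ) ^ κ * (n : ℝ) ^ κ) = 1 := by
      rw [← Real.rpow_add hn0, ← Real.rpow_add hn0]
      rw [show -(2 * κ) + (κ + κ) = 0 by ring, Real.rpow_zero]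
    have h6 : 0 < (n : ℝ) ^ (-(2 * κ)) := Real.rpow_pos_of_pos hn0 _
    have h7 : (n : ℝ) ^ (-(2 * κ)) / 1024 * M * (2 * M) ≤ D * D / 512 := by
      calc (n : ℝ) ^ (-(2 * κ)) / 1024 * M * (2 * M) =
            (n : ℝ) ^ (-(2 * κ)) / 512 * (M * M) := by ring
        _ ≤ (n : ℝ) ^ (-(2 * κ)) / 512 * ((D * (n : ℝ) ^ κ) * (D * (n : ℝ) ^ κ)) :=
            mul_le_mul_of_nonneg_left h4 (by positivity)
        _ = (n : ℝ) ^ (-(2 * κ)) * ((n : ℝ) ^ κ * (n : ℝ) ^ κ) * (D * D / 512) := by ring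
        _ = _ := by rw [h5, one_mul]
    nlinarith
  obtain ⟨S, hS, hSP, hSb⟩ := layer c (fun i => s i.1) (fun i => s i.2) T
    ((n : ℝ) ^ (-(2 * κ)) / 1024) _ (fun v => F v ^ 2) (fun v => sq_nonneg _) le_rfl hmain
  refine ⟨x, S, hS, fun v hv => ?_, hSb.trans (le_of_eq ?_)⟩
  · by_contra hcon
    have h1 := hSP v hv
    simp only [hF0 v hcon] at h1
    norm_num at h1
  · rw [Fintype.sum_prod_type]
    unfold PS
    refine sum_congr rfl fun e _ => sum_congr rfl fun e' _ => ?_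
    simp only [hcd]
    by_cases h1 : π e (x (s e)) = π e' (x (s e'))
    · by_cases h2 : s e ∈ S ∧ s e' ∈ S
      · rw [if_pos h1, if_pos h2, if_pos ⟨h2, h1⟩]; ring
      · rw [if_pos h1, if_neg h2, if_neg fun h => h2 h.1]; ring
    · rw [if_neg h1, if_neg (fun h => h1 h.2 : ¬ ((s e ∈ S ∧ s e' ∈ S) ∧ _))]; ring


end

end Pool.Agent.Y572.SA
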