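import Pool.Agent.TH522.DG.Round
import Pool.Agent.Y572.SA.Round

set_option autoImplicit false

/-!
Conditioning in the Sherali-Adams hierarchy until the labels of the pairs of edges are correlated
already for independent labels.
-/

namespace Pool.Agent.Y572.SA

open Finset Pool.Agent.H647R3.UG Pool.Agent.H573R3.SL Pool.Agent.TH522.UG Pool.Agent.TH522.US
  Pool.Agent.TH522.DG

section
variable {Z A E B : Type} [Fintype Z] [DecidableEq Z] [Fintype A] [DecidableEq A] [Fintype E]
  [DecidableEq B]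

theorem satF_avg_sa {k : ℕ} {L : ((Z → A) → ℝ) →ₗ[ℝ] ℝ} (hL : SA k L) (hk : 3 ≤ k)
    (s t : E → Z) (π : E → A → B) (ω : E → ℝ) (F : Z → ℝ) (u : Z) :
    ∑ a, pr L u a * SatF s t π ω F (cnd L u a) = SatF s t π ω F L := by
  have h1 : ∀ e e', rl (π e) (π e') (pr2 L (s e) (s e')) =
      ∑ a, pr L u a * rl (π e) (π e') (pr2 (cnd L u a) (s e) (s e')) := by
    intro e e'
    unfold rl
    have h2 : ∀ a b, (if π e a = π e' b then pr2 L (s e) (s e') a b else 0) =
        ∑ c, pr L u c * (if π e a = π e' b then pr2 (cnd L u c) (s e) (s e') a b else 0) := by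
      intro a b
      by_cases h : π e a = π e' b
      · simp only [if_pos h]
        exact (avg2_sa hL hk u _ _ a b).symm
      · simp [h]
    simp only [h2, mul_sum]
    rw [sum_comm]
    conv_rhs => rw [sum_comm]
    rw [sum_comm]
    refine sum_congr rfl fun a _ => ?_
    rw [sum_comm]
  unfold SatF PS
  simp only [h1, mul_sum]
  rw [sum_comm]
  refine sum_congr rfl fun e _ => ?_
  rw [sum_comm]
  refine sum_congr rfl fun e' _ => ?_
  refine sum_congr rfl fun a _ => ?_
  ring

/-- one conditioning step -/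
theorem s1d (s t : E → Z) (π : E → A → B) (d : ℕ) (hd : 0 < d) (hfib : ∀ e, Fib d (π e))
    (ω : E → ℝ) (hω : ∀ e, 0 ≤ ω e) (F : Z → ℝ) (hF : ∀ v, 0 ≤ F v)
    (L : ((Z → A) → ℝ) →ₗ[ℝ] ℝ) {N : ℕ} (hN : 0 < N) (hL : FctN N L) (m : Z → ℝ)
    (hm : m = fun u => ∑ v, kf (K2 s t ω) F u v) (θ g : ℝ) (hθ : 0 < θ) (hg : 0 ≤ g)
    (hM : 0 < ∑ v, m v) (hGC : GCK N (kf (K2 s t ω) F) m (θ ^ 2 / d) g)
    (hS : 2 * θ * ∑ v, m v ≤ SatF s t π ω F L)
    (hI : IndF s t π ω F (pr L) ≤ θ * ∑ v, m v) :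
    ∃ u, (θ ^ 2 / d) ^ 2 * g * ∑ v, m v ≤ PhiM m L - ∑ a, pr L u a * PhiM m (cnd L u a) := by
  have hd0 : (0 : ℝ) < d := by exact_mod_cast hd
  have hker := isKer_kf (isKer_K2 s t ω hω) F hF
  have hm0 : ∀ u, 0 ≤ m u := fun u => by
    rw [hm]; exact sum_nonneg fun v _ => hker.nonneg u v
  have hrow : ∀ u, ∑ v, kf (K2 s t ω) F u v = m u := fun u => by rw [hm]
  set M : ℝ := ∑ v, m v with hMd
  set r : ℝ := θ ^ 2 / d with hr
  have hr0 : 0 < r := by positivity
  have hMps : M = PS t ω fun e e' => F (s e) * F (s e') := by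
    rw [hMd, ← bil_K2, hm]
    unfold bil
    refine sum_congr rfl fun u _ => sum_congr rfl fun v _ => rfl
  -- the form of the kernel
  have hbil : ∑ u, ∑ v, kf (K2 s t ω) F u v * kr L u v =
      PS t ω fun e e' => F (s e) * F (s e') * kr L (s e) (s e') := by
    rw [← K2_sum s t ω fun u v => F u * F v * kr L u v]
    unfold kf
    exact sum_congr rfl fun u _ => sum_congr rfl fun v _ => by ring
  have hlow : r * M ≤ ∑ u, ∑ v, kf (K2 s t ω) F u v * kr L u v := by
    rw [hbil]
    have h1 : PS t ω (fun e e' => (1 / d) * (2 * θ * (F (s e) * F (s e') *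
        rl (π e) (π e') (pr2 L (s e) (s e'))) + (-(2 * θ)) * (F (s e) * F (s e') *
        rl (π e) (π e') (fun a b => pr L (s e) a * pr L (s e') b)) +
        (-θ ^ 2) * (F (s e) * F (s e')))) ≤
        PS t ω (fun e e' => F (s e) * F (s e') * kr L (s e) (s e')) := by
      refine PS_mono t ω hω _ _ fun e e' _ => ?_
      have h2 := rl_ker (hL.law (s e) (s e')) d (π e) (π e') (hfib e) (hfib e')
      have h3 : kr L (s e) (s e') = ker (pr2 L (s e) (s e')) (pr L (s e)) (pr L (s e')) := rfl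
      rw [← h3] at h2
      have h4 := mul_nonneg (hF (s e)) (hF (s e'))
      set X := rl (π e) (π e') (pr2 L (s e) (s e'))
      set Y := rl (π e) (π e') (fun a b => pr L (s e) a * pr L (s e') b)
      have h5 : (1 / d) * (2 * θ * (X - Y) - θ ^ 2) ≤ kr L (s e) (s e') := by
        rw [one_div, inv_mul_le_iff₀ hd0]
        nlinarith [sq_nonneg (X - Y - θ)]
      have h6 := mul_le_mul_of_nonneg_left h5 h4
      linarith
    refine le_trans ?_ h1
    rw [PS_smul, PS_add, PS_add, PS_smul, PS_smul, PS_smul, ← hMps]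
    have h7 : (PS t ω fun e e' => F (s e) * F (s e') * rl (π e) (π e') (pr2 L (s e) (s e'))) =
        SatF s t π ω F L := rfl
    have h8 : (PS t ω fun e e' => F (s e) * F (s e') *
        rl (π e) (π e') (fun a b => pr L (s e) a * pr L (s e') b)) = IndF s t π ω F (pr L) := rfl
    rw [h7, h8, hr, div_mul_eq_mul_div, div_le_iff₀ hd0, one_div, inv_mul_eq_div,
      div_mul_cancel₀ _ hd0.ne']
    nlinarith
  -- masses
  set a := ∑ u, m u * kr L u u with had
  have hTM : a ≤ M := by
    refine sum_le_sum fun u _ => ?_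
    have := mul_le_mul_of_nonneg_left (kr_le_one hL u u).2 (hm0 u)
    linarith
  have hbi : ∑ u, ∑ v, kf (K2 s t ω) F u v * kr L u v ≤ a := by
    have h1 := eng_eq (kf (K2 s t ω) F) hker.symm m hrow L
    have h2 : 0 ≤ Eng (kf (K2 s t ω) F) L := by
      unfold Eng
      exact mul_nonneg (by norm_num) (sum_nonneg fun u _ => sum_nonneg fun v _ =>
        mul_nonneg (hker.nonneg u v) (two_point hN hL.loc (kr_symm hL) u v))
    linarith
  have hT2 : r * M ≤ a := hlow.trans hbi
  have hT0 : 0 < a := lt_of_lt_of_le (by positivity) hT2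
  have hgc := hGC (kr L) hL.loc (kr_symm hL) hT0
    (le_trans (mul_le_mul_of_nonneg_left hTM hr0.le) hlow)
  rw [← had] at hgc
  refine exists_dec hL m hm0 hM _ (le_trans ?_ hgc)
  have h1 : (r * M) ^ 2 ≤ a ^ 2 := pow_le_pow_left₀ (by positivity) hT2 2
  have h2 : r ^ 2 * g * M ^ 2 = (r * M) ^ 2 * g := by ring
  rw [h2]
  exact mul_le_mul_of_nonneg_right h1 hg

/-- iteration: `c2` is a lower bound for the correlation of the pairs of edges -/
theorem s2d (s t : E → Z) (π : E → A → B) (d : ℕ) (hd : 0 < d) (hfib : ∀ e, Fib d (π e))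
    (ω : E → ℝ) (hω : ∀ e, 0 ≤ ω e) (F : Z → ℝ) (hF : ∀ v, 0 ≤ F v) (m : Z → ℝ)
    (hm : m = fun u => ∑ v, kf (K2 s t ω) F u v) (c2 g : ℝ) (hc2 : 0 < c2) (hg : 0 ≤ g)
    (hM : 0 < ∑ v, m v) {N : ℕ} (hN : 0 < N)
    (hGC : GCK N (kf (K2 s t ω) F) m ((c2 / 4) ^ 2 / d) g) (k : ℕ)
    (hk : 1 ≤ k * (c2 / 2 * (((c2 / 4) ^ 2 / d) ^ 2 * g)))
    (L : ((Z → A) → ℝ) →ₗ[ℝ] ℝ) (hL : SA (k + (N + 3)) L)
    (hS : c2 * ∑ v, m v ≤ SatF s t π ω F L) :
    ∃ L' : ((Z → A) → ℝ) →ₗ[ℝ] ℝ, SA (0 + (N + 3)) L' ∧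
      c2 / 4 * ∑ v, m v ≤ IndF s t π ω F (pr L') := by
  set M := ∑ v, m v with hMdef
  set Δ := ((c2 / 4) ^ 2 / d) ^ 2 * g with hΔ
  have hd0 : (0 : ℝ) < d := by exact_mod_cast hd
  have hΔ0 : 0 ≤ Δ := by positivity
  have hker := isKer_kf (isKer_K2 s t ω hω) F hF
  have hm0 : ∀ u, 0 ≤ m u := fun u => by
    rw [hm]; exact sum_nonneg fun v _ => hker.nonneg u v
  have hMps : M = PS t ω fun e e' => F (s e) * F (s e') := by
    rw [hMdef, ← bil_K2, hm]
    unfold bil
    refine sum_congr rfl fun u _ => sum_congr rfl fun v _ => rfl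
  have hsat1 : ∀ L : ((Z → A) → ℝ) →ₗ[ℝ] ℝ, FctN N L → SatF s t π ω F L ≤ M := by
    intro L hL
    rw [hMps]
    refine PS_mono t ω hω _ _ fun e e' _ => ?_
    have := mul_le_mul_of_nonneg_left (rl_le_one (hL.law (s e) (s e')) (π e) (π e'))
      (mul_nonneg (hF (s e)) (hF (s e')))
    linarith
  have key : ∀ k' : ℕ, ∀ (L : ((Z → A) → ℝ) →ₗ[ℝ] ℝ), SA (k' + (N + 3)) L →
      c2 / 2 * PhiM m L - SatF s t π ω F L < (k' * (c2 / 2 * Δ) - 1) * M →
      c2 / 2 * PhiM m L - SatF s t π ω F L ≤ -(c2 / 2) * M →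
      ∃ L' : ((Z → A) → ℝ) →ₗ[ℝ] ℝ, SA (0 + (N + 3)) L' ∧ c2 / 4 * M ≤ IndF s t π ω F (pr L') := by
    intro k'
    induction k' with
    | zero =>
      intro L hL h2 h3
      have hfc := (hier_sa Z A N).fct _ _ hL
      obtain ⟨hp0, hp1⟩ := phiM_bounds m hm0 hfc
      have h4 := hsat1 L hfc
      have h5 : 0 ≤ c2 / 2 * PhiM m L := by positivity
      push_cast at h2
      exfalso
      linarith
    | succ k' ih =>
      intro L hL h2 h3
      have hfc := (hier_sa Z A N).fct _ _ hL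
      obtain ⟨hp0, hp1⟩ := phiM_bounds m hm0 hfc
      rcases le_total (c2 / 4 * M) (IndF s t π ω F (pr L)) with hc | hc
      · exact ⟨L, (hier_sa Z A N).mono' L 0 (k' + 1) (by rw [Nat.zero_add]; exact hL), hc⟩
      · have hS' : 2 * (c2 / 4) * M ≤ SatF s t π ω F L := by
          have : 0 ≤ c2 / 2 * PhiM m L := by positivity
          linarith
        obtain ⟨u, hle⟩ := s1d s t π d hd hfib ω hω F hF L hN hfc m hm (c2 / 4) g (by positivity) hg
          hM hGC hS' hc
        rw [← hΔ, ← hMdef] at hle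
        have hpr0 := hfc.nn
        have hone : ∑ a, pr L u a = 1 := (hfc.law u u).one
        have havg := satF_avg_sa hL (by omega) s t π ω F u
        have hex : ∃ a, 0 < pr L u a ∧
            c2 / 2 * PhiM m (cnd L u a) - SatF s t π ω F (cnd L u a)
              ≤ c2 / 2 * PhiM m L - SatF s t π ω F L - c2 / 2 * Δ * M := by
          by_contra hne
          push Not at hne
          have hs : ∑ a, pr L u a * (c2 / 2 * PhiM m (cnd L u a) - SatF s t π ω F (cnd L u a))
              ≤ c2 / 2 * PhiM m L - SatF s t π ω F L - c2 / 2 * Δ * M := by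
            have e2 : ∑ a, pr L u a * (c2 / 2 * PhiM m (cnd L u a)
              - SatF s t π ω F (cnd L u a))
              = c2 / 2 * (∑ a, pr L u a * PhiM m (cnd L u a)) - SatF s t π ω F L := by
              rw [← havg, mul_sum, ← sum_sub_distrib]
              refine sum_congr rfl fun a _ => ?_
              ring
            rw [e2]
            have := mul_le_mul_of_nonneg_left hle (by positivity : 0 ≤ c2 / 2)
            linarith
          have hpos' : ∃ a, 0 < pr L u a := by
            by_contra hno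
            push Not at hno
            have : ∑ a, pr L u a ≤ 0 := sum_nonpos fun a _ => hno a
            linarith
          obtain ⟨a0, ha0⟩ := hpos'
          have hlt : ∑ a, pr L u a * (c2 / 2 * PhiM m L - SatF s t π ω F L - c2 / 2 * Δ * M)
              < ∑ a, pr L u a * (c2 / 2 * PhiM m (cnd L u a) - SatF s t π ω F (cnd L u a)) := by
            apply sum_lt_sum
            · intro a _
              rcases (hpr0 u a).lt_or_eq with h | h
              · exact mul_le_mul_of_nonneg_left (hne a h).le h.le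
              · rw [← h, zero_mul, zero_mul]
            · exact ⟨a0, mem_univ _, mul_lt_mul_of_pos_left (hne a0 ha0) ha0⟩
          rw [← sum_mul, hone, one_mul] at hlt
          linarith
        obtain ⟨a, ha, hle2⟩ := hex
        have hL' := (hier_sa Z A N).step k' L hL u a ha
        refine ih (cnd L u a) hL' ?_ ?_
        · push_cast at h2
          linarith
        · have : 0 ≤ c2 / 2 * Δ * M := by positivity
          linarith
  have hfc := (hier_sa Z A N).fct _ _ hL
  obtain ⟨hp0, hp1⟩ := phiM_bounds m hm0 hfc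
  have h1 : c2 / 2 * PhiM m L ≤ c2 / 2 * M := mul_le_mul_of_nonneg_left hp1 (by positivity)
  have h2 : 1 * M ≤ k * (c2 / 2 * Δ) * M := mul_le_mul_of_nonneg_right hk hM.le
  have h3 : 0 < c2 * M := by positivity
  exact key k L hL (by linarith) (by linarith)

end

end Pool.Agent.Y572.SA
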