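import Pool.Agent.Y572.SA.Small

set_option autoImplicit false

/-!
Rounding of the Sherali-Adams hierarchy for unique games with any completeness.
-/

namespace Pool.Agent.Y572.SA

open Finset Pool.Agent.H647R3.UG Pool.Agent.H573R3.SL Pool.Agent.TH522.UG Pool.Agent.TH522.US
  Pool.Agent.TH522.DG

/-- the number of levels -/
theorem numD_sa (n : ℕ) (c l x : ℝ) (hc : 0 < c) (hc1 : c ≤ 1)
    (hx : x = Real.log (1024 / c ^ 4) / l) (hl : Real.log (1024 / c ^ 4) ≤ l)
    (hln : l ≤ Real.log n) (K : ℝ)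
    (hK : 16 * ((1 + Real.log n) * (n : ℝ) ^ (16 * (x * Real.log (2 / x)))) ≤ K) :
    ∃ (J k N : ℕ), Real.log (1 / x) / (l / (2 * Real.log n)) ≤ 2 ^ J ∧
      1 + 2 * ((J : ℝ) + 1) * Real.exp (4 * (2 ^ J * Real.log (1024 / c ^ 4))) ≤ N ∧
      8 / c ^ 2 ≤ N ∧
      1 ≤ k * (c ^ 2 / 8 / 2 * (((c ^ 2 / 8 / 4) ^ 2 / ((1 : ℕ) : ℝ)) ^ 2 *
        (Real.exp (-(4 * (2 ^ J * Real.log (1024 / c ^ 4)))) * (n : ℝ) ^ (-x)))) ∧
      ((k : ℝ) + (N + 3)) ≤ K := by
  have hl2 := Real.log_two_gt_d9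
  have hl2' := Real.log_two_lt_d9
  have hc2 : c ^ 2 ≤ 1 := pow_le_one₀ hc.le hc1
  have hc4 : c ^ 4 ≤ 1 := pow_le_one₀ hc.le hc1
  have hc40 : 0 < c ^ 4 := pow_pos hc 4
  have hR0 : (1024 : ℝ) ≤ 1024 / c ^ 4 := by
    rw [le_div_iff₀ hc40]
    linarith
  obtain ⟨Λ, hΛ⟩ : ∃ Λ, Λ = Real.log (1024 / c ^ 4) := ⟨_, rfl⟩
  rw [← hΛ] at hx hl ⊢
  have hΛ1 : 6.9 ≤ Λ := by
    have h1 : Real.log 1024 ≤ Λ := by
      rw [hΛ]; exact Real.log_le_log (by norm_num) hR0
    have h2 : Real.log 1024 = 10 * Real.log 2 := by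
      have : (1024 : ℝ) = 2 ^ 10 := by norm_num
      rw [this, Real.log_pow]
      push_cast
      ring
    linarith
  have heΛ : Real.exp Λ = 1024 / c ^ 4 := by rw [hΛ, Real.exp_log (by positivity)]
  have hl0 : 0 < l := by linarith
  obtain ⟨y, hy⟩ : ∃ y, y = Real.log n := ⟨_, rfl⟩
  rw [← hy] at hln hK ⊢
  have hy0 : 6.9 ≤ y := by linarith
  have hn0 : (0 : ℝ) < n := by
    rcases Nat.eq_zero_or_pos n with h | h
    · rw [hy, h] at hy0; norm_num at hy0
    · exact_mod_cast h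
  have hx0 : 0 < x := by rw [hx]; positivity
  have hx1 : x ≤ 1 := by rw [hx, div_le_one hl0]; exact hl
  have hxl : x * l = Λ := by rw [hx]; field_simp
  have hxy : Λ ≤ x * y := by
    rw [← hxl]
    exact mul_le_mul_of_nonneg_left hln hx0.le
  obtain ⟨R, hR⟩ : ∃ R, R = Real.log (1 / x) := ⟨_, rfl⟩
  have hR00 : 0 ≤ R := by
    rw [hR]; exact Real.log_nonneg (by rw [le_div_iff₀ hx0]; linarith)
  have hlog2 : Real.log (2 / x) = Real.log 2 + R := by
    rw [hR, ← Real.log_mul (by norm_num) (by positivity)]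
    congr 1
    ring
  have hRy : R ≤ y := by
    have h1 : 1 / x ≤ y := by
      rw [div_le_iff₀ hx0]
      linarith
    have h2 : R ≤ Real.log y := by
      rw [hR]; exact Real.log_le_log (by positivity) h1
    have h3 := Real.log_le_sub_one_of_pos (by linarith : 0 < y)
    linarith
  have hT : R / (l / (2 * y)) = 2 * y * R / l := by field_simp
  have hT0 : 0 ≤ 2 * y * R / l := by
    have : 0 ≤ y := by linarith
    positivity
  obtain ⟨J, hJ1, hJ2⟩ := pow_near (2 * y * R / l) hT0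
  obtain ⟨E1, hE1⟩ : ∃ E1 : ℝ, E1 = 4 * (2 ^ J * Λ) := ⟨_, rfl⟩
  have hE : E1 ≤ 16 * (x * R) * y + 4 * (x * y) := by
    have h1 : E1 ≤ 4 * Λ * (2 * (2 * y * R / l) + 1) := by
      rw [hE1]
      have := mul_le_mul_of_nonneg_left hJ2 (by linarith : 0 ≤ 4 * Λ)
      linarith
    have h2 : 4 * Λ * (2 * (2 * y * R / l) + 1) = 16 * (x * R) * y + 4 * Λ := by
      rw [hx]
      field_simp
      ring
    linarith
  have hJb : (J : ℝ) + 1 ≤ 3 * (1 + y) := by
    have h1 : (2 : ℝ) ^ J ≤ (1 + y) ^ 2 := by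
      have h2 : 2 * y * R / l ≤ 2 * y * y / 6.9 := by
        refine div_le_div₀ (mul_nonneg (by linarith) (by linarith)) ?_ (by norm_num) (by linarith)
        exact mul_le_mul_of_nonneg_left hRy (by linarith)
      have h3 : 2 * y * y / 6.9 = (2 / 6.9) * (y * y) := by ring
      rw [h3] at h2
      have h4 : 0 ≤ y * y := mul_nonneg (by linarith) (by linarith)
      have h5 : (1 + y) ^ 2 = 1 + 2 * y + y * y := by ring
      rw [h5]
      norm_num at h2
      linarith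
    have h2 := Real.log_le_log (by positivity) h1
    rw [Real.log_pow, Real.log_pow] at h2
    have h3 := Real.log_le_sub_one_of_pos (by linarith : 0 < 1 + y)
    push_cast at h2
    have h4 : (J : ℝ) * 0.69 ≤ J * Real.log 2 :=
      mul_le_mul_of_nonneg_left (by linarith) (Nat.cast_nonneg J)
    have h5 : (J : ℝ) * 0.69 ≤ 2 * y := by linarith
    linarith
  obtain ⟨B, hB⟩ : ∃ B : ℝ, B = Real.exp (y * (16 * (x * Real.log (2 / x)))) := ⟨_, rfl⟩
  have hBn : (n : ℝ) ^ (16 * (x * Real.log (2 / x))) = B := by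
    rw [Real.rpow_def_of_pos hn0, ← hy, hB]
  rw [hBn] at hK
  have hxy0 : 0 ≤ x * y := by linarith
  have hxRy0 : 0 ≤ x * R * y := by
    have : 0 ≤ y := by linarith
    positivity
  have hl2xy : 0.69 * (x * y) ≤ Real.log 2 * (x * y) :=
    mul_le_mul_of_nonneg_right (by linarith) hxy0
  have hexpo : y * (16 * (x * (Real.log 2 + R))) = 16 * (Real.log 2 * (x * y)) +
      16 * (x * R * y) := by ring
  have hB1 : 1 ≤ B := by
    rw [hB, hlog2]
    apply Real.one_le_exp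
    rw [hexpo]
    linarith
  have hexpE : Real.exp E1 ≤ B := by
    rw [hB, hlog2]
    apply Real.exp_le_exp.2
    rw [hexpo]
    linarith
  have hexpQ : Real.exp (3 * Λ) * (Real.exp E1 * (n : ℝ) ^ x) ≤ B := by
    rw [hB, Real.rpow_def_of_pos hn0, ← hy, ← Real.exp_add, ← Real.exp_add]
    apply Real.exp_le_exp.2
    rw [hlog2, hexpo]
    linarith
  have hcB : 8 / c ^ 2 ≤ B := by
    have h1 : 8 / c ^ 2 ≤ 1024 / c ^ 4 := by
      rw [div_le_div_iff₀ (by positivity) hc40]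
      have h2 : c ^ 4 = c ^ 2 * c ^ 2 := by ring
      rw [h2]
      have h3 : 0 < c ^ 2 := by positivity
      have h4 : c ^ 2 * c ^ 2 ≤ 1 * c ^ 2 := mul_le_mul_of_nonneg_right hc2 h3.le
      linarith
    rw [← heΛ] at h1
    refine h1.trans ?_
    rw [hB, hlog2]
    apply Real.exp_le_exp.2
    rw [hexpo]
    linarith
  refine ⟨J, ⌈Real.exp (3 * Λ) * (Real.exp E1 * (n : ℝ) ^ x)⌉₊,
    ⌈1 + 2 * ((J : ℝ) + 1) * Real.exp E1 + 8 / c ^ 2⌉₊, by rw [← hR, hT]; exact hJ1, ?_, ?_, ?_, ?_⟩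
  · rw [← hE1]
    have h1 := Nat.le_ceil (1 + 2 * ((J : ℝ) + 1) * Real.exp E1 + 8 / c ^ 2)
    have h2 : 0 < 8 / c ^ 2 := by positivity
    linarith
  · have h1 := Nat.le_ceil (1 + 2 * ((J : ℝ) + 1) * Real.exp E1 + 8 / c ^ 2)
    have h2 : 0 < 2 * ((J : ℝ) + 1) * Real.exp E1 := by positivity
    linarith
  · rw [← hE1]
    have h1 := Nat.le_ceil (Real.exp (3 * Λ) * (Real.exp E1 * (n : ℝ) ^ x))
    have h2 : 0 < Real.exp (-E1) * (n : ℝ) ^ (-x) :=
      mul_pos (Real.exp_pos _) (Real.rpow_pos_of_pos hn0 _)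
    have e1 : (c ^ 2 / 8 / 4) ^ 2 / ((1 : ℕ) : ℝ) = Real.exp (-Λ) := by
      rw [Real.exp_neg, heΛ, inv_div, Nat.cast_one, div_one]
      ring
    rw [e1]
    have e2 : Real.exp (-Λ) ≤ c ^ 2 / 8 / 2 := by
      rw [Real.exp_neg, heΛ, inv_div, div_le_iff₀ (by norm_num)]
      have h3 : c ^ 4 ≤ c ^ 2 := by
        calc c ^ 4 = c ^ 2 * c ^ 2 := by ring
          _ ≤ c ^ 2 * 1 := mul_le_mul_of_nonneg_left hc2 (by positivity)
          _ = c ^ 2 := mul_one _
      have h4 := pow_pos hc 2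
      linarith
    have h3 : Real.exp (3 * Λ) * (Real.exp E1 * (n : ℝ) ^ x) * (Real.exp (-Λ) *
        (Real.exp (-Λ) ^ 2 * (Real.exp (-E1) * (n : ℝ) ^ (-x)))) = 1 := by
      rw [Real.rpow_def_of_pos hn0, Real.rpow_def_of_pos hn0, ← Real.exp_nat_mul]
      simp only [← Real.exp_add]
      rw [← Real.exp_zero]
      congr 1
      push_cast
      ring
    calc (1 : ℝ) = Real.exp (3 * Λ) * (Real.exp E1 * (n : ℝ) ^ x) * (Real.exp (-Λ) *
        (Real.exp (-Λ) ^ 2 * (Real.exp (-E1) * (n : ℝ) ^ (-x)))) := h3.symm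
      _ ≤ _ := by
        refine mul_le_mul h1 ?_ (by positivity) (Nat.cast_nonneg _)
        exact mul_le_mul_of_nonneg_right e2 (by positivity)
  · have h1 := (Nat.ceil_lt_add_one (by positivity :
      0 ≤ Real.exp (3 * Λ) * (Real.exp E1 * (n : ℝ) ^ x))).le
    have h2 := (Nat.ceil_lt_add_one (by positivity :
      0 ≤ 1 + 2 * ((J : ℝ) + 1) * Real.exp E1 + 8 / c ^ 2)).le
    have h3 : 2 * ((J : ℝ) + 1) * Real.exp E1 ≤ 6 * ((1 + y) * B) := by
      calc 2 * ((J : ℝ) + 1) * Real.exp E1 ≤ 2 * (3 * (1 + y)) * B := by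
            refine mul_le_mul (by linarith) hexpE (Real.exp_pos _).le (by linarith)
        _ = 6 * ((1 + y) * B) := by ring
    have h4 : B ≤ (1 + y) * B := le_mul_of_one_le_left (by linarith) (by linarith)
    linarith

section
variable {U V A E : Type} [Fintype U] [Fintype V] [Fintype E] [Fintype A] [DecidableEq A]

/-- any completeness -/
theorem core_sa [DecidableEq U] [DecidableEq V] (u : E → U) (v : E → V) (π : E → Equiv.Perm A)
    (c l x : ℝ) (hc : 0 < c) (hc1 : c ≤ 1) (hx : x = Real.log (1024 / c ^ 4) / l) (hl0 : 0 < l)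
    (hl : Real.log (1024 / c ^ 4) ≤ l) (hln : l ≤ Real.log (Fintype.card U)) (K : ℕ)
    (hK : 16 * ((1 + Real.log (Fintype.card U)) *
      (Fintype.card U : ℝ) ^ (16 * (x * Real.log (2 / x)))) ≤ K)
    (L : ((U ⊕ V → A) → ℝ) →ₗ[ℝ] ℝ) (hL : SA K L)
    (hval : c * (Fintype.card E : ℝ) ≤ ∑ e, L (sat (Sum.inl (u e)) (Sum.inr (v e)) (π e))) :
    ∃ X : U ⊕ V → A, c ^ 5 * Real.exp (-l) / 2 ^ 21 * (Fintype.card E : ℝ) ≤
      ((univ.filter fun e => π e (X (Sum.inl (u e))) = X (Sum.inr (v e))).card : ℝ) := by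
  classical
  have hne : Nonempty (U ⊕ V → A) := by
    by_contra hcon
    rw [not_nonempty_iff] at hcon
    have h1 := hL.one
    have h2 : (fun _ : U ⊕ V → A => (1 : ℝ)) = 0 := Subsingleton.elim _ _
    rw [h2, map_zero] at h1
    exact zero_ne_one h1
  obtain ⟨X0⟩ := hne
  rcases Nat.eq_zero_or_pos (Fintype.card E) with hE | hE
  · refine ⟨X0, ?_⟩
    rw [hE]
    simp
  have hE0 : (0 : ℝ) < Fintype.card E := by exact_mod_cast hE
  obtain ⟨e0⟩ : Nonempty E := Fintype.card_pos_iff.1 hE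
  have hA : Nonempty A := ⟨X0 (Sum.inl (u e0))⟩
  have hlog : 0 < Real.log (Fintype.card U) := by linarith
  have hn : 0 < Fintype.card U := Fintype.card_pos_iff.2 ⟨u e0⟩
  have hn0 : (0 : ℝ) < Fintype.card U := by exact_mod_cast hn
  have hc4 : c ^ 4 ≤ 1 := pow_le_one₀ hc.le hc1
  have hR : (1024 : ℝ) ≤ 1024 / c ^ 4 := by
    rw [le_div_iff₀ (by positivity)]
    linarith
  have hΛ : 0 < Real.log (1024 / c ^ 4) := Real.log_pos (by linarith)
  have hx0 : 0 < x := by rw [hx]; positivity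
  obtain ⟨J, k, N, hJ, hNJ, hNc, hk, hkN⟩ := numD_sa (Fintype.card U) c l x hc hc1 hx hl hln K hK
  have hkN' : k + (N + 3) ≤ K := by exact_mod_cast hkN
  have hL' : SA (k + (N + 3)) L := hL.mono hkN'
  have hN0 : 0 < N := by
    have h1 : (0 : ℝ) < N := lt_of_lt_of_le (by positivity) hNc
    exact_mod_cast h1
  set s : E → U ⊕ V := fun e => Sum.inl (u e) with hs
  set t : E → U ⊕ V := fun e => Sum.inr (v e) with ht
  have hsat1 : ∀ e, L (sat (s e) (t e) (π e)) ≤ 1 := fun e => sat_le_sa hL' (by omega) _ _ _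
  -- good edges
  set G : E → Prop := fun e => c / 2 ≤ L (sat (s e) (t e) (π e)) with hG
  set ω : E → ℝ := fun e => if G e then (1 : ℝ) else 0 with hωd
  have hω : ∀ e, 0 ≤ ω e := fun e => by simp only [hωd]; split_ifs <;> norm_num
  have hgood : c / 2 * (Fintype.card E : ℝ) ≤ ∑ e, ω e := by
    have h1 : ∀ e, L (sat (s e) (t e) (π e)) ≤ c / 2 + ω e := by
      intro e
      simp only [hωd]
      by_cases h : G e
      · rw [if_pos h]
        have := hsat1 e
        linarith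
      · rw [if_neg h]
        simp only [hG, not_le] at h
        linarith
    have h2 := sum_le_sum fun e (_ : e ∈ (univ : Finset E)) => h1 e
    rw [sum_add_distrib, sum_const, card_univ, nsmul_eq_mul] at h2
    linarith
  have hD : 0 < ∑ e, ω e := lt_of_lt_of_le (by positivity) hgood
  have hpair : ∀ F : U ⊕ V → ℝ, (∀ z, 0 ≤ F z) →
      c ^ 2 / 8 * bil (K2 s t ω) F F ≤ SatF s t (fun e => (π e : A → A)) ω F L := by
    intro F hF
    have h1 := pair_corr_sa hN0 hL' (by omega) s t π ω hω (c / 2) (by positivity) (fun e he => by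
      by_contra hcon
      have h1 : ω e = 0 := by
        simp only [hωd]
        rw [if_neg]
        exact hcon
      linarith) F hF
    refine le_trans ?_ h1
    have hb : 0 ≤ bil (K2 s t ω) F F := (isKer_K2 s t ω hω).psd F
    refine mul_le_mul_of_nonneg_right ?_ hb
    have h2 : 1 / (N : ℝ) ≤ c ^ 2 / 8 := by
      rw [div_le_iff₀ (by positivity)] at hNc
      rw [div_le_iff₀ (by exact_mod_cast hN0)]
      linarith
    linarith
  have hκ0 : 0 < l / (2 * Real.log (Fintype.card U)) := by positivity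
  have hκ1 : l / (2 * Real.log (Fintype.card U)) < 1 := by
    rw [div_lt_one (by positivity)]
    linarith
  have hβe : (Fintype.card U : ℝ) ^ (-(2 * (l / (2 * Real.log (Fintype.card U))))) =
      Real.exp (-l) := by
    rw [Real.rpow_def_of_pos hn0]
    congr 1
    field_simp
  set S0 : Finset (U ⊕ V) := univ.map Function.Embedding.inl with hS0
  have hSc : S0.card = Fintype.card U := by rw [hS0, card_map, card_univ]
  have hsS : ∀ e, s e ∈ S0 := fun e => by simp [hs, hS0]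
  have hcsq : c ^ 2 ≤ 1 := pow_le_one₀ hc.le hc1
  have hrl : Real.exp (-Real.log (1024 / c ^ 4)) = (c ^ 2 / 8 / 4) ^ 2 / ((1 : ℕ) : ℝ) := by
    rw [Real.exp_neg, Real.exp_log (by positivity), inv_div, Nat.cast_one, div_one]
    ring
  have hpart := fun (U0 : Finset (U ⊕ V)) (hU0 : U0 ⊆ S0) =>
    part_round_d s t (fun e => (π e : A → A)) 1 one_pos (fun e b => by
      rw [Finset.card_le_one]
      intro a ha a' ha'
      simp only [Finset.mem_filter, Finset.mem_univ, true_and] at ha ha'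
      exact (π e).injective (ha.trans ha'.symm)) ω hω hD (Fintype.card U) hn
      (l / (2 * Real.log (Fintype.card U))) x (c ^ 2 / 8) (Real.log (1024 / c ^ 4)) hκ0 hκ1 hx0
      (by positivity) (by linarith) hΛ.le hrl J hJ N hNJ k hk L hL' hpair
      U0 (by rw [← hSc]; exact card_le_card hU0)
  rw [hβe] at hpart
  obtain ⟨X, Y, hXY⟩ := two_sided s t (fun e => (π e : A → A)) ω hω
    ((c ^ 2 / 8) ^ 2 * Real.exp (-l) / 4096)
    (by positivity) S0 hsS hpart (fun _ a => if a = X0 (Sum.inl (u e0)) then 1 else 0)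
    ⟨fun _ a => by beta_reduce; split_ifs <;> norm_num, fun _ => by simp⟩
  refine ⟨Sum.elim (fun w => X (Sum.inl w)) (fun w => Y (Sum.inr w)), ?_⟩
  have h1 : ∑ e, ω e * (if π e (X (s e)) = Y (t e) then 1 else 0) ≤
      ((univ.filter fun e => π e (Sum.elim (fun w => X (Sum.inl w)) (fun w => Y (Sum.inr w))
        (Sum.inl (u e) : U ⊕ V)) = Sum.elim (fun w => X (Sum.inl w)) (fun w => Y (Sum.inr w))
        (Sum.inr (v e) : U ⊕ V)).card : ℝ) := by
    rw [card_filter]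
    push_cast
    refine sum_le_sum fun e _ => ?_
    simp only [hωd, hs, ht, Sum.elim_inl, Sum.elim_inr]
    split_ifs <;> norm_num
  refine le_trans ?_ (hXY.trans h1)
  have h2 : (c ^ 2 / 8) ^ 2 * Real.exp (-l) / 4096 * (c / 2 * (Fintype.card E : ℝ)) ≤
      (c ^ 2 / 8) ^ 2 * Real.exp (-l) / 4096 * ∑ e, ω e :=
    mul_le_mul_of_nonneg_left hgood (by positivity)
  have h3 : c ^ 5 * Real.exp (-l) / 2 ^ 21 * (Fintype.card E : ℝ) =
      (c ^ 2 / 8) ^ 2 * Real.exp (-l) / 4096 * (c / 2 * (Fintype.card E : ℝ)) / 4 := by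
    ring
  rw [h3]
  linarith

end

end Pool.Agent.Y572.SA
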