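import Pool.Agent.Y572.SA.DCond

set_option autoImplicit false

/-!
Rounding of one soft part to a set of vertices with a distribution of labels at each vertex, in the
Sherali-Adams hierarchy.
-/

namespace Pool.Agent.Y572.SA

open Finset Pool.Agent.H647R3.UG Pool.Agent.H573R3.SL Pool.Agent.TH522.UG Pool.Agent.TH522.US
  Pool.Agent.TH522.DG

section
variable {Z A E B : Type} [Fintype Z] [DecidableEq Z] [Fintype A] [DecidableEq A] [Fintype E]
  [DecidableEq B]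

/-- rounding of one part -/
theorem part_round_d (s t : E → Z) (π : E → A → B) (d : ℕ) (hd : 0 < d)
    (hfib : ∀ e, Fib d (π e)) (ω : E → ℝ) (hω : ∀ e, 0 ≤ ω e) (hD : 0 < ∑ e, ω e) (n : ℕ)
    (hn : 0 < n) (κ q c2 lam : ℝ) (hκ : 0 < κ) (hκ1 : κ < 1) (hq : 0 < q)
    (hc2 : 0 < c2) (hc21 : c2 ≤ 1) (hlam : 0 ≤ lam)
    (hrl : Real.exp (-lam) = (c2 / 4) ^ 2 / d) (J : ℕ) (hJ : Real.log (1 / q) / κ ≤ 2 ^ J) (N : ℕ)
    (hNJ : 1 + 2 * (J + 1) * Real.exp (4 * (2 ^ J * lam)) ≤ N) (k : ℕ)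
    (hk : 1 ≤ k * (c2 / 2 * (((c2 / 4) ^ 2 / d) ^ 2 *
      (Real.exp (-(4 * (2 ^ J * lam))) * (n : ℝ) ^ (-q)))))
    (L : ((Z → A) → ℝ) →ₗ[ℝ] ℝ) (hL : SA (k + (N + 3)) L)
    (hpair : ∀ F : Z → ℝ, (∀ v, 0 ≤ F v) → c2 * bil (K2 s t ω) F F ≤ SatF s t π ω F L)
    (U0 : Finset Z) (hU0 : U0.card ≤ n)
    (hU : (∑ e, ω e) / 2 ≤ bil (K2 s t ω) (fun v => if v ∈ U0 then 1 else 0)
      (fun v => if v ∈ U0 then 1 else 0)) :
    ∃ (p : Z → A → ℝ) (S : Finset Z), IsP p ∧ S.Nonempty ∧ S ⊆ U0 ∧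
      c2 ^ 2 * (n : ℝ) ^ (-(2 * κ)) / 4096 * ∑ u ∈ S, ds s ω u ≤ gf s t π ω p S := by
  classical
  have hd0 : (0 : ℝ) < d := by exact_mod_cast hd
  have hd1 : (1 : ℝ) ≤ d := by exact_mod_cast hd
  have hn0 : (0 : ℝ) < n := by exact_mod_cast hn
  set K := K2 s t ω with hKd
  have hK : IsKer K := isKer_K2 s t ω hω
  set D := ∑ e, ω e with hDd
  set T : Z → ℝ := ds s ω with hTd
  have hT0 : ∀ u, 0 ≤ T u := ds_nonneg s ω hω
  have hTs : ∑ u, T u = D := by
    have := ds_sum s ω fun _ => 1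
    simpa using this
  set ρ : Z → ℝ := fun u => T u / D + 1 / n with hρd
  have hρ : ∀ v, 0 < ρ v := fun v => add_pos_of_nonneg_of_pos (div_nonneg (hT0 v) hD.le)
    (by positivity)
  obtain ⟨F, hF, hF0, hN, hΘ, hbig, hH⟩ := part_exists hK ρ hρ U0 κ hκ hκ1
    (lt_of_lt_of_le (by linarith) hU)
  set Θ := bil K F F with hΘd
  set p : ℝ := 2 / (1 + κ) with hp
  have hp1 : 1 < p := by rw [hp, lt_div_iff₀ (by linarith)]; linarith
  have hpk : p * (1 + κ) = 2 := by rw [hp]; field_simp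
  -- size of the part
  have hΘD : D / 8 ≤ Θ := by
    have h1 : ∑ v ∈ U0, ρ v ≤ 2 := by
      simp only [hρd]
      rw [sum_add_distrib, sum_const, ← sum_div, nsmul_eq_mul]
      have h2 : ∑ v ∈ U0, T v ≤ D := by
        rw [← hTs]
        exact sum_le_sum_of_subset_of_nonneg (subset_univ _) fun v _ _ => hT0 v
      have h3 : (∑ v ∈ U0, T v) / D ≤ 1 := by rw [div_le_one hD]; exact h2
      have h4 : (U0.card : ℝ) * (1 / n) ≤ 1 := by
        rw [mul_one_div, div_le_one hn0]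
        exact_mod_cast hU0
      linarith
    have h0 : 0 ≤ ∑ v ∈ U0, ρ v := sum_nonneg fun v _ => (hρ v).le
    have h2 : (∑ v ∈ U0, ρ v) ^ (1 + κ) ≤ 4 := by
      calc (∑ v ∈ U0, ρ v) ^ (1 + κ) ≤ (2 : ℝ) ^ (1 + κ) :=
            Real.rpow_le_rpow h0 h1 (by linarith)
        _ ≤ (2 : ℝ) ^ (2 : ℝ) := Real.rpow_le_rpow_of_exponent_le (by norm_num) (by linarith)
        _ = 4 := by norm_num
    have h3 : Θ * (∑ v ∈ U0, ρ v) ^ (1 + κ) ≤ Θ * 4 := mul_le_mul_of_nonneg_left h2 hΘ.le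
    linarith
  -- the mass of the squares
  have hsqF : ∀ u, F u ^ 2 ≤ F u ^ p * (n : ℝ) ^ κ := by
    intro u
    have h1 : F u ^ p ≤ n := by
      have h2 : ρ u * F u ^ p ≤ 1 := by
        rw [← hN]
        exact single_le_sum (f := fun v => ρ v * F v ^ p)
          (fun v _ => mul_nonneg (hρ v).le (Real.rpow_nonneg (hF v) _)) (mem_univ u)
      have h3 : 1 / (n : ℝ) * F u ^ p ≤ ρ u * F u ^ p := by
        refine mul_le_mul_of_nonneg_right ?_ (Real.rpow_nonneg (hF u) _)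
        have := div_nonneg (hT0 u) hD.le
        simp only [hρd]
        linarith
      have h4 : 1 / (n : ℝ) * F u ^ p ≤ 1 := h3.trans h2
      rw [one_div_mul_eq_div, div_le_one hn0] at h4
      exact h4
    rcases (hF u).eq_or_lt with h0 | h0
    · rw [← h0, Real.zero_rpow (by linarith)]
      simp
    · have h5 : F u ^ 2 = F u ^ p * (F u ^ p) ^ κ := by
        have h6 : F u ^ p * (F u ^ p) ^ κ = (F u ^ p) ^ (1 + κ) := by
          rw [Real.rpow_add (Real.rpow_pos_of_pos h0 _), Real.rpow_one]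
        rw [h6, ← Real.rpow_mul h0.le, hpk]
        norm_num
      rw [h5]
      exact mul_le_mul_of_nonneg_left (Real.rpow_le_rpow (Real.rpow_nonneg h0.le _) h1 hκ.le)
        (Real.rpow_nonneg h0.le _)
  have hnk : 0 < (n : ℝ) ^ κ := Real.rpow_pos_of_pos hn0 _
  have hM : ∑ u, T u * F u ^ 2 ≤ D * (n : ℝ) ^ κ := by
    calc ∑ u, T u * F u ^ 2 ≤ ∑ u, D * (n : ℝ) ^ κ * (ρ u * F u ^ p) := by
          refine sum_le_sum fun u _ => ?_
          have h1 : T u ≤ D * ρ u := by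
            simp only [hρd]
            rw [mul_add, mul_div_cancel₀ _ hD.ne']
            have : 0 ≤ D * (1 / n) := by positivity
            linarith
          have h2 : 0 ≤ F u ^ p * (n : ℝ) ^ κ :=
            mul_nonneg (Real.rpow_nonneg (hF u) _) hnk.le
          calc T u * F u ^ 2 ≤ T u * (F u ^ p * (n : ℝ) ^ κ) :=
                mul_le_mul_of_nonneg_left (hsqF u) (hT0 u)
            _ ≤ D * ρ u * (F u ^ p * (n : ℝ) ^ κ) := mul_le_mul_of_nonneg_right h1 h2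
            _ = _ := by ring
      _ = D * (n : ℝ) ^ κ := by rw [← mul_sum, hN, mul_one]
  -- conditioning
  set m : Z → ℝ := fun u => ∑ v, kf K F u v with hmd
  have hker := isKer_kf hK F hF
  have hmt : ∑ u, m u = Θ := rfl
  set r : ℝ := (c2 / 4) ^ 2 / d with hrd
  have hr0 : 0 < r := by positivity
  have hr1 : r ≤ 1 := by
    rw [hrd, div_le_one hd0]
    nlinarith
  set g : ℝ := Real.exp (-(4 * (2 ^ J * lam))) * (n : ℝ) ^ (-q) with hgd
  have hg : 0 ≤ g := mul_nonneg (Real.exp_pos _).le (Real.rpow_nonneg hn0.le _)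
  have hcardm : (univ.filter fun v => 0 < m v).card ≤ n := by
    refine le_trans (card_le_card fun v hv => ?_) hU0
    by_contra hcon
    have h1 := (mem_filter.1 hv).2
    have h2 : m v = 0 := by
      refine sum_eq_zero fun w _ => ?_
      unfold kf
      rw [hF0 v hcon]
      ring
    rw [h2] at h1
    exact lt_irrefl _ h1
  have hGC : GCK N (kf K F) m r g := by
    rw [← hrl]
    exact gcz0 (kf K F) hker m (fun u => rfl) κ q n hκ hκ1 hq hcardm hH N J lam hlam hJ hNJ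
  have hNp : 0 < N := by
    have h1 : 0 < 2 * ((J : ℝ) + 1) * Real.exp (4 * (2 ^ J * lam)) := by positivity
    have h2 : (0 : ℝ) < N := by linarith
    exact_mod_cast h2
  have hS := hpair F hF
  obtain ⟨L', hL', hI⟩ := s2d s t π d hd hfib ω hω F hF m rfl c2 g hc2 hg
    (by rw [hmt]; exact hΘ) hNp hGC k hk L hL (by rw [hmt]; exact hS)
  rw [hmt] at hI
  have hfc := (hier_sa Z A N).fct _ _ hL'
  have hP : IsP (pr L') := ⟨hfc.nn, fun v => (hfc.law v v).one⟩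
  set c : E × E → ℝ := fun i => pw t ω i.1 i.2 *
    rl (π i.1) (π i.2) (fun a b => pr L' (s i.1) a * pr L' (s i.2) b) with hcd
  have hc0 : ∀ i, 0 ≤ c i := fun i => mul_nonneg (pw_nonneg t ω hω _ _)
    (rl_p_nonneg hP _ _ _ _)
  have hgood : c2 / 4 * Θ ≤ ∑ i, c i * (F (s i.1) * F (s i.2)) := by
    refine hI.trans (le_of_eq ?_)
    unfold IndF PS
    rw [Fintype.sum_prod_type]
    refine sum_congr rfl fun e _ => sum_congr rfl fun e' _ => ?_
    simp only [hcd]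
    ring
  have hcs : (∑ i, c i * (F (s i.1) * F (s i.2))) ^ 2 ≤
      (∑ i, c i * min (F (s i.1) ^ 2) (F (s i.2) ^ 2)) *
        ∑ i, c i * max (F (s i.1) ^ 2) (F (s i.2) ^ 2) := by
    refine sum_sq_le_sum_mul_sum_of_sq_le_mul _ (fun i _ => mul_nonneg (hc0 i)
      (le_min (sq_nonneg _) (sq_nonneg _))) (fun i _ => mul_nonneg (hc0 i)
      (le_trans (sq_nonneg _) (le_max_left _ _))) fun i _ => le_of_eq ?_
    have := min_mul_max (F (s i.1) ^ 2) (F (s i.2) ^ 2)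
    calc (c i * (F (s i.1) * F (s i.2))) ^ 2 = c i ^ 2 * (F (s i.1) ^ 2 * F (s i.2) ^ 2) := by
          ring
      _ = c i ^ 2 * (min (F (s i.1) ^ 2) (F (s i.2) ^ 2) * max (F (s i.1) ^ 2) (F (s i.2) ^ 2)) := by
          rw [this]
      _ = _ := by ring
  have hmax2 : ∑ i, c i * max (F (s i.1) ^ 2) (F (s i.2) ^ 2) ≤ 2 * (∑ u, T u * F u ^ 2) := by
    have h1 : ∑ i, c i * max (F (s i.1) ^ 2) (F (s i.2) ^ 2) ≤
        PS t ω (fun e e' => F (s e) ^ 2 + F (s e') ^ 2) := by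
      rw [Fintype.sum_prod_type]
      unfold PS
      refine sum_le_sum fun e _ => sum_le_sum fun e' _ => ?_
      have h2 : max (F (s e) ^ 2) (F (s e') ^ 2) ≤ F (s e) ^ 2 + F (s e') ^ 2 :=
        max_le (by linarith [sq_nonneg (F (s e'))]) (by linarith [sq_nonneg (F (s e))])
      have h3 : 0 ≤ max (F (s e) ^ 2) (F (s e') ^ 2) := le_trans (sq_nonneg _) (le_max_left _ _)
      have h4 := pw_nonneg t ω hω e e'
      have h5 := rl_p_le_one hP (π e) (π e') (s e) (s e')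
      have h6 := rl_p_nonneg hP (π e) (π e') (s e) (s e')
      simp only [hcd]
      rw [mul_assoc]
      refine mul_le_mul_of_nonneg_left ?_ h4
      calc _ ≤ 1 * max (F (s e) ^ 2) (F (s e') ^ 2) := mul_le_mul_of_nonneg_right h5 h3
        _ ≤ _ := by rw [one_mul]; exact h2
    refine h1.trans (le_of_eq ?_)
    rw [PS_add, PS_left t ω hω fun e => F (s e) ^ 2,
      PS_comm t ω fun e _ => F (s e) ^ 2, PS_left t ω hω fun e => F (s e) ^ 2,
      ← ds_sum s ω fun u => F u ^ 2]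
    ring
  set X := ∑ i, c i * min (F (s i.1) ^ 2) (F (s i.2) ^ 2) with hXd
  have hX0 : 0 ≤ X := sum_nonneg fun i _ => mul_nonneg (hc0 i)
    (le_min (sq_nonneg _) (sq_nonneg _))
  set M := ∑ u, T u * F u ^ 2 with hMd
  have hM0 : 0 ≤ M := sum_nonneg fun u _ => mul_nonneg (hT0 u) (sq_nonneg _)
  have hmain : c2 ^ 2 * (n : ℝ) ^ (-(2 * κ)) / 4096 * M < X := by
    by_contra hcon
    push Not at hcon
    have h1 : (c2 * D / 32) ^ 2 ≤ X * (2 * M) := by
      have h2 : (c2 * D / 32) ^ 2 ≤ (∑ i, c i * (F (s i.1) * F (s i.2))) ^ 2 := by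
        refine pow_le_pow_left₀ (by positivity) (le_trans ?_ hgood) 2
        have := mul_le_mul_of_nonneg_left hΘD (by positivity : 0 ≤ c2 / 4)
        linarith
      exact h2.trans (hcs.trans (mul_le_mul_of_nonneg_left hmax2 hX0))
    have h3 : X * (2 * M) ≤ c2 ^ 2 * (n : ℝ) ^ (-(2 * κ)) / 4096 * M * (2 * M) :=
      mul_le_mul_of_nonneg_right hcon (by linarith)
    have h4 : M * M ≤ (D * (n : ℝ) ^ κ) * (D * (n : ℝ) ^ κ) :=
      mul_le_mul hM hM hM0 (by positivity)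
    have h5 : (n : ℝ) ^ (-(2 * κ)) * ((n : ℝ) ^ κ * (n : ℝ) ^ κ) = 1 := by
      rw [← Real.rpow_add hn0, ← Real.rpow_add hn0]
      rw [show -(2 * κ) + (κ + κ) = 0 by ring, Real.rpow_zero]
    have h6 : 0 < (n : ℝ) ^ (-(2 * κ)) := Real.rpow_pos_of_pos hn0 _
    have h7 : c2 ^ 2 * (n : ℝ) ^ (-(2 * κ)) / 4096 * M * (2 * M) ≤ (c2 * D) ^ 2 / 2048 := by
      calc c2 ^ 2 * (n : ℝ) ^ (-(2 * κ)) / 4096 * M * (2 * M) =
            c2 ^ 2 * (n : ℝ) ^ (-(2 * κ)) / 2048 * (M * M) := by ring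
        _ ≤ c2 ^ 2 * (n : ℝ) ^ (-(2 * κ)) / 2048 * ((D * (n : ℝ) ^ κ) * (D * (n : ℝ) ^ κ)) :=
            mul_le_mul_of_nonneg_left h4 (by positivity)
        _ = (n : ℝ) ^ (-(2 * κ)) * ((n : ℝ) ^ κ * (n : ℝ) ^ κ) * ((c2 * D) ^ 2 / 2048) := by ring
        _ = _ := by rw [h5, one_mul]
    have h8 : 0 < (c2 * D) ^ 2 := by positivity
    have h9 : (c2 * D / 32) ^ 2 = (c2 * D) ^ 2 / 1024 := by ring
    rw [h9] at h1
    linarith
  obtain ⟨S, hS, hSP, hSb⟩ := layer c (fun i => s i.1) (fun i => s i.2) T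
    (c2 ^ 2 * (n : ℝ) ^ (-(2 * κ)) / 4096) _ (fun v => F v ^ 2) (fun v => sq_nonneg _) le_rfl hmain
  refine ⟨pr L', S, hP, hS, fun v hv => ?_, hSb.trans (le_of_eq ?_)⟩
  · by_contra hcon
    have h1 := hSP v hv
    simp only [hF0 v hcon] at h1
    norm_num at h1
  · rw [Fintype.sum_prod_type]
    unfold gf PS
    refine sum_congr rfl fun e _ => sum_congr rfl fun e' _ => ?_
    simp only [hcd]
    ring


end

end Pool.Agent.Y572.SA
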