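import Mathlib

set_option autoImplicit false

/-!
Kernels all of whose small submatrices are positive semidefinite: the inequality for a centre and
`N` independent leaves.
-/

namespace Pool.Agent.Y572.SA

open Finset

/-- every submatrix on `N + 1` (not necessarily distinct) points is positive semidefinite -/
def Loc {V : Type} (N : ℕ) (G : V → V → ℝ) : Prop :=
  ∀ (φ : Option (Fin N) → V) (s : Option (Fin N) → ℝ),
    0 ≤ ∑ i, ∑ j, s i * s j * G (φ i) (φ j)

section
variable {V : Type} [Fintype V]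

/-- the expectation of a function of `N` independent samples -/
def smp (N : ℕ) (b : V → ℝ) (F : (Fin N → V) → ℝ) : ℝ := ∑ φ : Fin N → V, (∏ i, b (φ i)) * F φ

theorem smp_nonneg (N : ℕ) (b : V → ℝ) (hb : ∀ u, 0 ≤ b u) (F : (Fin N → V) → ℝ)
    (hF : ∀ φ, 0 ≤ F φ) : 0 ≤ smp N b F :=
  sum_nonneg fun φ _ => mul_nonneg (prod_nonneg fun _ _ => hb _) (hF φ)

theorem smp_add (N : ℕ) (b : V → ℝ) (F F' : (Fin N → V) → ℝ) :
    smp N b (fun φ => F φ + F' φ) = smp N b F + smp N b F' := by
  unfold smp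
  rw [← sum_add_distrib]
  exact sum_congr rfl fun φ _ => by ring

theorem smp_mul (N : ℕ) (b : V → ℝ) (c : ℝ) (F : (Fin N → V) → ℝ) :
    smp N b (fun φ => c * F φ) = c * smp N b F := by
  unfold smp
  rw [mul_sum]
  exact sum_congr rfl fun φ _ => by ring

theorem smp_sum (N : ℕ) (b : V → ℝ) {ι : Type} (S : Finset ι) (F : ι → (Fin N → V) → ℝ) :
    smp N b (fun φ => ∑ i ∈ S, F i φ) = ∑ i ∈ S, smp N b (F i) := by
  unfold smp
  rw [sum_comm]
  refine sum_congr rfl fun φ _ => ?_
  rw [mul_sum]

theorem smp_const (N : ℕ) (b : V → ℝ) (hB : ∑ u, b u = 1) (c : ℝ) :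
    smp N b (fun _ => c) = c := by
  unfold smp
  rw [← sum_mul]
  have h := Fintype.sum_pow b N
  rw [hB, one_pow] at h
  rw [← h, one_mul]

theorem smp_two (N : ℕ) (b : V → ℝ) (hB : ∑ u, b u = 1) (i j : Fin N) (hij : i ≠ j)
    (g h : V → ℝ) :
    smp N b (fun φ => g (φ i) * h (φ j)) = (∑ u, b u * g u) * ∑ u, b u * h u := by
  classical
  have h1 := Finset.prod_univ_sum (fun _ : Fin N => (univ : Finset V))
    (fun k u => b u * ((if k = i then g u else 1) * (if k = j then h u else 1)))
  rw [Fintype.piFinset_univ] at h1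
  have h2 : smp N b (fun φ => g (φ i) * h (φ j)) = ∑ x : Fin N → V, ∏ k,
      b (x k) * ((if k = i then g (x k) else 1) * (if k = j then h (x k) else 1)) := by
    unfold smp
    refine sum_congr rfl fun x _ => ?_
    rw [prod_mul_distrib, prod_mul_distrib, prod_ite_eq', prod_ite_eq', if_pos (mem_univ _),
      if_pos (mem_univ _)]
  rw [h2, ← h1]
  have h3 : ∀ k : Fin N, ∑ u, b u * ((if k = i then g u else 1) * (if k = j then h u else 1)) =
      (if k = i then ∑ u, b u * g u else 1) * (if k = j then ∑ u, b u * h u else 1) := by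
    intro k
    by_cases hi : k = i
    · subst hi
      simp only [if_true, if_neg hij, mul_one]
    · by_cases hj : k = j
      · subst hj
        simp only [if_true, if_neg hi, one_mul]
      · simp only [if_neg hi, if_neg hj, mul_one]
        exact hB
  rw [prod_congr rfl fun k _ => h3 k, prod_mul_distrib, prod_ite_eq', prod_ite_eq',
    if_pos (mem_univ _), if_pos (mem_univ _)]

theorem smp_one (N : ℕ) (b : V → ℝ) (hB : ∑ u, b u = 1) (i : Fin N) (g : V → ℝ) :
    smp N b (fun φ => g (φ i)) = ∑ u, b u * g u := by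
  classical
  have h1 := Finset.prod_univ_sum (fun _ : Fin N => (univ : Finset V))
    (fun k u => b u * (if k = i then g u else 1))
  rw [Fintype.piFinset_univ] at h1
  have h2 : smp N b (fun φ => g (φ i)) = ∑ x : Fin N → V, ∏ k,
      b (x k) * (if k = i then g (x k) else 1) := by
    unfold smp
    refine sum_congr rfl fun x _ => ?_
    rw [prod_mul_distrib, prod_ite_eq', if_pos (mem_univ _)]
  rw [h2, ← h1]
  have h3 : ∀ k : Fin N, ∑ u, b u * (if k = i then g u else 1) =
      (if k = i then ∑ u, b u * g u else 1) := by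
    intro k
    by_cases hi : k = i
    · simp only [if_pos hi]
    · simp only [if_neg hi, mul_one]
      exact hB
  rw [prod_congr rfl fun k _ => h3 k, prod_ite_eq', if_pos (mem_univ _)]

theorem smp_pair (N : ℕ) (b : V → ℝ) (hB : ∑ u, b u = 1) (i j : Fin N) (hij : i ≠ j)
    (X : V → V → ℝ) :
    smp N b (fun φ => X (φ i) (φ j)) = ∑ u, ∑ v, b u * b v * X u v := by
  classical
  have h1 : (fun φ : Fin N → V => X (φ i) (φ j)) =
      fun φ => ∑ p, (if φ i = p then 1 else 0) * X p (φ j) := by
    funext φ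
    simp
  rw [h1, smp_sum]
  refine sum_congr rfl fun p _ => ?_
  rw [smp_two N b hB i j hij (fun u => if u = p then 1 else 0) (fun v => X p v)]
  simp only [mul_ite, mul_one, mul_zero]
  rw [sum_ite_eq', if_pos (mem_univ _), mul_sum]
  exact sum_congr rfl fun v _ => by ring

/-- the inequality for a centre and `N` independent leaves -/
theorem star {N : ℕ} (hN : 0 < N) {G : V → V → ℝ} (hG : Loc N G) (hs : ∀ u v, G u v = G v u)
    (b : V → ℝ) (hb : ∀ u, 0 ≤ b u) (hB : ∑ u, b u = 1) (w : V) (ρ : ℝ) :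
    0 ≤ 1 / N * ∑ u, b u * G u u + (1 - 1 / N) * ∑ u, ∑ v, b u * b v * G u v
      - 2 * ρ * ∑ u, b u * G w u + ρ ^ 2 * G w w := by
  classical
  have hN0 : (0 : ℝ) < N := by exact_mod_cast hN
  have h1 : ∀ φ : Fin N → V, 0 ≤ ρ ^ 2 * G w w + (-(2 * ρ) * (1 / N)) * ∑ i, G w (φ i) +
      (1 / N) ^ 2 * ∑ i, ∑ j, G (φ i) (φ j) := by
    intro φ
    have h2 := hG (fun i => i.elim w φ) (fun i => i.elim (-ρ) fun _ => 1 / N)
    refine h2.trans (le_of_eq ?_)
    simp only [Fintype.sum_option, Option.elim_none, Option.elim_some]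
    rw [sum_add_distrib]
    simp only [← mul_sum]
    have e1 : ∑ i, G (φ i) w = ∑ i, G w (φ i) := sum_congr rfl fun i _ => hs _ _
    rw [e1]
    ring
  have h2 := smp_nonneg N b hb _ h1
  rw [smp_add, smp_add, smp_const N b hB, smp_mul, smp_mul, smp_sum, smp_sum] at h2
  have h3 : ∑ i : Fin N, smp N b (fun φ => G w (φ i)) = N * ∑ u, b u * G w u := by
    rw [sum_congr rfl fun i _ => smp_one N b hB i (fun u => G w u), sum_const, card_univ,
      Fintype.card_fin, nsmul_eq_mul]
  have h4 : ∑ i : Fin N, smp N b (fun φ => ∑ j, G (φ i) (φ j)) =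
      N * (∑ u, b u * G u u) + N * (N - 1) * ∑ u, ∑ v, b u * b v * G u v := by
    have h5 : ∀ i : Fin N, smp N b (fun φ => ∑ j, G (φ i) (φ j)) =
        (∑ u, b u * G u u) + (N - 1) * ∑ u, ∑ v, b u * b v * G u v := by
      intro i
      rw [smp_sum, ← add_sum_erase univ _ (mem_univ i), smp_one N b hB i (fun u => G u u)]
      congr 1
      rw [sum_congr rfl fun j hj => smp_pair N b hB i j (ne_of_mem_erase hj).symm G, sum_const,
        card_erase_of_mem (mem_univ _), card_univ, Fintype.card_fin, nsmul_eq_mul,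
        Nat.cast_sub hN, Nat.cast_one]
    rw [sum_congr rfl fun i _ => h5 i, sum_const, card_univ, Fintype.card_fin, nsmul_eq_mul]
    ring
  rw [h3, h4] at h2
  refine h2.trans (le_of_eq ?_)
  field_simp
  ring

end

end Pool.Agent.Y572.SA
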