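import Pool.Agent.TH522.US.Kernel
import Pool.Agent.Y572.SA.Star

set_option autoImplicit false

/-!
Correlation along a chain of a kernel whose small submatrices are positive semidefinite: doubling
of the time.
-/

namespace Pool.Agent.Y572.SA

open Finset Pool.Agent.H647R3.UG Pool.Agent.H573R3.SL Pool.Agent.TH522.US

section
variable {W : Type} [Fintype W] [DecidableEq W] {m : W → ℝ} {T : (W → ℝ) → (W → ℝ)}

/-- the transition kernel at time `t` -/
noncomputable def hk (m : W → ℝ) (T : (W → ℝ) → (W → ℝ)) (t : ℕ) (u v : W) : ℝ :=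
  (T^[t] (dl m v)) u

/-- the average of `G` over the pairs at time `t` -/
noncomputable def cor (m : W → ℝ) (T : (W → ℝ) → (W → ℝ)) (G : W → W → ℝ) (t : ℕ) : ℝ :=
  ∑ u, ∑ v, m u * m v * hk m T t u v * G u v

theorem ip_dl (h : IsOper m T) (f : W → ℝ) (v : W) : ip m f (dl m v) = f v := by
  unfold ip dl
  rw [sum_eq_single v]
  · rw [if_pos rfl]
    have := (h.pos v).ne'
    field_simp
  · intro u _ hu
    rw [if_neg hu, mul_zero]
  · intro h; exact absurd (mem_univ v) h

theorem hk_nonneg (h : IsOper m T) (t : ℕ) (u v : W) : 0 ≤ hk m T t u v := by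
  unfold hk
  induction t generalizing u with
  | zero =>
    change 0 ≤ dl m v u
    unfold dl
    split_ifs
    · exact (div_pos one_pos (h.pos v)).le
    · exact le_rfl
  | succ t ih =>
    rw [Function.iterate_succ_apply']
    exact h.nn _ ih u

theorem hk_sum (h : IsOper m T) (t : ℕ) (v : W) : ∑ u, m u * hk m T t u v = 1 := by
  unfold hk
  induction t with
  | zero =>
    change ∑ u, m u * dl m v u = 1
    unfold dl
    rw [sum_eq_single v]
    · rw [if_pos rfl, mul_one_div, div_self (h.pos v).ne']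
    · intro u _ hu; rw [if_neg hu, mul_zero]
    · intro h; exact absurd (mem_univ v) h
  | succ t ih =>
    rw [Function.iterate_succ_apply', h.tot]
    exact ih

theorem hk_ip (h : IsOper m T) (t : ℕ) (u v : W) :
    hk m T t u v = ip m (T^[t] (dl m v)) (dl m u) := (ip_dl h _ u).symm

theorem hk_symm (h : IsOper m T) (t : ℕ) (u v : W) : hk m T t u v = hk m T t v u := by
  rw [hk_ip h, move h, OPX.ip_comm, ← hk_ip h]

theorem hk_add (h : IsOper m T) (t : ℕ) (u v : W) :
    ∑ w, m w * hk m T t w u * hk m T t w v = hk m T (t + t) u v := by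
  rw [hk_ip h, Function.iterate_add_apply, move h, OPX.ip_comm]
  rfl

theorem cor_zero (h : IsOper m T) (G : W → W → ℝ) : cor m T G 0 = ∑ u, m u * G u u := by
  unfold cor
  refine sum_congr rfl fun u _ => ?_
  have h1 : ∀ v, hk m T 0 u v = dl m v u := fun v => rfl
  rw [sum_eq_single u]
  · rw [h1]
    unfold dl
    rw [if_pos rfl]
    have := (h.pos u).ne'
    field_simp
  · intro v _ hv
    rw [h1]
    unfold dl
    rw [if_neg hv.symm]
    ring
  · intro h; exact absurd (mem_univ u) h

/-- doubling of the time -/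
theorem dbl (h : IsOper m T) {N : ℕ} (hN : 0 < N) {G : W → W → ℝ} (hG : Loc N G)
    (hs : ∀ u v, G u v = G v u) (t : ℕ) (ρ : ℝ) :
    0 ≤ 1 / N * cor m T G 0 + (1 - 1 / N) * cor m T G (t + t) - 2 * ρ * cor m T G t
      + ρ ^ 2 * cor m T G 0 := by
  have h1 : ∀ w, 0 ≤ m w * (1 / N * ∑ u, m u * hk m T t u w * G u u + (1 - 1 / N) *
      ∑ u, ∑ v, m u * hk m T t u w * (m v * hk m T t v w) * G u v
      - 2 * ρ * ∑ u, m u * hk m T t u w * G w u + ρ ^ 2 * G w w) := fun w =>
    mul_nonneg (h.pos w).le (star hN hG hs (fun u => m u * hk m T t u w)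
      (fun u => mul_nonneg (h.pos u).le (hk_nonneg h t u w)) (hk_sum h t w) w ρ)
  have h2 := sum_nonneg fun w (_ : w ∈ (univ : Finset W)) => h1 w
  refine h2.trans (le_of_eq ?_)
  have e1 : ∑ w, m w * ∑ u, m u * hk m T t u w * G u u = cor m T G 0 := by
    rw [cor_zero h]
    simp only [mul_sum]
    rw [sum_comm]
    refine sum_congr rfl fun u _ => ?_
    have h3 : ∑ w, m w * (m u * hk m T t u w * G u u) = (∑ w, m w * hk m T t w u) *
        (m u * G u u) := by
      rw [sum_mul]
      refine sum_congr rfl fun w _ => ?_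
      rw [hk_symm h t u w]
      ring
    rw [h3, hk_sum h, one_mul]
  have e2 : ∑ w, m w * ∑ u, ∑ v, m u * hk m T t u w * (m v * hk m T t v w) * G u v =
      cor m T G (t + t) := by
    unfold cor
    simp only [mul_sum]
    rw [sum_comm]
    refine sum_congr rfl fun u _ => ?_
    rw [sum_comm]
    refine sum_congr rfl fun v _ => ?_
    rw [← hk_add h, mul_sum, sum_mul]
    refine sum_congr rfl fun w _ => ?_
    rw [hk_symm h t u w, hk_symm h t v w]
    ring
  have e3 : ∑ w, m w * ∑ u, m u * hk m T t u w * G w u = cor m T G t := by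
    unfold cor
    refine sum_congr rfl fun w _ => ?_
    rw [mul_sum]
    refine sum_congr rfl fun u _ => ?_
    rw [hk_symm h t u w]
    ring
  have e4 : ∑ w, m w * G w w = cor m T G 0 := (cor_zero h G).symm
  have e5 : ∀ w, m w * (1 / N * ∑ u, m u * hk m T t u w * G u u + (1 - 1 / N) *
      ∑ u, ∑ v, m u * hk m T t u w * (m v * hk m T t v w) * G u v
      - 2 * ρ * ∑ u, m u * hk m T t u w * G w u + ρ ^ 2 * G w w) =
      1 / N * (m w * ∑ u, m u * hk m T t u w * G u u) + (1 - 1 / N) *
      (m w * ∑ u, ∑ v, m u * hk m T t u w * (m v * hk m T t v w) * G u v)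
      - 2 * ρ * (m w * ∑ u, m u * hk m T t u w * G w u) + ρ ^ 2 * (m w * G w w) := fun w => by
    ring
  rw [sum_congr rfl fun w _ => e5 w, sum_add_distrib, sum_sub_distrib, sum_add_distrib,
    ← mul_sum, ← mul_sum, ← mul_sum, ← mul_sum, e1, e2, e3, e4]

end

/-- one doubling step, numerically -/
theorem step_num (M η Z b b' : ℝ) (hη : 0 < η) (hZ : 0 ≤ Z)
    (hM : Real.exp Z * (1 + η * Z) / η ≤ M) (hb : Real.exp (-Z) ≤ b ^ 2)
    (h : (M + 1) * b ^ 2 ≤ 1 + M * b') : Real.exp (-(Z * (1 + η))) ≤ b' := by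
  have hM0 : 0 < M := lt_of_lt_of_le (by positivity) hM
  have h1 : Real.exp (-(Z * (1 + η))) = Real.exp (-Z) * Real.exp (-(η * Z)) := by
    rw [← Real.exp_add]; congr 1; ring
  have h2 : 0 < Real.exp Z := Real.exp_pos Z
  have h3 : Real.exp Z * Real.exp (-Z) = 1 := by rw [← Real.exp_add]; simp
  have h5 : 0 < 1 + η * Z := by positivity
  have h4 : Real.exp (-(η * Z)) ≤ 1 / (1 + η * Z) := by
    rw [Real.exp_neg, one_div]
    exact inv_anti₀ h5 (by linarith [Real.add_one_le_exp (η * Z)])
  have h6 : 1 - Real.exp (-Z) ≤ Z := by linarith [Real.add_one_le_exp (-Z)]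
  have h7 : Z ≤ M * (Real.exp (-Z) * (1 - Real.exp (-(η * Z)))) := by
    have h8 : η * Z / (1 + η * Z) ≤ 1 - Real.exp (-(η * Z)) := by
      have : η * Z / (1 + η * Z) = 1 - 1 / (1 + η * Z) := by field_simp; ring
      linarith
    calc Z = Real.exp Z * (1 + η * Z) / η * (Real.exp (-Z) * (η * Z / (1 + η * Z))) := by
          have : Real.exp Z * (1 + η * Z) / η * (Real.exp (-Z) * (η * Z / (1 + η * Z))) =
            (Real.exp Z * Real.exp (-Z)) * Z := by field_simp
          rw [this, h3, one_mul]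
      _ ≤ M * (Real.exp (-Z) * (1 - Real.exp (-(η * Z)))) := by
          refine mul_le_mul hM (mul_le_mul_of_nonneg_left h8 (Real.exp_pos _).le) ?_ hM0.le
          positivity
  have h9 : M * Real.exp (-(Z * (1 + η))) ≤ M * b' := by
    rw [h1]
    nlinarith
  exact le_of_mul_le_mul_left h9 hM0

section
variable {W : Type} [Fintype W] [DecidableEq W] {m : W → ℝ} {T : (W → ℝ) → (W → ℝ)}

/-- lower bound of the correlation after `J` doublings -/
theorem dbl_iter (h : IsOper m T) {N : ℕ} {G : W → W → ℝ} (hG : Loc N G)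
    (hs : ∀ u v, G u v = G v u) (t J : ℕ) (lam : ℝ) (hlam : 0 ≤ lam) (h0 : 0 < cor m T G 0)
    (ht : Real.exp (-lam) * cor m T G 0 ≤ cor m T G t)
    (hN : 1 + 2 * (J + 1) * Real.exp (4 * (2 ^ J * lam)) ≤ N) :
    Real.exp (-(2 * (2 ^ J * lam))) * cor m T G 0 ≤ cor m T G (2 ^ J * t) := by
  have hN1 : (1 : ℝ) < N := by
    have : 0 < 2 * ((J : ℝ) + 1) * Real.exp (4 * (2 ^ J * lam)) := by positivity
    linarith
  have hN0 : 0 < N := by
    have : (0 : ℝ) < N := by linarith
    exact_mod_cast this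
  obtain ⟨η, hη⟩ : ∃ η : ℝ, η = 1 / (2 * (J + 1)) := ⟨_, rfl⟩
  have hη0 : 0 < η := by rw [hη]; positivity
  have hη1 : η ≤ 1 / 2 := by
    rw [hη]
    apply one_div_le_one_div_of_le (by norm_num)
    have : (0 : ℝ) ≤ J := Nat.cast_nonneg J
    linarith
  have hpow : ∀ j : ℕ, j ≤ J → (1 + η) ^ j ≤ 2 := by
    intro j hj
    have h1 : (1 + η) ^ j ≤ Real.exp (j * η) := by
      rw [Real.exp_nat_mul]
      exact pow_le_pow_left₀ (by positivity) (by linarith [Real.add_one_le_exp η]) j
    have h2 : (j : ℝ) * η ≤ 1 / 2 := by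
      rw [hη, mul_one_div, div_le_iff₀ (by positivity)]
      have : (j : ℝ) ≤ J := by exact_mod_cast hj
      linarith
    have h3 : Real.exp (j * η) ≤ Real.exp (Real.log 2) :=
      Real.exp_le_exp.2 (by linarith [Real.log_two_gt_d9])
    rw [Real.exp_log (by norm_num)] at h3
    exact h1.trans h3
  have key : ∀ j : ℕ, j ≤ J → Real.exp (-(lam * 2 ^ j * (1 + η) ^ j)) * cor m T G 0 ≤
      cor m T G (2 ^ j * t) := by
    intro j
    induction j with
    | zero =>
      intro _
      simpa using ht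
    | succ j ih =>
      intro hj
      have hj' : j ≤ J := by omega
      have ih' := ih hj'
      set y := lam * 2 ^ j * (1 + η) ^ j with hy
      have hy0 : 0 ≤ y := by positivity
      set b := cor m T G (2 ^ j * t) / cor m T G 0 with hb
      set b' := cor m T G (2 ^ (j + 1) * t) / cor m T G 0 with hb'
      have hbe : cor m T G (2 ^ j * t) = b * cor m T G 0 := by
        rw [hb, div_mul_cancel₀ _ h0.ne']
      have hbe' : cor m T G (2 ^ (j + 1) * t) = b' * cor m T G 0 := by
        rw [hb', div_mul_cancel₀ _ h0.ne']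
      have hyb : Real.exp (-y) ≤ b := by
        rw [hb, le_div_iff₀ h0]
        exact ih'
      have h1 := dbl h hN0 hG hs (2 ^ j * t) b
      rw [← two_mul, ← mul_assoc, ← pow_succ', hbe, hbe'] at h1
      have h2 : 0 ≤ 1 / (N : ℝ) + (1 - 1 / N) * b' - b ^ 2 := by
        have h3 : 1 / (N : ℝ) * cor m T G 0 + (1 - 1 / N) * (b' * cor m T G 0) -
            2 * b * (b * cor m T G 0) + b ^ 2 * cor m T G 0 =
            (1 / (N : ℝ) + (1 - 1 / N) * b' - b ^ 2) * cor m T G 0 := by ring
        rw [h3] at h1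
        exact nonneg_of_mul_nonneg_left h1 h0
      have h3 : ((N : ℝ) - 1 + 1) * b ^ 2 ≤ 1 + (N - 1) * b' := by
        have hNp : (0 : ℝ) < N := by linarith
        have h4 : (N : ℝ) * (1 / (N : ℝ) + (1 - 1 / N) * b' - b ^ 2) =
            1 + (N - 1) * b' - N * b ^ 2 := by field_simp
        have h5 := mul_nonneg hNp.le h2
        rw [h4] at h5
        linarith
      have hZ : 2 * y ≤ 2 * (2 ^ J * lam) := by
        -- 2 * lam * 2^j * (1+η)^j ≤ 2 * lam * 2^J
        have h4 : (2 : ℝ) ^ j * 2 ≤ 2 ^ J := by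
          rw [← pow_succ]
          exact pow_le_pow_right₀ (by norm_num) hj
        have h5 := hpow j hj'
        have h6 : (2 : ℝ) ^ j * (1 + η) ^ j ≤ 2 ^ J := by
          calc (2 : ℝ) ^ j * (1 + η) ^ j ≤ 2 ^ j * 2 :=
                mul_le_mul_of_nonneg_left h5 (by positivity)
            _ ≤ 2 ^ J := h4
        have h7 := mul_le_mul_of_nonneg_left h6 hlam
        rw [hy]
        nlinarith
      have hM : Real.exp (2 * y) * (1 + η * (2 * y)) / η ≤ (N : ℝ) - 1 := by
        have h4 : 1 + η * (2 * y) ≤ Real.exp (2 * y) := by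
          have h5 := Real.add_one_le_exp (2 * y)
          have h6 : η * (2 * y) ≤ 1 * (2 * y) :=
            mul_le_mul_of_nonneg_right (by linarith) (by positivity)
          linarith
        have h5 : Real.exp (2 * y) * (1 + η * (2 * y)) / η ≤
            Real.exp (2 * y) * Real.exp (2 * y) / η :=
          div_le_div_of_nonneg_right (mul_le_mul_of_nonneg_left h4 (Real.exp_pos _).le) hη0.le
        have h6 : Real.exp (2 * y) * Real.exp (2 * y) / η =
            2 * (J + 1) * Real.exp (2 * y + 2 * y) := by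
          rw [Real.exp_add, hη]
          field_simp
        have h7 : Real.exp (2 * y + 2 * y) ≤ Real.exp (4 * (2 ^ J * lam)) :=
          Real.exp_le_exp.2 (by linarith)
        have h8 := mul_le_mul_of_nonneg_left h7 (by positivity : 0 ≤ 2 * ((J : ℝ) + 1))
        linarith
      have hb2 : Real.exp (-(2 * y)) ≤ b ^ 2 := by
        have h4 : Real.exp (-(2 * y)) = Real.exp (-y) ^ 2 := by
          rw [← Real.exp_nat_mul]
          congr 1
          push_cast
          ring
        rw [h4]
        exact pow_le_pow_left₀ (Real.exp_pos _).le hyb 2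
      have h4 := step_num (N - 1) η (2 * y) b b' hη0 (by positivity) hM hb2 h3
      rw [hbe']
      refine mul_le_mul_of_nonneg_right ?_ h0.le
      refine le_trans (le_of_eq ?_) h4
      congr 2
      rw [hy]
      ring
  have h1 := key J le_rfl
  refine le_trans ?_ h1
  refine mul_le_mul_of_nonneg_right ?_ h0.le
  apply Real.exp_le_exp.2
  have h2 := hpow J le_rfl
  have h3 : lam * 2 ^ J * (1 + η) ^ J ≤ lam * 2 ^ J * 2 :=
    mul_le_mul_of_nonneg_left h2 (by positivity)
  linarith

end

end Pool.Agent.Y572.SA
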