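import Pool.Agent.TH522.DG.Rel
import Pool.Agent.Y572.UG.Tri
import Pool.Agent.Y572.SA.Chain

set_option autoImplicit false

/-!
The Sherali-Adams hierarchy: local distributions, local positive semidefiniteness of the kernel and
conditioning.
-/

namespace Pool.Agent.Y572.SA

open Finset Pool.Agent.H647R3.UG Pool.Agent.H573R3.SL Pool.Agent.TH522.UG Pool.Agent.TH522.US

/-- Sherali-Adams of level `k`: `L` is normalised and nonnegative on the nonnegative functions of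
at most `k` labels -/
structure SA {V A : Type} (k : ℕ) (L : ((V → A) → ℝ) →ₗ[ℝ] ℝ) : Prop where
  one : L (fun _ => 1) = 1
  junta : ∀ S : Finset V, S.card ≤ k → ∀ f : (V → A) → ℝ, Dep S f → (∀ x, 0 ≤ f x) → 0 ≤ L f

theorem SA.mono {V A : Type} {k j : ℕ} {L : ((V → A) → ℝ) →ₗ[ℝ] ℝ} (hL : SA k L) (h : j ≤ k) :
    SA j L := ⟨hL.one, fun S hS => hL.junta S (hS.trans h)⟩

/-- the functional of the labels of some vertices -/
def pull {V A ι : Type} (φ : ι → V) (L : ((V → A) → ℝ) →ₗ[ℝ] ℝ) : ((ι → A) → ℝ) →ₗ[ℝ] ℝ where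
  toFun f := L fun x => f fun i => x (φ i)
  map_add' f g := by
    rw [← map_add]
    rfl
  map_smul' c f := by
    rw [← map_smul]
    rfl

theorem pull_nonneg {V A ι : Type} [Fintype ι] [DecidableEq V] {k : ℕ}
    {L : ((V → A) → ℝ) →ₗ[ℝ] ℝ} (hL : SA k L) (φ : ι → V) (hk : Fintype.card ι ≤ k)
    (f : (ι → A) → ℝ) (hf : ∀ x, 0 ≤ f x) : 0 ≤ pull φ L f := by
  refine hL.junta (univ.image φ) (card_image_le.trans (by rwa [card_univ])) _ ?_ fun x => hf _
  intro x y h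
  have h1 : (fun i => x (φ i)) = fun i => y (φ i) := by
    funext i
    exact h (φ i) (mem_image_of_mem _ (mem_univ i))
  show f (fun i => x (φ i)) = f (fun i => y (φ i))
  rw [h1]

theorem pull_mixed {V A ι : Type} [Fintype ι] [DecidableEq V] {k : ℕ}
    {L : ((V → A) → ℝ) →ₗ[ℝ] ℝ} (hL : SA k L) (φ : ι → V) (hk : Fintype.card ι ≤ k) (j : ℕ) :
    Mixed j (pull φ L) :=
  ⟨hL.one, fun _ _ f _ hf0 => pull_nonneg hL φ hk f hf0, fun _ _ g _ hg0 _ =>
    pull_nonneg hL φ hk _ fun x => mul_nonneg (hg0 x) (sq_nonneg _)⟩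

/-- the facts on a functional which the rounding uses -/
structure FctN {V A : Type} [Fintype V] [DecidableEq V] [Fintype A] [DecidableEq A] (N : ℕ)
    (L : ((V → A) → ℝ) →ₗ[ℝ] ℝ) : Prop where
  law : ∀ u v, IsLaw (pr2 L u v) (pr L u) (pr L v)
  nn : ∀ u a, 0 ≤ pr L u a
  symm : ∀ u v a b, pr2 L u v a b = pr2 L v u b a
  diag : ∀ u, pr2 L u u = dg (pr L u)
  sat : ∀ u v (π : Equiv.Perm A), L (sat u v π) = ∑ a, pr2 L u v a (π a)
  sat1 : ∀ u v (π : Equiv.Perm A), L (Pool.Agent.H647R3.UG.sat u v π) ≤ 1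
  loc : Loc N (kr L)
  fd : ∀ u v, dec L u v = vr L v - ∑ a, pr L u a * vr (cnd L u a) v

section
variable {V A : Type} [Fintype V] [DecidableEq V] [Fintype A] [DecidableEq A]

omit [Fintype V] in
theorem law_sa {k : ℕ} {L : ((V → A) → ℝ) →ₗ[ℝ] ℝ} (hL : SA k L) (hk : 2 ≤ k) (u v : V) :
    IsLaw (pr2 L u v) (pr L u) (pr L v) :=
  Mx.law (pull_mixed hL ![u, v] (by simpa using hk) 0) 0 1

omit [Fintype V] in
theorem fd_sa {k : ℕ} {L : ((V → A) → ℝ) →ₗ[ℝ] ℝ} (hL : SA k L) (hk : 2 ≤ k) (u v : V) :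
    dec L u v = vr L v - ∑ a, pr L u a * vr (cnd L u a) v :=
  Mx.fd (pull_mixed hL ![u, v] (by simpa using hk) 0) 0 1

omit [Fintype V] in
theorem sat_le_sa {k : ℕ} {L : ((V → A) → ℝ) →ₗ[ℝ] ℝ} (hL : SA k L) (hk : 2 ≤ k) (u v : V)
    (π : Equiv.Perm A) : L (sat u v π) ≤ 1 :=
  Mx.sat_le (pull_mixed hL ![u, v] (by simpa using hk) 0) 0 1 π

omit [Fintype V] in
theorem avg_sa {k : ℕ} {L : ((V → A) → ℝ) →ₗ[ℝ] ℝ} (hL : SA k L) (hk : 3 ≤ k) (u v w : V)
    (π : Equiv.Perm A) : ∑ a, pr L u a * cnd L u a (sat v w π) = L (sat v w π) :=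
  Mx.avg (k := 0) (pull_mixed hL ![u, v, w] (by simpa using hk) 1) 0 1 2 π

omit [Fintype V] in
theorem avg2_sa {k : ℕ} {L : ((V → A) → ℝ) →ₗ[ℝ] ℝ} (hL : SA k L) (hk : 3 ≤ k) (u v w : V)
    (b b' : A) : ∑ a, pr L u a * pr2 (cnd L u a) v w b b' = pr2 L v w b b' :=
  Pool.Agent.TH522.DG.avg2 (k := 0) (pull_mixed hL ![u, v, w] (by simpa using hk) 1) 0 1 2 b b'

omit [Fintype V] in
theorem tri_sa {k : ℕ} {L : ((V → A) → ℝ) →ₗ[ℝ] ℝ} (hL : SA k L) (hk : 3 ≤ k) : Tri L :=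
  fun u u' v π π' => Pool.Agent.Y572.UG.tri (k := 0)
    (pull_mixed hL ![u, u', v] (by simpa using hk) 1) 0 1 2 π π'

omit [Fintype V] in
theorem loc_sa {k N : ℕ} {L : ((V → A) → ℝ) →ₗ[ℝ] ℝ} (hL : SA k L) (hk : N + 1 ≤ k) :
    Loc N (kr L) := by
  intro φ s
  obtain ⟨J, instJ, U, hU⟩ := Mx.gram (pull_mixed hL φ (by simpa using hk) 0)
  have h1 : ∀ i j, kr L (φ i) (φ j) = ∑ l, U l i * U l j := hU
  simp only [h1]
  have h2 : ∑ i, ∑ j, s i * s j * ∑ l, U l i * U l j = ∑ l, (∑ i, s i * U l i) ^ 2 := by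
    have h3 : ∀ l, (∑ i, s i * U l i) ^ 2 = ∑ i, ∑ j, s i * s j * (U l i * U l j) := by
      intro l
      rw [sq, sum_mul_sum]
      exact sum_congr rfl fun i _ => sum_congr rfl fun j _ => by ring
    simp only [h3, mul_sum]
    rw [sum_comm (f := fun l i => ∑ j, s i * s j * (U l i * U l j))]
    refine sum_congr rfl fun i _ => ?_
    rw [sum_comm]
  rw [h2]
  exact sum_nonneg fun l _ => sq_nonneg _

theorem fct_sa {k N : ℕ} {L : ((V → A) → ℝ) →ₗ[ℝ] ℝ} (hL : SA k L) (hk : N + 2 ≤ k) :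
    FctN N L :=
  ⟨law_sa hL (by omega), fun u a => by
    have h := (law_sa hL (by omega) u u).left a
    rw [← h]
    exact sum_nonneg fun b _ => (law_sa hL (by omega) u u).nonneg a b,
    FB.symm L, Mx.diag L, Mx.sat_eq L, sat_le_sa hL (by omega), loc_sa hL (by omega),
    fd_sa hL (by omega)⟩

theorem step_sa {k : ℕ} {L : ((V → A) → ℝ) →ₗ[ℝ] ℝ} (hL : SA (k + 1) L) (u : V) (a : A)
    (ha : 0 < pr L u a) : SA k (cnd L u a) := by
  refine ⟨?_, fun S hS f hf hf0 => ?_⟩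
  · show L (fun x => ind u a x * 1) / pr L u a = 1
    simp only [mul_one]
    exact div_self ha.ne'
  · show 0 ≤ L (fun x => ind u a x * f x) / pr L u a
    refine div_nonneg (hL.junta (insert u S) ?_ _ (Mx.dep_mul (Mx.dep_ind u a _
      (mem_insert_self _ _)) (Mx.dep_mono hf (subset_insert _ _))) fun x =>
      mul_nonneg (Mx.ind_nonneg u a x) (hf0 x)) ha.le
    exact (card_insert_le _ _).trans (by omega)

end

/-- a hierarchy of functionals closed under conditioning -/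
structure HierN {V A : Type} [Fintype V] [DecidableEq V] [Fintype A] [DecidableEq A] (N : ℕ)
    (Q : ℕ → (((V → A) → ℝ) →ₗ[ℝ] ℝ) → Prop) : Prop where
  fct : ∀ k L, Q k L → FctN N L
  step : ∀ k L, Q (k + 1) L → ∀ u a, 0 < pr L u a → Q k (cnd L u a)
  mono : ∀ k L, Q (k + 1) L → Q k L
  avg : ∀ k L, Q (k + 1) L → ∀ u v w (π : Equiv.Perm A),
    ∑ a, pr L u a * cnd L u a (sat v w π) = L (sat v w π)

theorem HierN.mono' {V A : Type} [Fintype V] [DecidableEq V] [Fintype A] [DecidableEq A] {N : ℕ}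
    {Q : ℕ → (((V → A) → ℝ) →ₗ[ℝ] ℝ) → Prop} (h : HierN N Q) (L : ((V → A) → ℝ) →ₗ[ℝ] ℝ)
    (k j : ℕ) (hL : Q (k + j) L) : Q k L := by
  induction j with
  | zero => exact hL
  | succ j ih => exact ih (h.mono _ _ hL)

/-- the Sherali-Adams hierarchy with `N + 3` extra levels -/
theorem hier_sa (V A : Type) [Fintype V] [DecidableEq V] [Fintype A] [DecidableEq A] (N : ℕ) :
    HierN (V := V) (A := A) N (fun k L => SA (k + (N + 3)) L) where
  fct k L hL := fct_sa hL (by omega)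
  step k L hL u a ha := step_sa (hL.mono (by omega)) u a ha
  mono k L hL := hL.mono (by omega)
  avg k L hL u v w π := avg_sa hL (by omega) u v w π

section
variable {V A : Type} [Fintype V] [DecidableEq V] [Fintype A] [DecidableEq A] {N : ℕ}

theorem vr_bounds {L : ((V → A) → ℝ) →ₗ[ℝ] ℝ} (hL : FctN N L) (v : V) :
    0 ≤ vr L v ∧ vr L v ≤ 1 := by
  have h1 : ∑ a, pr L v a = 1 := (hL.law v v).one
  have h2 : ∀ a, pr L v a ≤ 1 := fun a => by
    rw [← h1]
    exact single_le_sum (fun a _ => hL.nn v a) (mem_univ a)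
  have h3 : ∑ a, pr L v a ^ 2 ≤ 1 := by
    calc ∑ a, pr L v a ^ 2 ≤ ∑ a, pr L v a :=
          sum_le_sum fun a _ => by nlinarith [hL.nn v a, h2 a]
      _ = 1 := h1
  have h4 : 0 ≤ ∑ a, pr L v a ^ 2 := sum_nonneg fun a _ => sq_nonneg _
  unfold vr
  constructor <;> linarith

theorem pr_le_one {L : ((V → A) → ℝ) →ₗ[ℝ] ℝ} (hL : FctN N L) (v : V) (a : A) :
    pr L v a ≤ 1 := by
  rw [← (hL.law v v).one]
  exact single_le_sum (fun a _ => hL.nn v a) (mem_univ a)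

theorem pr2_le_left {L : ((V → A) → ℝ) →ₗ[ℝ] ℝ} (hL : FctN N L) (u v : V) (a b : A) :
    pr2 L u v a b ≤ pr L u a := by
  rw [← (hL.law u v).left a]
  exact single_le_sum (fun b _ => (hL.law u v).nonneg a b) (mem_univ b)

theorem pr2_le_right {L : ((V → A) → ℝ) →ₗ[ℝ] ℝ} (hL : FctN N L) (u v : V) (a b : A) :
    pr2 L u v a b ≤ pr L v b := by
  rw [← (hL.law u v).right b]
  exact single_le_sum (f := fun a => pr2 L u v a b) (fun a _ => (hL.law u v).nonneg a b)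
    (mem_univ a)

/-- the variance is Lipschitz along an edge -/
theorem vr_lip {L : ((V → A) → ℝ) →ₗ[ℝ] ℝ} (hL : FctN N L) (u v : V) (π : Equiv.Perm A) :
    |vr L u - vr L v| ≤ 2 * (1 - L (sat u v π)) := by
  have e1 : ∑ b, pr L v b ^ 2 = ∑ a, pr L v (π a) ^ 2 := (Equiv.sum_comp π _).symm
  have e2 : ∑ a, pr L v (π a) = 1 := by
    rw [Equiv.sum_comp π (fun b => pr L v b)]
    exact (hL.law v v).one
  have e3 : ∑ a, pr L u a = 1 := (hL.law u u).one
  have key : ∀ x y z : ℝ, 0 ≤ z → z ≤ x → z ≤ y → x ≤ 1 → x ^ 2 - y ^ 2 ≤ 2 * (x - z) := by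
    intro x y z h0 h1 h2 h3
    nlinarith [mul_nonneg (sub_nonneg.2 h1) (by linarith : (0:ℝ) ≤ 2 - x - z)]
  unfold vr
  rw [hL.sat, e1, abs_le]
  constructor
  · have h1 : ∑ a, (pr L u a ^ 2 - pr L v (π a) ^ 2) ≤
        ∑ a, 2 * (pr L u a - pr2 L u v a (π a)) :=
      sum_le_sum fun a _ => key _ _ _ ((hL.law u v).nonneg a (π a)) (pr2_le_left hL u v a (π a))
        (pr2_le_right hL u v a (π a)) (pr_le_one hL u a)
    rw [sum_sub_distrib, ← mul_sum, sum_sub_distrib, e3] at h1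
    linarith
  · have h1 : ∑ a, (pr L v (π a) ^ 2 - pr L u a ^ 2) ≤
        ∑ a, 2 * (pr L v (π a) - pr2 L u v a (π a)) :=
      sum_le_sum fun a _ => key _ _ _ ((hL.law u v).nonneg a (π a)) (pr2_le_right hL u v a (π a))
        (pr2_le_left hL u v a (π a)) (pr_le_one hL v (π a))
    rw [sum_sub_distrib, ← mul_sum, sum_sub_distrib, e2] at h1
    linarith

/-- a labelling by the most likely labels -/
theorem exists_argmax {L : ((V → A) → ℝ) →ₗ[ℝ] ℝ} (hL : FctN N L) :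
    ∃ x : V → A, ∀ v, 1 - vr L v ≤ pr L v (x v) := by
  have h : ∀ v, ∃ a, 1 - vr L v ≤ pr L v a := by
    intro v
    have hone : ∑ a, pr L v a = 1 := (hL.law v v).one
    by_contra hcon
    push Not at hcon
    have h1 : ∑ a, pr L v a ^ 2 < 1 - vr L v := by
      obtain ⟨a0, -, ha0⟩ : ∃ a ∈ (univ : Finset A), 0 < pr L v a := by
        apply exists_lt_of_sum_lt (f := fun _ => (0 : ℝ))
        rw [sum_const_zero, hone]
        exact one_pos
      calc ∑ a, pr L v a ^ 2 < ∑ a, pr L v a * (1 - vr L v) := by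
            apply sum_lt_sum
            · intro a _
              rw [sq]
              exact mul_le_mul_of_nonneg_left (hcon a).le (hL.nn v a)
            · refine ⟨a0, mem_univ _, ?_⟩
              rw [sq]
              exact mul_lt_mul_of_pos_left (hcon a0) ha0
        _ = 1 - vr L v := by rw [← sum_mul, hone, one_mul]
    unfold vr at h1
    linarith
  choose x hx using h
  exact ⟨x, hx⟩

/-- the most likely labels satisfy the edges of small error -/
theorem argmax_edge {L : ((V → A) → ℝ) →ₗ[ℝ] ℝ} (hL : FctN N L) (x : V → A)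
    (hx : ∀ v, 1 - vr L v ≤ pr L v (x v)) (u v : V) (π : Equiv.Perm A) (hu : vr L u < 1 / 4)
    (hv : vr L v < 1 / 4) (hne : π (x u) ≠ x v) : 1 ≤ 2 * (1 - L (sat u v π)) := by
  have h1 := hx u
  have h2 := hx v
  rw [hL.sat, ← add_sum_erase univ _ (mem_univ (x u))]
  have h3 : pr2 L u v (x u) (π (x u)) ≤ 1 - pr L v (x v) := by
    have h4 := pr2_le_right hL u v (x u) (π (x u))
    have h5 : pr L v (π (x u)) + pr L v (x v) ≤ 1 := by
      rw [← (hL.law v v).one, ← sum_pair hne]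
      exact sum_le_sum_of_subset_of_nonneg (subset_univ _) fun a _ _ => hL.nn v a
    linarith
  have h4 : ∑ a ∈ univ.erase (x u), pr2 L u v a (π a) ≤ 1 - pr L u (x u) := by
    have h5 : ∑ a ∈ univ.erase (x u), pr2 L u v a (π a) ≤ ∑ a ∈ univ.erase (x u), pr L u a :=
      sum_le_sum fun a _ => pr2_le_left hL u v a (π a)
    have h6 := add_sum_erase univ (pr L u) (mem_univ (x u))
    rw [(hL.law u u).one] at h6
    linarith
  linarith

/-- bounds of the kernel -/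
theorem kr_le_one {L : ((V → A) → ℝ) →ₗ[ℝ] ℝ} (hL : FctN N L) (u v : V) :
    0 ≤ kr L u v ∧ kr L u v ≤ 1 := by
  obtain ⟨h1, h2, h3, h4⟩ := T_RD A (pr2 L u v) (pr L u) (pr L v) (hL.law u v)
  have h5 : kr L u v = ker (pr2 L u v) (pr L u) (pr L v) := rfl
  rw [← h5] at h1 h2
  exact ⟨h1, by linarith⟩

theorem kr_symm {L : ((V → A) → ℝ) →ₗ[ℝ] ℝ} (hL : FctN N L) (u v : V) : kr L u v = kr L v u := by
  unfold kr ker
  rw [sum_comm]
  refine sum_congr rfl fun b _ => sum_congr rfl fun a _ => ?_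
  rw [hL.symm u v a b, mul_comm (pr L u a)]

/-- the square of the kernel is at most the decrease of the variance -/
theorem kr_sq {L : ((V → A) → ℝ) →ₗ[ℝ] ℝ} (hL : FctN N L) (u v : V) :
    (kr L u v) ^ 2 ≤ (dec L u v + dec L v u) / 2 := by
  obtain ⟨h1, h2, h3, h4⟩ := T_RD A (pr2 L u v) (pr L u) (pr L v) (hL.law u v)
  have e1 : (∑ a, ∑ b, (pr2 L u v a b - pr L u a * pr L v b) ^ 2 / pr L u a) = dec L u v := rfl
  have e2 : (∑ a, ∑ b, (pr2 L u v a b - pr L u a * pr L v b) ^ 2 / pr L v b) = dec L v u := by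
    unfold dec
    rw [sum_comm]
    refine sum_congr rfl fun b _ => sum_congr rfl fun a _ => ?_
    rw [hL.symm u v a b, mul_comm (pr L u a)]
  rw [e1] at h2 h3
  rw [e2] at h2 h4
  have h5 : kr L u v = ker (pr2 L u v) (pr L u) (pr L v) := rfl
  rw [← h5] at h1 h2
  have h6 : kr L u v ≤ 1 := by linarith
  nlinarith

/-- the diagonal of the kernel -/
theorem kr_diag {L : ((V → A) → ℝ) →ₗ[ℝ] ℝ} (hL : FctN N L) (u : V) : vr L u / 8 ≤ kr L u u := by
  have h : kr L u u = ker (dg (pr L u)) (pr L u) (pr L u) := by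
    unfold kr; rw [hL.diag]
  rw [h]
  exact T_RB A (pr L u) (hL.nn u) (hL.law u u).one

/-- the kernel and the edges -/
theorem kr_edge {L : ((V → A) → ℝ) →ₗ[ℝ] ℝ} (hL : FctN N L) (u v : V) (π : Equiv.Perm A) :
    kr L u u + kr L v v - 2 * kr L u v ≤ 24 * (1 - L (sat u v π)) := by
  have h : ∀ u, kr L u u = ker (dg (pr L u)) (pr L u) (pr L u) := fun u => by
    unfold kr; rw [hL.diag]
  rw [h, h, hL.sat]
  exact T_RA A _ _ _ π (hL.law u v)

/-- a vertex with large total decrease -/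
theorem exists_dec {L : ((V → A) → ℝ) →ₗ[ℝ] ℝ} (hL : FctN N L) (m : V → ℝ) (hm : ∀ v, 0 ≤ m v)
    (hM : 0 < ∑ v, m v) (D : ℝ) (hlow : D * (∑ v, m v) ^ 2 ≤ ∑ u, ∑ v, m u * m v * (kr L u v) ^ 2) :
    ∃ u, D * ∑ v, m v ≤ PhiM m L - ∑ a, pr L u a * PhiM m (cnd L u a) := by
  set M := ∑ v, m v with hMd
  have hup : ∑ u, ∑ v, m u * m v * (kr L u v) ^ 2 ≤ ∑ u, m u * ∑ v, m v * dec L u v := by
    have h1 : ∑ u, ∑ v, m u * m v * (kr L u v) ^ 2
        ≤ ∑ u, ∑ v, m u * m v * ((dec L u v + dec L v u) / 2) :=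
      sum_le_sum fun u hu => sum_le_sum fun v hv =>
        mul_le_mul_of_nonneg_left (kr_sq hL u v) (mul_nonneg (hm u) (hm v))
    refine h1.trans (le_of_eq ?_)
    have h2 : ∑ u, ∑ v, m u * m v * ((dec L u v + dec L v u) / 2)
        = (∑ u, ∑ v, m u * m v * dec L u v
          + ∑ u, ∑ v, m u * m v * dec L v u) / 2 := by
      rw [← sum_add_distrib, sum_div]
      refine sum_congr rfl fun u _ => ?_
      rw [← sum_add_distrib, sum_div]
      refine sum_congr rfl fun v _ => ?_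
      ring
    have h3 : ∑ u, ∑ v, m u * m v * dec L v u
        = ∑ u, ∑ v, m u * m v * dec L u v := by
      rw [sum_comm]
      refine sum_congr rfl fun u _ => sum_congr rfl fun v _ => ?_
      ring
    rw [h2, h3]
    have h4 : ∑ u, ∑ v, m u * m v * dec L u v = ∑ u, m u * ∑ v, m v * dec L u v := by
      refine sum_congr rfl fun u _ => ?_
      rw [mul_sum]
      exact sum_congr rfl fun v _ => by ring
    rw [h4]
    ring
  have hex : ∃ u, D * M ≤ ∑ v, m v * dec L u v := by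
    by_contra hcon
    push Not at hcon
    obtain ⟨u0, -, hu0⟩ : ∃ u ∈ (univ : Finset V), 0 < m u := by
      apply exists_lt_of_sum_lt (f := fun _ => (0 : ℝ))
      rw [sum_const_zero]
      exact hM
    have h1 : ∑ u, m u * ∑ v, m v * dec L u v < ∑ u, m u * (D * M) :=
      sum_lt_sum (fun u _ => mul_le_mul_of_nonneg_left (hcon u).le (hm u))
        ⟨u0, mem_univ _, mul_lt_mul_of_pos_left (hcon u0) hu0⟩
    rw [← sum_mul, ← hMd] at h1
    have h2 := hlow.trans hup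
    nlinarith
  obtain ⟨u, hle⟩ := hex
  refine ⟨u, hle.trans (le_of_eq ?_)⟩
  unfold PhiM
  have h2 : ∑ a, pr L u a * ∑ v, m v * vr (cnd L u a) v
      = ∑ v, m v * ∑ a, pr L u a * vr (cnd L u a) v := by
    simp_rw [mul_sum]
    rw [sum_comm]
    refine sum_congr rfl fun v _ => sum_congr rfl fun a _ => ?_
    ring
  rw [h2, ← sum_sub_distrib]
  refine sum_congr rfl fun v _ => ?_
  rw [hL.fd u v]
  ring

theorem phiM_bounds (m : V → ℝ) (hm : ∀ v, 0 ≤ m v) {L : ((V → A) → ℝ) →ₗ[ℝ] ℝ}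
    (hL : FctN N L) : 0 ≤ PhiM m L ∧ PhiM m L ≤ ∑ v, m v := by
  constructor
  · exact sum_nonneg fun v _ => mul_nonneg (hm v) (vr_bounds hL v).1
  · refine sum_le_sum fun v _ => ?_
    have := (vr_bounds hL v).2
    have := hm v
    nlinarith

variable {E : Type} [Fintype E]

theorem errW_nonneg (s t : E → V) (π : E → Equiv.Perm A) (α : E → ℝ) (hα : ∀ e, 0 ≤ α e)
    {L : ((V → A) → ℝ) →ₗ[ℝ] ℝ} (hL : FctN N L) : 0 ≤ ErrW s t π α L :=
  sum_nonneg fun e _ => mul_nonneg (hα e) (by linarith [hL.sat1 (s e) (t e) (π e)])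

theorem errW_avg {Q : ℕ → (((V → A) → ℝ) →ₗ[ℝ] ℝ) → Prop} (hQ : HierN N Q) (s t : E → V)
    (π : E → Equiv.Perm A) (α : E → ℝ) {L : ((V → A) → ℝ) →ₗ[ℝ] ℝ} {k : ℕ} (hL : Q (k + 1) L)
    (u : V) : ∑ a, pr L u a * ErrW s t π α (cnd L u a) = ErrW s t π α L := by
  have hone : ∑ a, pr L u a = 1 := ((hQ.fct _ _ hL).law u u).one
  unfold ErrW
  simp_rw [mul_sum]
  rw [sum_comm]
  refine sum_congr rfl fun e _ => ?_
  have h5 := hQ.avg k L hL u (s e) (t e) (π e)
  calc ∑ a, pr L u a * (α e * (1 - cnd L u a (sat (s e) (t e) (π e))))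
      = α e * (∑ a, pr L u a - ∑ a, pr L u a * cnd L u a (sat (s e) (t e) (π e))) := by
        rw [← sum_sub_distrib, mul_sum]
        refine sum_congr rfl fun a _ => ?_
        ring
    _ = _ := by rw [hone, h5]

end

end Pool.Agent.Y572.SA
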