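import Pool.Agent.Y572.SA.DMain

set_option autoImplicit false

/-!
Rounding of the Sherali-Adams hierarchy (a linear program) for unique games: every completeness and
every soundness.
-/

namespace Pool.Agent.Y572.SA

open Finset Pool.Agent.H647R3.UG Pool.Agent.TH522.UG

theorem ylog_sa {x y : ℝ} (hy : 0 < y) (hxy : y ≤ x) (hx1 : x ≤ 1) :
    y * Real.log (2 / y) ≤ 2 * (x * Real.log (2 / x)) := by
  have hx : 0 < x := lt_of_lt_of_le hy hxy
  have h1 : Real.log (2 / y) = Real.log (2 / x) + Real.log (x / y) := by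
    rw [← Real.log_mul (by positivity) (by positivity)]
    congr 1
    field_simp
  have h2 : Real.log (x / y) ≤ x / y - 1 := Real.log_le_sub_one_of_pos (by positivity)
  have h3 : y * Real.log (x / y) ≤ x - y := by
    calc y * Real.log (x / y) ≤ y * (x / y - 1) := mul_le_mul_of_nonneg_left h2 hy.le
      _ = x - y := by field_simp
  have h4 : Real.log 2 ≤ Real.log (2 / x) := by
    apply Real.log_le_log (by norm_num)
    rw [le_div_iff₀ hx]
    linarith
  have h5 := Real.log_two_gt_d9
  rw [h1]
  nlinarith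

theorem comb {a b : ℝ} (X Y k : ℝ) (h : a ≤ b) (hX : 1 ≤ X) (hYX : Y ≤ X) (hk : b * X ≤ k)
    (ha : 0 ≤ a) : a * Y ≤ k :=
  ((mul_le_mul_of_nonneg_left hYX ha).trans (mul_le_mul_of_nonneg_right h (by linarith))).trans hk

theorem main_sa0 : ∀ (U V A E : Type) [Fintype U] [Fintype V] [Fintype A] [DecidableEq A]
    [Fintype E] (u : E → U) (v : E → V) (π : E → Equiv.Perm A) (c s x : ℝ) (k : ℕ)
    (L : ((U ⊕ V → A) → ℝ) →ₗ[ℝ] ℝ), 0 < s → s ≤ 1 / 2 →
    s < c → c < 1 → x = Real.log (1 / c) / Real.log (1 / s) →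
    2 ^ 27 * ((1 + Real.log (Fintype.card U)) *
      (Fintype.card U : ℝ) ^ (2 ^ 25 * (x * Real.log (2 / x)))) ≤ k → SA k L →
    c * (Fintype.card E : ℝ) ≤ ∑ e, L (sat (Sum.inl (u e)) (Sum.inr (v e)) (π e)) →
    ∃ X : U ⊕ V → A, s / 2 ^ 21 * (Fintype.card E : ℝ) ≤
      ((univ.filter fun e => π e (X (Sum.inl (u e))) = X (Sum.inr (v e))).card : ℝ) := by
  intro U V A E _ _ _ _ _ u v π c s x k L hs hs2 hsc hc1 hx hk hL hval
  classical
  have hc : 0 < c := hs.trans hsc
  have hs1 : s < 1 := hsc.trans hc1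
  rcases isEmpty_or_nonempty E with hE | hE
  · obtain ⟨X⟩ : Nonempty (U ⊕ V → A) := by
      by_contra hcon
      rw [not_nonempty_iff] at hcon
      have h1 := hL.one
      have h2 : (fun _ : U ⊕ V → A => (1 : ℝ)) = 0 := Subsingleton.elim _ _
      rw [h2, map_zero] at h1
      exact zero_ne_one h1
    exact ⟨X, by simp⟩
  have hE0 : (0 : ℝ) < Fintype.card E := by exact_mod_cast Fintype.card_pos
  obtain ⟨e0⟩ := hE
  have hU : Nonempty U := ⟨u e0⟩
  obtain ⟨n, hn⟩ : ∃ n, n = Fintype.card U := ⟨_, rfl⟩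
  have hn1 : 1 ≤ n := by rw [hn]; exact Fintype.card_pos
  have hn1' : (1 : ℝ) ≤ n := by exact_mod_cast hn1
  have hn0 : (0 : ℝ) < n := by linarith
  rw [← hn] at hk
  have hlogn : 0 ≤ Real.log n := Real.log_nonneg hn1'
  have hmono : ∀ a b : ℝ, a ≤ b → (n : ℝ) ^ a ≤ (n : ℝ) ^ b := fun a b h =>
    Real.rpow_le_rpow_of_exponent_le hn1' h
  have h1n : ∀ a : ℝ, 0 ≤ a → 1 ≤ (n : ℝ) ^ a := fun a h => Real.one_le_rpow hn1' h
  -- enough levels
  rcases le_or_gt (n + 1) k with hnk | hnk
  · obtain ⟨X, hX⟩ := exact_levels u v π k (by rw [← hn]; exact hnk) L hL c hval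
    refine ⟨X, le_trans ?_ hX⟩
    refine mul_le_mul_of_nonneg_right ?_ hE0.le
    rw [div_le_iff₀ (by norm_num)]
    linarith
  obtain ⟨l, hl⟩ : ∃ l, l = Real.log (1 / s) := ⟨_, rfl⟩
  have hl0 : 0 < l := by
    rw [hl]; apply Real.log_pos; rw [lt_div_iff₀ hs]; linarith
  have hl2l : Real.log 2 ≤ l := by
    rw [hl]
    apply Real.log_le_log (by norm_num)
    rw [le_div_iff₀ hs]
    linarith
  have hlc0 : 0 < Real.log (1 / c) := by
    apply Real.log_pos; rw [lt_div_iff₀ hc]; linarith
  have hlcs : Real.log (1 / c) < l := by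
    rw [hl]
    apply Real.log_lt_log (by positivity)
    exact one_div_lt_one_div_of_lt hs hsc
  rw [← hl] at hx
  have hxl : x * l = Real.log (1 / c) := by rw [hx]; field_simp
  have hx0 : 0 < x := by rw [hx]; positivity
  have hx1 : x < 1 := by rw [hx, div_lt_one hl0]; exact hlcs
  have hes : Real.exp (-l) = s := by
    rw [hl, Real.exp_neg, Real.exp_log (by positivity), one_div, inv_inv]
  obtain ⟨w, hw⟩ : ∃ w, w = x * Real.log (2 / x) := ⟨_, rfl⟩
  rw [← hw] at hk
  have hl2 := Real.log_two_gt_d9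
  have hl2' := Real.log_two_lt_d9
  have hlog2x : Real.log 2 ≤ Real.log (2 / x) := by
    apply Real.log_le_log (by norm_num)
    rw [le_div_iff₀ hx0]
    linarith
  have hwx : Real.log 2 * x ≤ w := by
    rw [hw, mul_comm]; exact mul_le_mul_of_nonneg_left hlog2x hx0.le
  have hw0 : 0 < w := lt_of_lt_of_le (by positivity) hwx
  have hP1 := h1n (2 ^ 25 * w) (by positivity)
  have hPn : (n : ℝ) ^ (2 ^ 25 * w) ≤ (1 + Real.log n) * (n : ℝ) ^ (2 ^ 25 * w) :=
    le_mul_of_one_le_left (by linarith) (by linarith)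
  have e27 : (2 : ℝ) ^ 27 = 134217728 := by norm_num
  rw [e27] at hk
  have hkn : (k : ℝ) ≤ n := by
    have : k ≤ n := by omega
    exact_mod_cast this
  have hk2 : 2 ≤ k := by
    have h1 : (2 : ℝ) ≤ k := by linarith
    exact_mod_cast h1
  have hwC : 2 ^ 25 * w < 1 := by
    by_contra hcon
    push Not at hcon
    have h1 : (n : ℝ) ^ (1 : ℝ) ≤ (n : ℝ) ^ (2 ^ 25 * w) :=
      Real.rpow_le_rpow_of_exponent_le hn1' hcon
    rw [Real.rpow_one] at h1
    linarith
  have e24 : (2 : ℝ) ^ 24 = 16777216 := by norm_num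
  have e25 : (2 : ℝ) ^ 25 = 33554432 := by norm_num
  have hxs : x ≤ 1 / 16777216 := by
    have h1 : 0.69 * x ≤ Real.log 2 * x := mul_le_mul_of_nonneg_right (by linarith) hx0.le
    rw [e25] at hwC
    linarith
  have hstar : ∀ y : ℝ, y ≤ c / n → ∃ X : U ⊕ V → A, y * (Fintype.card E : ℝ) ≤
      ((univ.filter fun e => π e (X (Sum.inl (u e))) = X (Sum.inr (v e))).card : ℝ) := by
    intro y hy
    obtain ⟨X, hX⟩ := star_sa u v π k hk2 L hL c hval
    rw [← hn] at hX
    exact ⟨X, le_trans (mul_le_mul_of_nonneg_right hy hE0.le) hX⟩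
  obtain ⟨ε, hε⟩ : ∃ ε, ε = 1 - c := ⟨_, rfl⟩
  have hε0 : 0 < ε := by rw [hε]; linarith
  have hεlog : ε ≤ Real.log (1 / c) := by
    have h1 := Real.log_le_sub_one_of_pos hc
    rw [one_div, Real.log_inv, hε]
    linarith
  rcases le_or_gt ε (1 / 49152) with hεs | hεs
  · rcases le_or_gt l (Real.log n) with hln | hln
    · -- almost perfect completeness
      have hyx : ε / l ≤ x := by rw [hx]; exact div_le_div_of_nonneg_right hεlog hl0.le
      have hy0 : 0 < ε / l := by positivity
      have h2 := ylog_sa hy0 hyx hx1.le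
      rw [← hw] at h2
      obtain ⟨X, hX⟩ := coreA_sa u v π ε l (ε / l) hε0 hεs hl2l rfl
        (by rw [← hn]; exact hln) k (by
          rw [← hn]
          have h3 : (n : ℝ) ^ (786434 * (ε / l * Real.log (2 / (ε / l)))) ≤
              (n : ℝ) ^ (2 ^ 25 * w) := hmono _ _ (by linarith)
          have h4 := mul_le_mul_of_nonneg_left h3 (by linarith : 0 ≤ 1 + Real.log n)
          exact comb _ _ _ (by norm_num) (hP1.trans hPn) h4 hk (by norm_num)) L hL (by
          have : 1 - ε = c := by rw [hε]; ring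
          rw [this]; exact hval)
      refine ⟨X, le_trans ?_ hX⟩
      rw [hes]
      refine mul_le_mul_of_nonneg_right ?_ hE0.le
      apply div_le_div_of_nonneg_left hs.le (by norm_num) (by norm_num)
    · refine hstar _ ?_
      have h1 : s < 1 / n := by
        rw [← hes, lt_div_iff₀ hn0]
        have e1 : Real.exp (-l) * n = Real.exp (-l + Real.log n) := by
          rw [Real.exp_add, Real.exp_log hn0]
        rw [e1]
        have e2 : Real.exp (-l + Real.log n) < Real.exp 0 := Real.exp_lt_exp.mpr (by linarith)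
        rwa [Real.exp_zero] at e2
      rw [lt_div_iff₀ hn0] at h1
      rw [div_le_div_iff₀ (by norm_num) hn0]
      have e21 : (2 : ℝ) ^ 21 = 2097152 := by norm_num
      rw [e21]
      linarith
  · rcases le_or_gt s (c / n) with hsn | hsn
    · refine hstar _ (le_trans ?_ hsn)
      rw [div_le_iff₀ (by norm_num)]
      linarith
    · have hll : l * (1 - x) < Real.log n := by
        have h1 : Real.log (c / n) < Real.log s := Real.log_lt_log (by positivity) hsn
        rw [Real.log_div hc.ne' hn0.ne'] at h1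
        have h2 : Real.log (1 / c) = - Real.log c := by rw [one_div, Real.log_inv]
        have h3 : l = - Real.log s := by rw [hl, one_div, Real.log_inv]
        have h4 : l * (1 - x) = l - x * l := by ring
        rw [h4, hxl]
        linarith
      obtain ⟨l', hl'⟩ : ∃ l', l' = l * (1 - 5 * x) := ⟨_, rfl⟩
      have hl'1 : l / 2 ≤ l' := by
        have h1 : l * (5 * x) ≤ l * (1 / 2) := mul_le_mul_of_nonneg_left (by linarith) hl0.le
        have h2 : l' = l - l * (5 * x) := by rw [hl']; ring
        linarith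
      have hl'0 : 0 < l' := by linarith
      have hl'n : l' ≤ Real.log n := by
        have h1 : 0 ≤ l * (4 * x) := by positivity
        have h2 : l' = l * (1 - x) - l * (4 * x) := by rw [hl']; ring
        linarith
      have hxl2 : 1 / 49152 < x * l := by rw [hxl]; linarith
      have h1024 : Real.log (1024 / c ^ 4) = Real.log 1024 + 4 * (x * l) := by
        rw [Real.log_div (by norm_num) (by positivity), Real.log_pow, hxl,
          one_div, Real.log_inv]
        push_cast
        ring
      have hlog1024 : Real.log 1024 ≤ 6.94 := by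
        have : (1024 : ℝ) = 2 ^ 10 := by norm_num
        rw [this, Real.log_pow]
        push_cast
        linarith
      have hnum : Real.log (1024 / c ^ 4) ≤ 341120 * (x * l) := by
        rw [h1024]
        linarith
      have hnum0 : 0 < Real.log (1024 / c ^ 4) := by
        rw [h1024]
        have : 0 < Real.log 1024 := Real.log_pos (by norm_num)
        have : 0 < x * l := by positivity
        linarith
      have hle : Real.log (1024 / c ^ 4) ≤ l' := by
        refine hnum.trans ?_
        have h1 : x * l ≤ 1 / 16777216 * l := mul_le_mul_of_nonneg_right hxs hl0.le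
        linarith
      obtain ⟨z, hz⟩ : ∃ z, z = Real.log (1024 / c ^ 4) / l' := ⟨_, rfl⟩
      have hz0 : 0 < z := by rw [hz]; positivity
      have hzX : z ≤ 2 ^ 20 * x := by
        rw [hz, div_le_iff₀ hl'0]
        refine hnum.trans ?_
        have h1 : 2 ^ 20 * x * (l / 2) ≤ 2 ^ 20 * x * l' :=
          mul_le_mul_of_nonneg_left hl'1 (by positivity)
        have h2 : 0 < x * l := by positivity
        have h3 : 2 ^ 20 * x * (l / 2) = 524288 * (x * l) := by ring
        linarith
      have e20 : (2 : ℝ) ^ 20 = 1048576 := by norm_num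
      have hX1 : (2 : ℝ) ^ 20 * x ≤ 1 := by
        rw [e20]
        linarith
      have hzl := ylog_sa hz0 hzX hX1
      have hlogX : Real.log (2 / (2 ^ 20 * x)) ≤ Real.log (2 / x) := by
        apply Real.log_le_log (by positivity)
        apply div_le_div_of_nonneg_left (by norm_num) hx0
        rw [e20]
        linarith
      have hexp : 16 * (z * Real.log (2 / z)) ≤ 2 ^ 25 * w := by
        have h1 : 2 ^ 20 * x * Real.log (2 / (2 ^ 20 * x)) ≤ 2 ^ 20 * w := by
          rw [hw]
          have h2 := mul_le_mul_of_nonneg_left hlogX (by positivity : 0 ≤ 2 ^ 20 * x)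
          have h3 : (2 : ℝ) ^ 20 * (x * Real.log (2 / x)) = 2 ^ 20 * x * Real.log (2 / x) := by ring
          rw [h3]
          exact h2
        have h4 : 16 * (z * Real.log (2 / z)) ≤ 32 * (2 ^ 20 * w) := by linarith
        refine h4.trans (le_of_eq ?_)
        ring
      obtain ⟨X, hX⟩ := core_sa u v π c l' z hc hc1.le hz hl'0 hle
        (by rw [← hn]; exact hl'n) k (by
          rw [← hn]
          have h4 := mul_le_mul_of_nonneg_left (hmono _ _ hexp) (by linarith : 0 ≤ 1 + Real.log n)
          exact comb _ _ _ (by norm_num) (hP1.trans hPn) h4 hk (by norm_num)) L hL hval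
      refine ⟨X, ?_⟩
      have h5 : c ^ 5 * Real.exp (-l') = s := by
        have h6 : Real.exp (-l') = s * Real.exp (5 * (x * l)) := by
          rw [← hes, ← Real.exp_add, hl']
          congr 1
          ring
        have h7 : Real.exp (5 * (x * l)) = (1 / c) ^ 5 := by
          rw [hxl]
          have : (5 : ℝ) * Real.log (1 / c) = ((5 : ℕ) : ℝ) * Real.log (1 / c) := by norm_num
          rw [this, Real.exp_nat_mul, Real.exp_log (by positivity)]
        rw [h6, h7]
        field_simp
      rw [h5] at hX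
      exact hX

theorem main_sa : ∀ (U V A E : Type) [Fintype U] [Fintype V] [Fintype A] [DecidableEq A]
    [Fintype E] (u : E → U) (v : E → V) (π : E → Equiv.Perm A) (c s x : ℝ) (k : ℕ)
    (L : ((U ⊕ V → A) → ℝ) →ₗ[ℝ] ℝ), 0 < s → s < c → c < 1 →
    x = Real.log (1 / c) / Real.log (1 / s) →
    2 ^ 27 * ((1 + Real.log (Fintype.card U)) *
      (Fintype.card U : ℝ) ^ (2 ^ 26 * (x * Real.log (2 / x)))) ≤ k → SA k L →
    c * (Fintype.card E : ℝ) ≤ ∑ e, L (sat (Sum.inl (u e)) (Sum.inr (v e)) (π e)) →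
    ∃ X : U ⊕ V → A, s / 2 ^ 22 * (Fintype.card E : ℝ) ≤
      ((univ.filter fun e => π e (X (Sum.inl (u e))) = X (Sum.inr (v e))).card : ℝ) := by
  intro U V A E _ _ _ _ _ u v π c s x k L hs hsc hc1 hx hk hL hval
  classical
  have hc : 0 < c := hs.trans hsc
  have hE0 : (0 : ℝ) ≤ Fintype.card E := Nat.cast_nonneg _
  have hlc0 : 0 < Real.log (1 / c) := by
    apply Real.log_pos; rw [lt_div_iff₀ hc]; linarith
  have hls0 : 0 < Real.log (1 / s) := by
    apply Real.log_pos; rw [lt_div_iff₀ hs]; linarith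
  have hx0 : 0 < x := by rw [hx]; positivity
  have hx1 : x ≤ 1 := by
    rw [hx, div_le_one hls0]
    apply Real.log_le_log (by positivity)
    exact one_div_le_one_div_of_le hs hsc.le
  have hl2 := Real.log_two_gt_d9
  -- the exponent
  have hcomp : ∀ y : ℝ, 0 < y → y ≤ x →
      2 ^ 27 * ((1 + Real.log (Fintype.card U)) *
      (Fintype.card U : ℝ) ^ (2 ^ 25 * (y * Real.log (2 / y)))) ≤ k := by
    intro y hy hyx
    refine le_trans ?_ hk
    rcases Nat.eq_zero_or_pos (Fintype.card U) with hU | hU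
    · have h1 := ylog_sa hy hyx hx1
      have hy2 : 0 < y * Real.log (2 / y) := by
        refine mul_pos hy (Real.log_pos ?_)
        rw [lt_div_iff₀ hy]
        linarith
      have hx2 : 0 < x * Real.log (2 / x) := by
        refine mul_pos hx0 (Real.log_pos ?_)
        rw [lt_div_iff₀ hx0]
        linarith
      rw [hU]
      simp only [Nat.cast_zero, Real.log_zero, add_zero, one_mul]
      rw [Real.zero_rpow (by positivity), Real.zero_rpow (by positivity)]
    · have hn1 : (1 : ℝ) ≤ Fintype.card U := by exact_mod_cast hU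
      have hlogn : 0 ≤ Real.log (Fintype.card U) := Real.log_nonneg hn1
      refine mul_le_mul_of_nonneg_left (mul_le_mul_of_nonneg_left ?_ (by linarith)) (by norm_num)
      refine Real.rpow_le_rpow_of_exponent_le hn1 ?_
      have h1 := ylog_sa hy hyx hx1
      linarith
  rcases le_or_gt s (1 / 2) with hs2 | hs2
  · obtain ⟨X, hX⟩ := main_sa0 U V A E u v π c s x k L hs hs2 hsc hc1 hx (hcomp x hx0 le_rfl) hL hval
    refine ⟨X, le_trans (mul_le_mul_of_nonneg_right ?_ hE0) hX⟩
    apply div_le_div_of_nonneg_left hs.le (by norm_num) (by norm_num)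
  · have h2c : (1 : ℝ) / 2 < c := hs2.trans hsc
    have hlog2 : Real.log (1 / (1 / 2)) = Real.log 2 := by norm_num
    have hy : 0 < Real.log (1 / c) / Real.log (1 / (1 / 2)) := by
      rw [hlog2]; positivity
    have hyx : Real.log (1 / c) / Real.log (1 / (1 / 2)) ≤ x := by
      rw [hx]
      apply div_le_div_of_nonneg_left hlc0.le hls0
      apply Real.log_le_log (by positivity)
      exact one_div_le_one_div_of_le (by norm_num) hs2.le
    obtain ⟨X, hX⟩ := main_sa0 U V A E u v π c (1 / 2) _ k L (by norm_num) le_rfl h2c hc1 rfl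
      (hcomp _ hy hyx) hL hval
    refine ⟨X, le_trans (mul_le_mul_of_nonneg_right ?_ hE0) hX⟩
    rw [div_le_div_iff₀ (by norm_num) (by norm_num)]
    norm_num
    linarith

end Pool.Agent.Y572.SA
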