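import Pool.Agent.Y572.SA.DRound

set_option autoImplicit false

/-!
Correlation of the pairs of edges of a unique game in the Sherali-Adams hierarchy.
-/

namespace Pool.Agent.Y572.SA

open Finset Pool.Agent.H647R3.UG Pool.Agent.H573R3.SL Pool.Agent.TH522.UG Pool.Agent.TH522.US
  Pool.Agent.TH522.DG

section
variable {Z E : Type} [Fintype E] [DecidableEq Z] [Fintype Z]

/-- the pair sum, target by target -/
theorem PS_tau (t : E → Z) (ω : E → ℝ) (Y : E → E → ℝ) :
    PS t ω Y = ∑ τ, (∑ e, ∑ e', (if t e = τ then ω e else 0) * (if t e' = τ then ω e' else 0) *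
      Y e e') / bd t ω τ := by
  simp only [sum_div]
  unfold PS
  symm
  rw [sum_comm]
  refine sum_congr rfl fun e _ => ?_
  rw [sum_comm]
  refine sum_congr rfl fun e' _ => ?_
  have h2 : ∀ v, (if t e = v then ω e else 0) * (if t e' = v then ω e' else 0) * Y e e' /
        bd t ω v = if t e = v then (if t e' = v then ω e * ω e' * Y e e' / bd t ω v else 0)
        else 0 := by
    intro v
    split_ifs <;> simp
  simp only [h2]
  rw [sum_ite_eq, if_pos (mem_univ _)]
  unfold pw
  by_cases h : t e = t e'
  · rw [if_pos h, if_pos h.symm]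
    ring
  · rw [if_neg h, if_neg fun h' => h h'.symm, zero_mul]

variable {A : Type} [Fintype A] [DecidableEq A]

/-- the label which the edge `e` (or the target `τ` itself) proposes for the target -/
def lb (s : E → Z) (π : E → Equiv.Perm A) (τ : Z) (i : Option E) (x : Z → A) : A :=
  i.elim (x τ) fun e => π e (x (s e))

/-- agreement of two proposals -/
noncomputable def ag (s : E → Z) (π : E → Equiv.Perm A) (τ : Z) (L : ((Z → A) → ℝ) →ₗ[ℝ] ℝ)
    (i j : Option E) : ℝ := L fun x => if lb s π τ i x = lb s π τ j x then 1 else 0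

omit [Fintype E] [Fintype Z] in
theorem ag_loc {k N : ℕ} (s : E → Z) (π : E → Equiv.Perm A) (τ : Z)
    {L : ((Z → A) → ℝ) →ₗ[ℝ] ℝ} (hL : SA k L) (hk : N + 1 ≤ k) : Loc N (ag s π τ L) := by
  classical
  intro φ c
  have h1 : ∑ i, ∑ j, c i * c j * ag s π τ L (φ i) (φ j) =
      L fun x => ∑ b, (∑ i, c i * (if lb s π τ (φ i) x = b then 1 else 0)) ^ 2 := by
    have h2 : (fun x : Z → A => ∑ b, (∑ i, c i * (if lb s π τ (φ i) x = b then (1 : ℝ) else 0)) ^ 2)
        = ∑ i, ∑ j, (c i * c j) • fun x => if lb s π τ (φ i) x = lb s π τ (φ j) x then (1 : ℝ)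
          else 0 := by
      funext x
      simp only [Finset.sum_apply, Pi.smul_apply, smul_eq_mul]
      have h3 : ∀ b, (∑ i, c i * (if lb s π τ (φ i) x = b then (1 : ℝ) else 0)) ^ 2 =
          ∑ i, ∑ j, c i * c j * ((if lb s π τ (φ i) x = b then (1 : ℝ) else 0) *
            (if lb s π τ (φ j) x = b then (1 : ℝ) else 0)) := by
        intro b
        rw [sq, sum_mul_sum]
        exact sum_congr rfl fun i _ => sum_congr rfl fun j _ => by ring
      simp only [h3]
      rw [sum_comm]
      refine sum_congr rfl fun i _ => ?_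
      rw [sum_comm]
      refine sum_congr rfl fun j _ => ?_
      rw [← mul_sum]
      congr 1
      simp only [ite_mul, one_mul, zero_mul]
      rw [sum_ite_eq, if_pos (mem_univ _)]
      by_cases h : lb s π τ (φ i) x = lb s π τ (φ j) x
      · rw [if_pos h, if_pos h.symm]
      · rw [if_neg h, if_neg fun h' => h h'.symm]
    rw [h2]
    simp only [map_sum, map_smul, smul_eq_mul]
    rfl
  rw [h1]
  refine hL.junta (univ.image fun i => (φ i).elim τ s) ?_ _ ?_ fun x =>
    sum_nonneg fun b _ => sq_nonneg _
  · refine card_image_le.trans ?_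
    rw [card_univ, Fintype.card_option, Fintype.card_fin]
    exact hk
  · intro x y h
    refine sum_congr rfl fun b _ => ?_
    congr 1
    refine sum_congr rfl fun i _ => ?_
    have h2 : lb s π τ (φ i) x = lb s π τ (φ i) y := by
      have h3 := h ((φ i).elim τ s) (mem_image_of_mem _ (mem_univ i))
      unfold lb
      cases h4 : φ i with
      | none =>
        rw [h4] at h3
        exact h3
      | some e =>
        rw [h4] at h3
        show π e (x (s e)) = π e (y (s e))
        exact congrArg (π e) h3
    rw [h2]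

/-- correlation of the pairs of edges -/
theorem pair_corr_sa {k N : ℕ} (hN : 0 < N) {L : ((Z → A) → ℝ) →ₗ[ℝ] ℝ} (hL : SA k L)
    (hk : N + 1 ≤ k) (s t : E → Z) (π : E → Equiv.Perm A) (ω : E → ℝ) (hω : ∀ e, 0 ≤ ω e)
    (c1 : ℝ) (hc1 : 0 ≤ c1) (hsat : ∀ e, 0 < ω e → c1 ≤ L (sat (s e) (t e) (π e)))
    (F : Z → ℝ) (hF : ∀ z, 0 ≤ F z) :
    (c1 ^ 2 - 1 / N) * bil (K2 s t ω) F F ≤ SatF s t (fun e => (π e : A → A)) ω F L := by
  classical
  have hN0 : (0 : ℝ) < N := by exact_mod_cast hN
  have hP : ∀ (τ : Z) (e e' : E), ag s π τ L (some e) (some e') =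
      rl (π e) (π e') (pr2 L (s e) (s e')) := by
    intro τ e e'
    unfold rl
    have h2 : ∀ a a', (if π e a = π e' a' then pr2 L (s e) (s e') a a' else 0) =
        L (fun z => if π e a = π e' a' then (if z (s e) = a then 1 else 0) *
          (if z (s e') = a' then 1 else 0) else 0) := by
      intro a a'
      by_cases h : π e a = π e' a'
      · simp only [if_pos h]
        rfl
      · simp only [if_neg h]
        exact (map_zero L).symm
    simp only [h2, ← map_sum]
    unfold ag lb
    congr 1
    funext z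
    simp only [Finset.sum_apply, Option.elim_some]
    rw [sum_eq_single (z (s e))]
    · rw [sum_eq_single (z (s e'))]
      · by_cases h : π e (z (s e)) = π e' (z (s e')) <;> simp [h]
      · intro a' _ ha'
        simp [Ne.symm ha']
      · intro h; exact absurd (mem_univ _) h
    · intro a _ ha
      refine sum_eq_zero fun a' _ => ?_
      simp [Ne.symm ha]
    · intro h; exact absurd (mem_univ _) h
  have hP0 : ∀ (e e' : E), 0 ≤ rl (π e) (π e') (pr2 L (s e) (s e')) := by
    by_cases hk2 : 2 ≤ k
    · exact fun e e' => rl_nonneg _ _ _ (law_sa hL hk2 (s e) (s e')).nonneg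
    · omega
  have hone : ∀ (τ : Z) (i : Option E), ag s π τ L i i = 1 := by
    intro τ i
    unfold ag
    simp only [if_true]
    exact hL.one
  have hsym : ∀ (τ : Z) (i j : Option E), ag s π τ L i j = ag s π τ L j i := by
    intro τ i j
    unfold ag
    congr 1
    funext x
    by_cases h : lb s π τ i x = lb s π τ j x
    · rw [if_pos h, if_pos h.symm]
    · rw [if_neg h, if_neg fun h' => h h'.symm]
  rw [bil_K2]
  unfold SatF
  rw [PS_tau, PS_tau, mul_sum]
  refine sum_le_sum fun τ _ => ?_
  rw [← mul_div_assoc]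
  refine div_le_div_of_nonneg_right ?_ (bd_nonneg t ω hω τ)
  set z : E → ℝ := fun e => (if t e = τ then ω e else 0) * F (s e) with hz
  have hz0 : ∀ e, 0 ≤ z e := fun e => mul_nonneg (by split_ifs; exacts [hω e, le_rfl]) (hF _)
  have e1 : ∑ e, ∑ e', (if t e = τ then ω e else 0) * (if t e' = τ then ω e' else 0) *
      (F (s e) * F (s e')) = (∑ e, z e) ^ 2 := by
    rw [sq, sum_mul_sum]
    exact sum_congr rfl fun e _ => sum_congr rfl fun e' _ => by simp only [hz]; ring
  have e2 : ∑ e, ∑ e', (if t e = τ then ω e else 0) * (if t e' = τ then ω e' else 0) *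
      (F (s e) * F (s e') * rl (π e) (π e') (pr2 L (s e) (s e'))) =
      ∑ e, ∑ e', z e * z e' * ag s π τ L (some e) (some e') :=
    sum_congr rfl fun e _ => sum_congr rfl fun e' _ => by rw [hP]; simp only [hz]; ring
  rw [e1, e2]
  set Y := ∑ e, z e with hY
  have hY0 : 0 ≤ Y := sum_nonneg fun e _ => hz0 e
  have hQ0 : 0 ≤ ∑ e, ∑ e', z e * z e' * ag s π τ L (some e) (some e') :=
    sum_nonneg fun e _ => sum_nonneg fun e' _ => by
      rw [hP]
      exact mul_nonneg (mul_nonneg (hz0 e) (hz0 e')) (hP0 e e')
  rcases hY0.eq_or_lt with h0 | h0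
  · rw [← h0]
    simpa using hQ0
  -- the inequality for the centre `τ`
  set b : Option E → ℝ := fun i => i.elim 0 fun e => z e / Y with hb
  have hstar := star hN (ag_loc (N := N) s π τ hL hk) (hsym τ) b
    (fun i => by
      cases i with
      | none => exact le_rfl
      | some e => exact div_nonneg (hz0 e) h0.le)
    (by
      rw [Fintype.sum_option]
      simp only [hb, Option.elim_none, Option.elim_some, zero_add]
      rw [← sum_div, ← hY, div_self h0.ne']) none (∑ i, b i * ag s π τ L none i)
  have f1 : ∑ i, b i * ag s π τ L i i = 1 := by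
    simp only [hone, mul_one]
    rw [Fintype.sum_option]
    simp only [hb, Option.elim_none, Option.elim_some, zero_add]
    rw [← sum_div, ← hY, div_self h0.ne']
  have f2 : ∑ i, ∑ j, b i * b j * ag s π τ L i j =
      (∑ e, ∑ e', z e * z e' * ag s π τ L (some e) (some e')) / Y ^ 2 := by
    simp only [Fintype.sum_option]
    simp only [hb, Option.elim_none, Option.elim_some, zero_mul, mul_zero, zero_add,
      sum_const_zero]
    rw [sum_div]
    refine sum_congr rfl fun e _ => ?_
    rw [sum_div]
    refine sum_congr rfl fun e' _ => ?_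
    field_simp
  have f3 : c1 ≤ ∑ i, b i * ag s π τ L none i := by
    rw [Fintype.sum_option]
    simp only [hb, Option.elim_none, Option.elim_some, zero_mul, zero_add]
    have h1 : ∑ e, z e / Y * c1 ≤ ∑ e, z e / Y * ag s π τ L none (some e) := by
      refine sum_le_sum fun e _ => ?_
      rcases (hz0 e).eq_or_lt with h2 | h2
      · rw [← h2]; simp
      · refine mul_le_mul_of_nonneg_left ?_ (div_nonneg (hz0 e) h0.le)
        by_cases h3 : t e = τ
        · have h4 : 0 < ω e := by
            rcases (hω e).eq_or_lt with h5 | h5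
            · simp only [hz, ← h5, ite_self, zero_mul, lt_irrefl] at h2
            · exact h5
          refine (hsat e h4).trans (le_of_eq ?_)
          unfold ag lb sat
          congr 1
          funext x
          simp only [Option.elim_none, Option.elim_some]
          rw [h3]
          by_cases h6 : π e (x (s e)) = x τ
          · rw [if_pos h6, if_pos h6.symm]
          · rw [if_neg h6, if_neg fun h' => h6 h'.symm]
        · simp only [hz, if_neg h3, zero_mul, lt_irrefl] at h2
    refine le_trans (le_of_eq ?_) h1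
    rw [← sum_mul, ← sum_div, ← hY, div_self h0.ne', one_mul]
  rw [f1, f2, hone] at hstar
  set ρ := ∑ i, b i * ag s π τ L none i
  set q := (∑ e, ∑ e', z e * z e' * ag s π τ L (some e) (some e')) / Y ^ 2 with hq
  have hq0 : 0 ≤ q := div_nonneg hQ0 (sq_nonneg _)
  have h5 : ρ ^ 2 - 1 / N ≤ q := by
    have h6 : 0 ≤ 1 / (N : ℝ) * q := by positivity
    nlinarith
  have h7 : c1 ^ 2 ≤ ρ ^ 2 := pow_le_pow_left₀ hc1 f3 2
  have h8 : (c1 ^ 2 - 1 / N) * Y ^ 2 ≤ q * Y ^ 2 :=
    mul_le_mul_of_nonneg_right (by linarith) (sq_nonneg _)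
  rw [hq, div_mul_cancel₀ _ (by positivity)] at h8
  exact h8

end

end Pool.Agent.Y572.SA
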