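import Pool.Agent.Y572.SA.Fix

set_option autoImplicit false

/-!
Rounding of the Sherali-Adams hierarchy for unique games with almost perfect completeness and small
soundness.
-/

namespace Pool.Agent.Y572.SA

open Finset Pool.Agent.H647R3.UG Pool.Agent.H573R3.SL Pool.Agent.TH522.UG Pool.Agent.TH522.US
  Pool.Agent.TH522.DG

/-- a power of two near `T` -/
theorem pow_near (T : ℝ) (hT : 0 ≤ T) : ∃ J : ℕ, T ≤ 2 ^ J ∧ (2 : ℝ) ^ J ≤ 2 * T + 1 := by
  rcases le_or_gt T 1 with h | h
  · exact ⟨0, by simpa using h, by simpa using hT⟩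
  · obtain ⟨n, hn1, hn2⟩ := exists_nat_pow_near h.le (by norm_num : (1 : ℝ) < 2)
    refine ⟨n + 1, hn2.le, ?_⟩
    rw [pow_succ]
    linarith

theorem exp_four_le : Real.exp 4 ≤ 55 := by
  have h := Real.exp_one_lt_d9
  have h0 := Real.exp_pos 1
  have h1 : Real.exp 4 = Real.exp 1 ^ 4 := by
    rw [← Real.exp_nat_mul]; norm_num
  rw [h1]
  calc Real.exp 1 ^ 4 ≤ 2.7182818286 ^ 4 := pow_le_pow_left₀ h0.le h.le 4
    _ ≤ 55 := by norm_num

theorem exp_five_le : Real.exp 5 ≤ 149 := by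
  have h := Real.exp_one_lt_d9
  have h0 := Real.exp_pos 1
  have h1 : Real.exp 5 = Real.exp 1 ^ 5 := by
    rw [← Real.exp_nat_mul]; norm_num
  rw [h1]
  calc Real.exp 1 ^ 5 ≤ 2.7182818286 ^ 5 := pow_le_pow_left₀ h0.le h.le 5
    _ ≤ 149 := by norm_num

/-- the number of levels -/
theorem numA_sa (n : ℕ) (ε l x : ℝ) (hε : 0 < ε) (hε1 : ε ≤ 1 / 49152) (hl : Real.log 2 ≤ l)
    (hx : x = ε / l) (hln : l ≤ Real.log n) (K : ℝ)
    (hK : 2 ^ 26 * ((1 + Real.log n) * (n : ℝ) ^ (786434 * (x * Real.log (2 / x)))) ≤ K) :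
    ∃ (q : ℝ) (J k N : ℕ), 0 < q ∧ Real.log (1 / q) / (l / (2 * Real.log n)) ≤ 2 ^ J ∧
      1 + 2 * ((J : ℝ) + 1) * Real.exp (4 * (2 ^ J * (2 * (12288 * (2 * ε))))) ≤ N ∧
      2 ≤ k * ((1 / 32) ^ 2 / 64 * (Real.exp (-(4 * (2 ^ J * (2 * (12288 * (2 * ε)))))) *
        (n : ℝ) ^ (-q))) ∧ ((k : ℝ) + (N + 3)) ≤ K := by
  have hl2 := Real.log_two_gt_d9
  have hl2' := Real.log_two_lt_d9
  have hl0 : 0 < l := by linarith
  obtain ⟨y, hy⟩ : ∃ y, y = Real.log n := ⟨_, rfl⟩
  rw [← hy] at hln hK ⊢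
  have hy0 : 0 < y := by linarith
  have hn0 : (0 : ℝ) < n := by
    rcases Nat.eq_zero_or_pos n with h | h
    · rw [hy, h] at hy0; simp at hy0
    · exact_mod_cast h
  have hx0 : 0 < x := by rw [hx]; positivity
  have hxl : x * l = ε := by rw [hx]; field_simp
  have hx1 : x ≤ 1 := by
    rw [hx, div_le_one hl0]
    linarith
  have hlogx : 0 ≤ Real.log (1 / x) := Real.log_nonneg (by rw [le_div_iff₀ hx0]; linarith)
  have hlog2 : Real.log (2 / x) = Real.log 2 + Real.log (1 / x) := by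
    rw [← Real.log_mul (by norm_num) (by positivity)]
    congr 1
    ring
  obtain ⟨q, hq⟩ : ∃ q, q = max x (1 / (1 + y)) := ⟨_, rfl⟩
  have hqx : x ≤ q := by rw [hq]; exact le_max_left _ _
  have hqy : 1 / (1 + y) ≤ q := by rw [hq]; exact le_max_right _ _
  have hq0 : 0 < q := lt_of_lt_of_le hx0 hqx
  have hq1 : q ≤ 1 := by
    rw [hq]
    refine max_le hx1 ?_
    rw [div_le_one (by linarith)]
    linarith
  have hqs : q ≤ x + 1 / (1 + y) := by
    rw [hq]
    refine max_le ?_ ?_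
    · have : 0 < 1 / (1 + y) := by positivity
      linarith
    · linarith
  obtain ⟨R, hR⟩ : ∃ R, R = Real.log (1 / q) := ⟨_, rfl⟩
  have hR0 : 0 ≤ R := by
    rw [hR]; exact Real.log_nonneg (by rw [le_div_iff₀ hq0]; linarith)
  have hRx : R ≤ Real.log (1 / x) := by
    rw [hR]
    apply Real.log_le_log (by positivity)
    exact one_div_le_one_div_of_le hx0 hqx
  have hRy : R ≤ y := by
    have h1 : R ≤ Real.log (1 + y) := by
      rw [hR]
      apply Real.log_le_log (by positivity)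
      rw [div_le_iff₀ hq0]
      have h2 := mul_le_mul_of_nonneg_left hqy (by linarith : 0 ≤ 1 + y)
      rwa [mul_one_div, div_self (by linarith)] at h2
    have h2 := Real.log_le_sub_one_of_pos (by linarith : 0 < 1 + y)
    linarith
  have hT : R / (l / (2 * y)) = 2 * y * R / l := by field_simp
  obtain ⟨J, hJ1, hJ2⟩ := pow_near (2 * y * R / l) (by positivity)
  -- the exponent
  obtain ⟨E1, hE1⟩ : ∃ E1 : ℝ, E1 = 4 * (2 ^ J * (2 * (12288 * (2 * ε)))) := ⟨_, rfl⟩
  have hE : E1 ≤ 786432 * (x * Real.log (1 / x)) * y + 4 := by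
    have h1 : E1 ≤ 196608 * ε * (2 * (2 * y * R / l) + 1) := by
      rw [hE1]
      have := mul_le_mul_of_nonneg_left hJ2 (by positivity : 0 ≤ 196608 * ε)
      linarith
    have h2 : 196608 * ε * (2 * (2 * y * R / l) + 1) = 786432 * (x * R) * y + 196608 * ε := by
      rw [hx]
      field_simp
      ring
    have h3 : 786432 * (x * R) * y ≤ 786432 * (x * Real.log (1 / x)) * y :=
      mul_le_mul_of_nonneg_right (mul_le_mul_of_nonneg_left
        (mul_le_mul_of_nonneg_left hRx hx0.le) (by norm_num)) hy0.le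
    linarith
  have hJb : (J : ℝ) + 1 ≤ 9 * (1 + y) := by
    have h1 : (2 : ℝ) ^ J ≤ (1 + 3 * y) ^ 2 := by
      have h2 : 2 * y * R / l ≤ 2 * y * y / 0.69 := by
        refine div_le_div₀ (by positivity) ?_ (by norm_num) (by linarith)
        exact mul_le_mul_of_nonneg_left hRy (by positivity)
      have h3 : 2 * y * y / 0.69 = (2 / 0.69) * (y * y) := by ring
      rw [h3] at h2
      have h4 : 0 ≤ y * y := by positivity
      have h5 : (1 + 3 * y) ^ 2 = 1 + 6 * y + 9 * (y * y) := by ring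
      rw [h5]
      norm_num at h2
      linarith
    have h2 := Real.log_le_log (by positivity) h1
    rw [Real.log_pow, Real.log_pow] at h2
    have h3 := Real.log_le_sub_one_of_pos (by positivity : 0 < 1 + 3 * y)
    push_cast at h2
    have h4 : (J : ℝ) * 0.69 ≤ J * Real.log 2 :=
      mul_le_mul_of_nonneg_left (by linarith) (Nat.cast_nonneg J)
    have h5 : (J : ℝ) * 0.69 ≤ 6 * y := by linarith
    linarith
  obtain ⟨B, hB⟩ : ∃ B : ℝ, B = Real.exp (y * (786434 * (x * Real.log (2 / x)))) := ⟨_, rfl⟩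
  have hBn : (n : ℝ) ^ (786434 * (x * Real.log (2 / x))) = B := by
    rw [Real.rpow_def_of_pos hn0, ← hy, hB]
  rw [hBn] at hK
  have hB1 : 1 ≤ B := by
    rw [hB]
    apply Real.one_le_exp
    rw [hlog2]
    positivity
  have hexpE : Real.exp E1 ≤ 55 * B := by
    have h1 : Real.exp E1 ≤ Real.exp 4 * B := by
      rw [hB, ← Real.exp_add]
      apply Real.exp_le_exp.2
      rw [hlog2]
      have h2 : 0 ≤ x * Real.log 2 * y := by positivity
      have h3 : 0 ≤ x * Real.log (1 / x) * y := by positivity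
      have h4 : y * (786434 * (x * (Real.log 2 + Real.log (1 / x)))) =
          786434 * (x * Real.log 2 * y) + 786434 * (x * Real.log (1 / x) * y) := by ring
      rw [h4]
      linarith
    exact h1.trans (mul_le_mul_of_nonneg_right exp_four_le (by linarith))
  have hexpQ : Real.exp E1 * (n : ℝ) ^ q ≤ 149 * B := by
    have h1 : Real.exp E1 * (n : ℝ) ^ q ≤ Real.exp 5 * B := by
      rw [hB, Real.rpow_def_of_pos hn0, ← hy, ← Real.exp_add, ← Real.exp_add]
      apply Real.exp_le_exp.2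
      have h4 : y * q ≤ y * x + 1 := by
        have h5 := mul_le_mul_of_nonneg_left hqs hy0.le
        have h6 : y * (1 / (1 + y)) ≤ 1 := by
          rw [mul_one_div, div_le_one (by linarith)]
          linarith
        linarith
      rw [hlog2]
      have h2 : 0.69 * (x * y) ≤ Real.log 2 * (x * y) :=
        mul_le_mul_of_nonneg_right (by linarith) (by positivity)
      have h3 : 0 ≤ x * Real.log (1 / x) * y := by positivity
      have h7 : 0 ≤ x * y := by positivity
      have h8 : y * (786434 * (x * (Real.log 2 + Real.log (1 / x)))) =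
          786434 * (Real.log 2 * (x * y)) + 786434 * (x * Real.log (1 / x) * y) := by ring
      rw [h8]
      linarith
    exact h1.trans (mul_le_mul_of_nonneg_right exp_five_le (by linarith))
  refine ⟨q, J, ⌈131072 * (Real.exp E1 * (n : ℝ) ^ q)⌉₊, ⌈1 + 2 * ((J : ℝ) + 1) * Real.exp E1⌉₊,
    hq0, by rw [← hR, hT]; exact hJ1, by rw [← hE1]; exact Nat.le_ceil _, ?_, ?_⟩
  · rw [← hE1]
    have h1 := Nat.le_ceil (131072 * (Real.exp E1 * (n : ℝ) ^ q))
    have h2 : 0 < Real.exp (-E1) * (n : ℝ) ^ (-q) :=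
      mul_pos (Real.exp_pos _) (Real.rpow_pos_of_pos hn0 _)
    have h3 : (Real.exp E1 * (n : ℝ) ^ q) * (Real.exp (-E1) * (n : ℝ) ^ (-q)) = 1 := by
      have h4 : Real.exp E1 * Real.exp (-E1) = 1 := by rw [← Real.exp_add]; simp
      have h5 : (n : ℝ) ^ q * (n : ℝ) ^ (-q) = 1 := by
        rw [← Real.rpow_add hn0]; simp
      calc _ = (Real.exp E1 * Real.exp (-E1)) * ((n : ℝ) ^ q * (n : ℝ) ^ (-q)) := by ring
        _ = 1 := by rw [h4, h5, one_mul]
    have h4 := mul_le_mul_of_nonneg_right h1 h2.le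
    have h5 : 131072 * (Real.exp E1 * (n : ℝ) ^ q) * (Real.exp (-E1) * (n : ℝ) ^ (-q)) =
        131072 * ((Real.exp E1 * (n : ℝ) ^ q) * (Real.exp (-E1) * (n : ℝ) ^ (-q))) := by ring
    rw [h5, h3] at h4
    have h6 : (⌈131072 * (Real.exp E1 * (n : ℝ) ^ q)⌉₊ : ℝ) *
        ((1 / 32) ^ 2 / 64 * (Real.exp (-E1) * (n : ℝ) ^ (-q))) =
        1 / 65536 * ((⌈131072 * (Real.exp E1 * (n : ℝ) ^ q)⌉₊ : ℝ) *
          (Real.exp (-E1) * (n : ℝ) ^ (-q))) := by ring
    rw [h6]
    linarith
  · have h1 := (Nat.ceil_lt_add_one (by positivity :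
      0 ≤ 131072 * (Real.exp E1 * (n : ℝ) ^ q))).le
    have h2 := (Nat.ceil_lt_add_one (by positivity :
      0 ≤ 1 + 2 * ((J : ℝ) + 1) * Real.exp E1)).le
    have h3 : 2 * ((J : ℝ) + 1) * Real.exp E1 ≤ 990 * ((1 + y) * B) := by
      calc 2 * ((J : ℝ) + 1) * Real.exp E1 ≤ 2 * (9 * (1 + y)) * (55 * B) := by
            refine mul_le_mul (by linarith) hexpE (Real.exp_pos _).le (by positivity)
        _ = 990 * ((1 + y) * B) := by ring
    have h4 : B ≤ (1 + y) * B := le_mul_of_one_le_left (by linarith) (by linarith)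
    norm_num at hK
    linarith

section
variable {U V A E : Type} [Fintype U] [Fintype V] [Fintype E] [Fintype A] [DecidableEq A]

omit [Fintype U] [Fintype V] [Fintype E] in
theorem rl_perm_sa (p q : Equiv.Perm A) (a b : A) :
    rl (p : A → A) (q : A → A) (fun x y => (if x = a then (1 : ℝ) else 0) * (if y = b then 1 else 0)) =
      if p a = q b then 1 else 0 := by
  unfold rl
  rw [sum_eq_single a]
  · rw [sum_eq_single b]
    · simp
    · intro y _ hy
      simp [hy]
    · intro h; exact absurd (mem_univ _) h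
  · intro x _ hx
    refine sum_eq_zero fun y _ => ?_
    simp [hx]
  · intro h; exact absurd (mem_univ _) h

/-- completeness `1 - ε` with small `ε` -/
theorem coreA_sa [DecidableEq U] [DecidableEq V] (u : E → U) (v : E → V) (π : E → Equiv.Perm A)
    (ε l x : ℝ) (hε : 0 < ε) (hε1 : ε ≤ 1 / 49152) (hl : Real.log 2 ≤ l)
    (hx : x = ε / l) (hln : l ≤ Real.log (Fintype.card U)) (K : ℕ)
    (hK : 2 ^ 26 * ((1 + Real.log (Fintype.card U)) *
      (Fintype.card U : ℝ) ^ (786434 * (x * Real.log (2 / x)))) ≤ K)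
    (L : ((U ⊕ V → A) → ℝ) →ₗ[ℝ] ℝ) (hL : SA K L)
    (hval : (1 - ε) * (Fintype.card E : ℝ) ≤
      ∑ e, L (sat (Sum.inl (u e)) (Sum.inr (v e)) (π e))) :
    ∃ X : U ⊕ V → A, Real.exp (-l) / 8192 * (Fintype.card E : ℝ) ≤
      ((univ.filter fun e => π e (X (Sum.inl (u e))) = X (Sum.inr (v e))).card : ℝ) := by
  classical
  have hne : Nonempty (U ⊕ V → A) := by
    by_contra hcon
    rw [not_nonempty_iff] at hcon
    have h1 := hL.one
    have h2 : (fun _ : U ⊕ V → A => (1 : ℝ)) = 0 := Subsingleton.elim _ _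
    rw [h2, map_zero] at h1
    exact zero_ne_one h1
  obtain ⟨X0⟩ := hne
  rcases Nat.eq_zero_or_pos (Fintype.card E) with hE | hE
  · refine ⟨X0, ?_⟩
    rw [hE]
    simp
  have hE0 : (0 : ℝ) < Fintype.card E := by exact_mod_cast hE
  obtain ⟨e0⟩ : Nonempty E := Fintype.card_pos_iff.1 hE
  have hA : Nonempty A := ⟨X0 (Sum.inl (u e0))⟩
  have hl0 : 0 < l := lt_of_lt_of_le (Real.log_pos (by norm_num)) hl
  have hlog : 0 < Real.log (Fintype.card U) := by linarith
  have hn : 0 < Fintype.card U := Fintype.card_pos_iff.2 ⟨u e0⟩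
  have hn0 : (0 : ℝ) < Fintype.card U := by exact_mod_cast hn
  have hx0 : 0 < x := by rw [hx]; positivity
  set s : E → U ⊕ V := fun e => Sum.inl (u e) with hs
  set t : E → U ⊕ V := fun e => Sum.inr (v e) with ht
  obtain ⟨q, J, k, N, hq, hJ, hNJ, hk, hkN⟩ := numA_sa (Fintype.card U) ε l x hε hε1 hl hx hln K hK
  have hkN' : k + (N + 3) ≤ K := by exact_mod_cast hkN
  have hL' : SA (k + (N + 3)) L := hL.mono hkN'
  have hsat1 : ∀ e, L (sat (s e) (t e) (π e)) ≤ 1 := fun e => sat_le_sa hL' (by omega) _ _ _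
  -- good edges
  set G : E → Prop := fun e => 1 - L (sat (s e) (t e) (π e)) ≤ 2 * ε with hG
  set ω : E → ℝ := fun e => if G e then (1 : ℝ) else 0 with hωd
  have hω : ∀ e, 0 ≤ ω e := fun e => by simp only [hωd]; split_ifs <;> norm_num
  have hgood : (Fintype.card E : ℝ) / 2 ≤ ∑ e, ω e := by
    have h1 : ∀ e, 1 - (1 - L (sat (s e) (t e) (π e))) / (2 * ε) ≤ ω e := by
      intro e
      simp only [hωd]
      by_cases h : G e
      · rw [if_pos h]
        have : 0 ≤ (1 - L (sat (s e) (t e) (π e))) / (2 * ε) :=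
          div_nonneg (by linarith [hsat1 e]) (by linarith)
        linarith
      · rw [if_neg h]
        simp only [hG, not_le] at h
        have : 1 ≤ (1 - L (sat (s e) (t e) (π e))) / (2 * ε) := by
          rw [one_le_div (by linarith)]; exact h.le
        linarith
    have h2 := sum_le_sum fun e (_ : e ∈ (univ : Finset E)) => h1 e
    rw [sum_sub_distrib, sum_const, card_univ, nsmul_eq_mul, mul_one, ← sum_div,
      sum_sub_distrib, sum_const, card_univ, nsmul_eq_mul, mul_one] at h2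
    have h3 : ((Fintype.card E : ℝ) - ∑ e, L (sat (s e) (t e) (π e))) / (2 * ε) ≤
        Fintype.card E / 2 := by
      rw [div_le_iff₀ (by linarith)]
      have : (Fintype.card E : ℝ) / 2 * (2 * ε) = ε * Fintype.card E := by ring
      rw [this]
      linarith
    linarith
  have hD : 0 < ∑ e, ω e := lt_of_lt_of_le (by positivity) hgood
  have hκ0 : 0 < l / (2 * Real.log (Fintype.card U)) := by positivity
  have hκ1 : l / (2 * Real.log (Fintype.card U)) < 1 := by
    rw [div_lt_one (by positivity)]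
    linarith
  have hβe : (Fintype.card U : ℝ) ^ (-(2 * (l / (2 * Real.log (Fintype.card U))))) =
      Real.exp (-l) := by
    rw [Real.rpow_def_of_pos hn0]
    congr 1
    field_simp
  set S0 : Finset (U ⊕ V) := univ.map Function.Embedding.inl with hS0
  have hSc : S0.card = Fintype.card U := by rw [hS0, card_map, card_univ]
  have hsS : ∀ e, s e ∈ S0 := fun e => by simp [hs, hS0]
  have hpart := fun (U0 : Finset (U ⊕ V)) (hU0 : U0 ⊆ S0) =>
    part_round (hier_sa (U ⊕ V) A N) (fun k L h => tri_sa h (by omega)) s t π ω hω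
      hD (Fintype.card U) hn (l / (2 * Real.log (Fintype.card U))) q (2 * ε)
      (12288 * (2 * ε)) hκ0 hκ1 hq (by linarith) le_rfl (by linarith) J hJ hNJ k hk L hL'
      (fun e he => by
        by_contra hcon
        have h1 : ω e = 0 := by
          simp only [hωd]
          rw [if_neg]
          exact hcon
        linarith) U0 (by rw [← hSc]; exact card_le_card hU0)
  rw [hβe] at hpart
  have hpart2 : ∀ U0 : Finset (U ⊕ V), U0 ⊆ S0 → (∑ e, ω e) / 2 ≤
      bil (K2 s t ω) (fun v => if v ∈ U0 then 1 else 0) (fun v => if v ∈ U0 then 1 else 0) →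
      ∃ (p : U ⊕ V → A → ℝ) (S : Finset (U ⊕ V)), IsP p ∧ S.Nonempty ∧ S ⊆ U0 ∧
        Real.exp (-l) / 1024 * ∑ u ∈ S, ds s ω u ≤ gf s t (fun e => (π e : A → A)) ω p S := by
    intro U0 hU0 hU
    obtain ⟨X, S, hS, hSU, hSb⟩ := hpart U0 hU0 hU
    refine ⟨fun v a => if a = X v then 1 else 0, S,
      ⟨fun v a => by beta_reduce; split_ifs <;> norm_num, fun v => by simp⟩, hS, hSU, ?_⟩
    refine hSb.trans (le_of_eq ?_)
    unfold gf
    congr 1
    funext e e'
    rw [rl_perm_sa]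
    by_cases h1 : s e ∈ S ∧ s e' ∈ S
    · by_cases h2 : π e (X (s e)) = π e' (X (s e'))
      · rw [if_pos ⟨h1, h2⟩, if_pos h1, if_pos h2]; norm_num
      · rw [if_neg (fun h => h2 h.2), if_pos h1, if_neg h2]; norm_num
    · rw [if_neg (fun h => h1 h.1), if_neg h1]; norm_num
  obtain ⟨X, Y, hXY⟩ := two_sided s t (fun e => (π e : A → A)) ω hω (Real.exp (-l) / 1024)
    (by positivity) S0 hsS hpart2 (fun _ a => if a = X0 (Sum.inl (u e0)) then 1 else 0)
    ⟨fun _ a => by beta_reduce; split_ifs <;> norm_num, fun _ => by simp⟩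
  refine ⟨Sum.elim (fun w => X (Sum.inl w)) (fun w => Y (Sum.inr w)), ?_⟩
  have h1 : ∑ e, ω e * (if π e (X (s e)) = Y (t e) then 1 else 0) ≤
      ((univ.filter fun e => π e (Sum.elim (fun w => X (Sum.inl w)) (fun w => Y (Sum.inr w))
        (Sum.inl (u e) : U ⊕ V)) = Sum.elim (fun w => X (Sum.inl w)) (fun w => Y (Sum.inr w))
        (Sum.inr (v e) : U ⊕ V)).card : ℝ) := by
    rw [card_filter]
    push_cast
    refine sum_le_sum fun e _ => ?_
    simp only [hωd, hs, ht, Sum.elim_inl, Sum.elim_inr]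
    split_ifs <;> norm_num
  refine le_trans ?_ (hXY.trans h1)
  have h2 : Real.exp (-l) / 1024 * ((Fintype.card E : ℝ) / 2) ≤
      Real.exp (-l) / 1024 * ∑ e, ω e :=
    mul_le_mul_of_nonneg_left hgood (by positivity)
  linarith


end

end Pool.Agent.Y572.SA
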