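import Pool.Agent.TH522.DG.Hier
import Pool.Agent.Y572.SA.Pair

set_option autoImplicit false

/-!
The Sherali-Adams hierarchy for games with two sides, and the correlation of pairs of edges.
-/

namespace Pool.Agent.Y572.SA

open Finset Pool.Agent.H647R3.UG Pool.Agent.H573R3.SL Pool.Agent.TH522.UG Pool.Agent.TH522.US
  Pool.Agent.TH522.DG

/-- Sherali-Adams of level `k` for games with two sides: `L` is normalised and nonnegative on the
nonnegative functions of at most `k` labels -/
structure SA2 {V W A B : Type} (k : ℕ) (L : ((W → A) × (V → B) → ℝ) →ₗ[ℝ] ℝ) : Prop where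
  one : L (fun _ => 1) = 1
  junta : ∀ (S : Finset W) (T : Finset V), S.card + T.card ≤ k →
    ∀ f : (W → A) × (V → B) → ℝ, Dep2 S T f → (∀ z, 0 ≤ f z) → 0 ≤ L f

section
variable {V W A B E : Type} [Fintype V] [Fintype W]

omit [Fintype V] [Fintype W] in
theorem SA2.mono {k j : ℕ} {L : ((W → A) × (V → B) → ℝ) →ₗ[ℝ] ℝ} (hL : SA2 k L) (h : j ≤ k) :
    SA2 j L := ⟨hL.one, fun S T hS => hL.junta S T (hS.trans h)⟩

theorem pj_sa (a0 : A) (k : ℕ) (L : ((W → A) × (V → B) → ℝ) →ₗ[ℝ] ℝ) (hL : SA2 k L) :
    SA k (pj a0 L) := by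
  refine ⟨hL.one, fun S hS f hf hf0 => ?_⟩
  have hcard : S.toLeft.card + (∅ : Finset V).card ≤ S.card := by
    have := S.card_toLeft_add_card_toRight
    rw [card_empty]
    omega
  refine hL.junta S.toLeft ∅ (hcard.trans hS) _ ?_ fun z => hf0 _
  intro z z' h1 _
  refine hf _ _ fun v hv => ?_
  rcases v with v | v
  · simp only [Sum.elim_inl]
    exact h1 v (mem_toLeft.2 hv)
  · simp only [Sum.elim_inr]

variable [Fintype E] [Fintype A] [DecidableEq A] [Fintype B] [DecidableEq B] [DecidableEq V]
  [DecidableEq W]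

/-- the label which the edge `e` (or the vertex `v0` itself) proposes for `v0` -/
def lb2 (w : E → W) (π : E → A → B) (v0 : V) (i : Option E) (z : (W → A) × (V → B)) : B :=
  i.elim (z.2 v0) fun e => π e (z.1 (w e))

/-- agreement of two proposals -/
noncomputable def ag2 (w : E → W) (π : E → A → B) (v0 : V)
    (L : ((W → A) × (V → B) → ℝ) →ₗ[ℝ] ℝ) (i j : Option E) : ℝ :=
  L fun z => if lb2 w π v0 i z = lb2 w π v0 j z then 1 else 0

omit [Fintype V] [Fintype W] [Fintype E] [Fintype A] [DecidableEq A] [DecidableEq V] in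
theorem ag2_loc {k N : ℕ} (w : E → W) (π : E → A → B) (v0 : V)
    {L : ((W → A) × (V → B) → ℝ) →ₗ[ℝ] ℝ} (hL : SA2 k L) (hk : N + 2 ≤ k) :
    Loc N (ag2 w π v0 L) := by
  classical
  intro φ c
  have h1 : ∑ i, ∑ j, c i * c j * ag2 w π v0 L (φ i) (φ j) =
      L fun z => ∑ b, (∑ i, c i * (if lb2 w π v0 (φ i) z = b then 1 else 0)) ^ 2 := by
    have h2 : (fun z : (W → A) × (V → B) =>
        ∑ b, (∑ i, c i * (if lb2 w π v0 (φ i) z = b then (1 : ℝ) else 0)) ^ 2)
        = ∑ i, ∑ j, (c i * c j) • fun z => if lb2 w π v0 (φ i) z = lb2 w π v0 (φ j) z then (1 : ℝ)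
          else 0 := by
      funext z
      simp only [Finset.sum_apply, Pi.smul_apply, smul_eq_mul]
      have h3 : ∀ b, (∑ i, c i * (if lb2 w π v0 (φ i) z = b then (1 : ℝ) else 0)) ^ 2 =
          ∑ i, ∑ j, c i * c j * ((if lb2 w π v0 (φ i) z = b then (1 : ℝ) else 0) *
            (if lb2 w π v0 (φ j) z = b then (1 : ℝ) else 0)) := by
        intro b
        rw [sq, sum_mul_sum]
        exact sum_congr rfl fun i _ => sum_congr rfl fun j _ => by ring
      simp only [h3]
      rw [sum_comm]
      refine sum_congr rfl fun i _ => ?_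
      rw [sum_comm]
      refine sum_congr rfl fun j _ => ?_
      rw [← mul_sum]
      congr 1
      simp only [ite_mul, one_mul, zero_mul]
      rw [sum_ite_eq, if_pos (mem_univ _)]
      by_cases h : lb2 w π v0 (φ i) z = lb2 w π v0 (φ j) z
      · rw [if_pos h, if_pos h.symm]
      · rw [if_neg h, if_neg fun h' => h h'.symm]
    rw [h2]
    simp only [map_sum, map_smul, smul_eq_mul]
    rfl
  rw [h1]
  refine hL.junta (univ.biUnion fun i => (φ i).elim ∅ fun e => {w e}) {v0} ?_ _ ?_ fun z =>
    sum_nonneg fun b _ => sq_nonneg _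
  · have h2 : (univ.biUnion fun i => (φ i).elim ∅ fun e => ({w e} : Finset W)).card ≤
        (univ : Finset (Option (Fin N))).card * 1 := by
      refine card_biUnion_le_card_mul _ _ _ fun i _ => ?_
      cases φ i with
      | none => simp
      | some e => simp
    rw [card_univ, Fintype.card_option, Fintype.card_fin, mul_one] at h2
    rw [card_singleton]
    omega
  · intro z z' h h'
    refine sum_congr rfl fun b _ => ?_
    congr 1
    refine sum_congr rfl fun i _ => ?_
    have h2 : lb2 w π v0 (φ i) z = lb2 w π v0 (φ i) z' := by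
      unfold lb2
      cases h4 : φ i with
      | none => exact h' v0 (mem_singleton_self _)
      | some e =>
        have h3 := h (w e) (mem_biUnion.2 ⟨i, mem_univ _, by rw [h4]; simp⟩)
        show π e (z.1 (w e)) = π e (z'.1 (w e))
        rw [h3]
    rw [h2]

/-- correlation of the pairs of edges -/
theorem pair_corr_sa2 {k N : ℕ} (hN : 0 < N) {L : ((W → A) × (V → B) → ℝ) →ₗ[ℝ] ℝ}
    (hL : SA2 k L) (hk : N + 2 ≤ k) (a0 : A) (v : E → V) (w : E → W) (π : E → A → B)
    (ω : E → ℝ) (hω : ∀ e, 0 ≤ ω e) (c1 : ℝ) (hc1 : 0 ≤ c1)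
    (hsat : ∀ e, 0 < ω e → c1 ≤ L (satE v w π e)) (F : W ⊕ V → ℝ) (hF : ∀ z, 0 ≤ F z) :
    (c1 ^ 2 - 1 / N) *
      bil (K2 (fun e => (Sum.inl (w e) : W ⊕ V)) (fun e => Sum.inr (v e)) ω) F F ≤
      SatF (fun e => (Sum.inl (w e) : W ⊕ V)) (fun e => Sum.inr (v e)) π ω F (pj a0 L) := by
  classical
  have hN0 : (0 : ℝ) < N := by exact_mod_cast hN
  set s : E → W ⊕ V := fun e => Sum.inl (w e) with hs
  set t : E → W ⊕ V := fun e => Sum.inr (v e) with ht
  have hP : ∀ (v0 : V) (e e' : E), ag2 w π v0 L (some e) (some e') =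
      rl (π e) (π e') (pr2 (pj a0 L) (s e) (s e')) := by
    intro v0 e e'
    unfold rl
    have h2 : ∀ a a', (if π e a = π e' a' then pr2 (pj a0 L) (s e) (s e') a a' else 0) =
        L (fun z => if π e a = π e' a' then (if z.1 (w e) = a then 1 else 0) *
          (if z.1 (w e') = a' then 1 else 0) else 0) := by
      intro a a'
      by_cases h : π e a = π e' a'
      · simp only [if_pos h]
        rfl
      · simp only [if_neg h]
        exact (map_zero L).symm
    simp only [h2, ← map_sum]
    unfold ag2 lb2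
    congr 1
    funext z
    simp only [Finset.sum_apply, Option.elim_some]
    rw [sum_eq_single (z.1 (w e))]
    · rw [sum_eq_single (z.1 (w e'))]
      · by_cases h : π e (z.1 (w e)) = π e' (z.1 (w e')) <;> simp [h]
      · intro a' _ ha'
        simp [Ne.symm ha']
      · intro h; exact absurd (mem_univ _) h
    · intro a _ ha
      refine sum_eq_zero fun a' _ => ?_
      simp [Ne.symm ha]
    · intro h; exact absurd (mem_univ _) h
  have hP0 : ∀ (e e' : E), 0 ≤ rl (π e) (π e') (pr2 (pj a0 L) (s e) (s e')) :=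
    fun e e' => rl_nonneg _ _ _ (law_sa (pj_sa a0 k L hL) (by omega) (s e) (s e')).nonneg
  have hone : ∀ (v0 : V) (i : Option E), ag2 w π v0 L i i = 1 := by
    intro v0 i
    unfold ag2
    simp only [if_true]
    exact hL.one
  have hsym : ∀ (v0 : V) (i j : Option E), ag2 w π v0 L i j = ag2 w π v0 L j i := by
    intro v0 i j
    unfold ag2
    congr 1
    funext x
    by_cases h : lb2 w π v0 i x = lb2 w π v0 j x
    · rw [if_pos h, if_pos h.symm]
    · rw [if_neg h, if_neg fun h' => h h'.symm]
  rw [bil_K2]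
  unfold SatF
  rw [PS_tau, PS_tau, mul_sum]
  refine sum_le_sum fun τ _ => ?_
  rw [← mul_div_assoc]
  refine div_le_div_of_nonneg_right ?_ (bd_nonneg t ω hω τ)
  rcases τ with w' | v0
  · have h3 : ∀ e, t e ≠ Sum.inl w' := fun e => by simp [ht]
    simp only [h3, if_false, zero_mul, sum_const_zero, mul_zero, le_refl]
  have ht2 : ∀ e, (t e = Sum.inr v0) = (v e = v0) := fun e => by simp [ht]
  simp only [ht2]
  set z : E → ℝ := fun e => (if v e = v0 then ω e else 0) * F (s e) with hz
  have hz0 : ∀ e, 0 ≤ z e := fun e => mul_nonneg (by split_ifs; exacts [hω e, le_rfl]) (hF _)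
  have e1 : ∑ e, ∑ e', (if v e = v0 then ω e else 0) * (if v e' = v0 then ω e' else 0) *
      (F (s e) * F (s e')) = (∑ e, z e) ^ 2 := by
    rw [sq, sum_mul_sum]
    exact sum_congr rfl fun e _ => sum_congr rfl fun e' _ => by simp only [hz]; ring
  have e2 : ∑ e, ∑ e', (if v e = v0 then ω e else 0) * (if v e' = v0 then ω e' else 0) *
      (F (s e) * F (s e') * rl (π e) (π e') (pr2 (pj a0 L) (s e) (s e'))) =
      ∑ e, ∑ e', z e * z e' * ag2 w π v0 L (some e) (some e') :=
    sum_congr rfl fun e _ => sum_congr rfl fun e' _ => by rw [hP]; simp only [hz]; ring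
  rw [e1, e2]
  set Y := ∑ e, z e with hY
  have hY0 : 0 ≤ Y := sum_nonneg fun e _ => hz0 e
  have hQ0 : 0 ≤ ∑ e, ∑ e', z e * z e' * ag2 w π v0 L (some e) (some e') :=
    sum_nonneg fun e _ => sum_nonneg fun e' _ => by
      rw [hP]
      exact mul_nonneg (mul_nonneg (hz0 e) (hz0 e')) (hP0 e e')
  rcases hY0.eq_or_lt with h0 | h0
  · rw [← h0]
    simpa using hQ0
  -- the inequality for the centre `v0`
  set b : Option E → ℝ := fun i => i.elim 0 fun e => z e / Y with hb
  have hstar := star hN (ag2_loc (N := N) w π v0 hL hk) (hsym v0) b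
    (fun i => by
      cases i with
      | none => exact le_rfl
      | some e => exact div_nonneg (hz0 e) h0.le)
    (by
      rw [Fintype.sum_option]
      simp only [hb, Option.elim_none, Option.elim_some, zero_add]
      rw [← sum_div, ← hY, div_self h0.ne']) none (∑ i, b i * ag2 w π v0 L none i)
  have f1 : ∑ i, b i * ag2 w π v0 L i i = 1 := by
    simp only [hone, mul_one]
    rw [Fintype.sum_option]
    simp only [hb, Option.elim_none, Option.elim_some, zero_add]
    rw [← sum_div, ← hY, div_self h0.ne']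
  have f2 : ∑ i, ∑ j, b i * b j * ag2 w π v0 L i j =
      (∑ e, ∑ e', z e * z e' * ag2 w π v0 L (some e) (some e')) / Y ^ 2 := by
    simp only [Fintype.sum_option]
    simp only [hb, Option.elim_none, Option.elim_some, zero_mul, mul_zero, zero_add,
      sum_const_zero]
    rw [sum_div]
    refine sum_congr rfl fun e _ => ?_
    rw [sum_div]
    refine sum_congr rfl fun e' _ => ?_
    field_simp
  have f3 : c1 ≤ ∑ i, b i * ag2 w π v0 L none i := by
    rw [Fintype.sum_option]
    simp only [hb, Option.elim_none, Option.elim_some, zero_mul, zero_add]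
    have h1 : ∑ e, z e / Y * c1 ≤ ∑ e, z e / Y * ag2 w π v0 L none (some e) := by
      refine sum_le_sum fun e _ => ?_
      rcases (hz0 e).eq_or_lt with h2 | h2
      · rw [← h2]; simp
      · refine mul_le_mul_of_nonneg_left ?_ (div_nonneg (hz0 e) h0.le)
        by_cases h3 : v e = v0
        · have h4 : 0 < ω e := by
            rcases (hω e).eq_or_lt with h5 | h5
            · simp only [hz, ← h5, ite_self, zero_mul, lt_irrefl] at h2
            · exact h5
          refine (hsat e h4).trans (le_of_eq ?_)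
          unfold ag2 lb2
          congr 1
          funext x
          unfold satE
          simp only [Option.elim_none, Option.elim_some]
          rw [h3]
          by_cases h6 : π e (x.1 (w e)) = x.2 v0
          · rw [if_pos h6, if_pos h6.symm]
          · rw [if_neg h6, if_neg fun h' => h6 h'.symm]
        · simp only [hz, if_neg h3, zero_mul, lt_irrefl] at h2
    refine le_trans (le_of_eq ?_) h1
    rw [← sum_mul, ← sum_div, ← hY, div_self h0.ne', one_mul]
  rw [f1, f2, hone] at hstar
  set ρ := ∑ i, b i * ag2 w π v0 L none i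
  set q := (∑ e, ∑ e', z e * z e' * ag2 w π v0 L (some e) (some e')) / Y ^ 2 with hq
  have hq0 : 0 ≤ q := div_nonneg hQ0 (sq_nonneg _)
  have h5 : ρ ^ 2 - 1 / N ≤ q := by
    have h6 : 0 ≤ 1 / (N : ℝ) * q := by positivity
    nlinarith
  have h7 : c1 ^ 2 ≤ ρ ^ 2 := pow_le_pow_left₀ hc1 f3 2
  have h8 : (c1 ^ 2 - 1 / N) * Y ^ 2 ≤ q * Y ^ 2 :=
    mul_le_mul_of_nonneg_right (by linarith) (sq_nonneg _)
  rw [hq, div_mul_cancel₀ _ (by positivity)] at h8
  exact h8

end

end Pool.Agent.Y572.SA
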