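import Pool.Agent.Y572.SA.Two
import Pool.Agent.Y572.SA.Small

set_option autoImplicit false

/-!
Rounding of the Sherali-Adams hierarchy for projection games with fibres of at most `d` elements.
-/

namespace Pool.Agent.Y572.SA

open Finset Pool.Agent.H647R3.UG Pool.Agent.H573R3.SL Pool.Agent.TH522.UG Pool.Agent.TH522.US
  Pool.Agent.TH522.DG

/-- the number of levels -/
theorem numE_sa (n d : ℕ) (hd : 0 < d) (c l x : ℝ) (hc : 0 < c) (hc1 : c ≤ 1)
    (hx : x = Real.log (1024 * d / c ^ 4) / l) (hl : Real.log (1024 * d / c ^ 4) ≤ l)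
    (hln : l ≤ Real.log n) (K : ℝ)
    (hK : 16 * ((1 + Real.log n) * (n : ℝ) ^ (16 * (x * Real.log (2 / x)))) ≤ K) :
    ∃ (J k N : ℕ), Real.log (1 / x) / (l / (2 * Real.log n)) ≤ 2 ^ J ∧
      1 + 2 * ((J : ℝ) + 1) * Real.exp (4 * (2 ^ J * Real.log (1024 * d / c ^ 4))) ≤ N ∧
      8 / c ^ 2 ≤ N ∧
      1 ≤ k * (c ^ 2 / 8 / 2 * (((c ^ 2 / 8 / 4) ^ 2 / (d : ℝ)) ^ 2 *
        (Real.exp (-(4 * (2 ^ J * Real.log (1024 * d / c ^ 4)))) * (n : ℝ) ^ (-x)))) ∧
      ((k : ℝ) + (N + 3)) ≤ K := by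
  have hl2 := Real.log_two_gt_d9
  have hl2' := Real.log_two_lt_d9
  have hc2 : c ^ 2 ≤ 1 := pow_le_one₀ hc.le hc1
  have hc4 : c ^ 4 ≤ 1 := pow_le_one₀ hc.le hc1
  have hc40 : 0 < c ^ 4 := pow_pos hc 4
  have hd0 : (0 : ℝ) < d := by exact_mod_cast hd
  have hd1 : (1 : ℝ) ≤ d := by exact_mod_cast hd
  have hR0 : (1024 : ℝ) ≤ 1024 * d / c ^ 4 := by
    rw [le_div_iff₀ hc40]
    linarith
  obtain ⟨Λ, hΛ⟩ : ∃ Λ, Λ = Real.log (1024 * d / c ^ 4) := ⟨_, rfl⟩
  rw [← hΛ] at hx hl ⊢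
  have hΛ1 : 6.9 ≤ Λ := by
    have h1 : Real.log 1024 ≤ Λ := by
      rw [hΛ]; exact Real.log_le_log (by norm_num) hR0
    have h2 : Real.log 1024 = 10 * Real.log 2 := by
      have : (1024 : ℝ) = 2 ^ 10 := by norm_num
      rw [this, Real.log_pow]
      push_cast
      ring
    linarith
  have heΛ : Real.exp Λ = 1024 * d / c ^ 4 := by rw [hΛ, Real.exp_log (by positivity)]
  have hl0 : 0 < l := by linarith
  obtain ⟨y, hy⟩ : ∃ y, y = Real.log n := ⟨_, rfl⟩
  rw [← hy] at hln hK ⊢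
  have hy0 : 6.9 ≤ y := by linarith
  have hn0 : (0 : ℝ) < n := by
    rcases Nat.eq_zero_or_pos n with h | h
    · rw [hy, h] at hy0; norm_num at hy0
    · exact_mod_cast h
  have hx0 : 0 < x := by rw [hx]; positivity
  have hx1 : x ≤ 1 := by rw [hx, div_le_one hl0]; exact hl
  have hxl : x * l = Λ := by rw [hx]; field_simp
  have hxy : Λ ≤ x * y := by
    rw [← hxl]
    exact mul_le_mul_of_nonneg_left hln hx0.le
  obtain ⟨R, hR⟩ : ∃ R, R = Real.log (1 / x) := ⟨_, rfl⟩
  have hR00 : 0 ≤ R := by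
    rw [hR]; exact Real.log_nonneg (by rw [le_div_iff₀ hx0]; linarith)
  have hlog2 : Real.log (2 / x) = Real.log 2 + R := by
    rw [hR, ← Real.log_mul (by norm_num) (by positivity)]
    congr 1
    ring
  have hRy : R ≤ y := by
    have h1 : 1 / x ≤ y := by
      rw [div_le_iff₀ hx0]
      linarith
    have h2 : R ≤ Real.log y := by
      rw [hR]; exact Real.log_le_log (by positivity) h1
    have h3 := Real.log_le_sub_one_of_pos (by linarith : 0 < y)
    linarith
  have hT : R / (l / (2 * y)) = 2 * y * R / l := by field_simp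
  have hT0 : 0 ≤ 2 * y * R / l := by
    have : 0 ≤ y := by linarith
    positivity
  obtain ⟨J, hJ1, hJ2⟩ := pow_near (2 * y * R / l) hT0
  obtain ⟨E1, hE1⟩ : ∃ E1 : ℝ, E1 = 4 * (2 ^ J * Λ) := ⟨_, rfl⟩
  have hE : E1 ≤ 16 * (x * R) * y + 4 * (x * y) := by
    have h1 : E1 ≤ 4 * Λ * (2 * (2 * y * R / l) + 1) := by
      rw [hE1]
      have := mul_le_mul_of_nonneg_left hJ2 (by linarith : 0 ≤ 4 * Λ)
      linarith
    have h2 : 4 * Λ * (2 * (2 * y * R / l) + 1) = 16 * (x * R) * y + 4 * Λ := by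
      rw [hx]
      field_simp
      ring
    linarith
  have hJb : (J : ℝ) + 1 ≤ 3 * (1 + y) := by
    have h1 : (2 : ℝ) ^ J ≤ (1 + y) ^ 2 := by
      have h2 : 2 * y * R / l ≤ 2 * y * y / 6.9 := by
        refine div_le_div₀ (mul_nonneg (by linarith) (by linarith)) ?_ (by norm_num) (by linarith)
        exact mul_le_mul_of_nonneg_left hRy (by linarith)
      have h3 : 2 * y * y / 6.9 = (2 / 6.9) * (y * y) := by ring
      rw [h3] at h2
      have h4 : 0 ≤ y * y := mul_nonneg (by linarith) (by linarith)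
      have h5 : (1 + y) ^ 2 = 1 + 2 * y + y * y := by ring
      rw [h5]
      norm_num at h2
      linarith
    have h2 := Real.log_le_log (by positivity) h1
    rw [Real.log_pow, Real.log_pow] at h2
    have h3 := Real.log_le_sub_one_of_pos (by linarith : 0 < 1 + y)
    push_cast at h2
    have h4 : (J : ℝ) * 0.69 ≤ J * Real.log 2 :=
      mul_le_mul_of_nonneg_left (by linarith) (Nat.cast_nonneg J)
    have h5 : (J : ℝ) * 0.69 ≤ 2 * y := by linarith
    linarith
  obtain ⟨B, hB⟩ : ∃ B : ℝ, B = Real.exp (y * (16 * (x * Real.log (2 / x)))) := ⟨_, rfl⟩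
  have hBn : (n : ℝ) ^ (16 * (x * Real.log (2 / x))) = B := by
    rw [Real.rpow_def_of_pos hn0, ← hy, hB]
  rw [hBn] at hK
  have hxy0 : 0 ≤ x * y := by linarith
  have hxRy0 : 0 ≤ x * R * y := by
    have : 0 ≤ y := by linarith
    positivity
  have hl2xy : 0.69 * (x * y) ≤ Real.log 2 * (x * y) :=
    mul_le_mul_of_nonneg_right (by linarith) hxy0
  have hexpo : y * (16 * (x * (Real.log 2 + R))) = 16 * (Real.log 2 * (x * y)) +
      16 * (x * R * y) := by ring
  have hB1 : 1 ≤ B := by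
    rw [hB, hlog2]
    apply Real.one_le_exp
    rw [hexpo]
    linarith
  have hexpE : Real.exp E1 ≤ B := by
    rw [hB, hlog2]
    apply Real.exp_le_exp.2
    rw [hexpo]
    linarith
  have hexpQ : Real.exp (3 * Λ) * (Real.exp E1 * (n : ℝ) ^ x) ≤ B := by
    rw [hB, Real.rpow_def_of_pos hn0, ← hy, ← Real.exp_add, ← Real.exp_add]
    apply Real.exp_le_exp.2
    rw [hlog2, hexpo]
    linarith
  have hcB : 8 / c ^ 2 ≤ B := by
    have h1 : 8 / c ^ 2 ≤ 1024 * d / c ^ 4 := by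
      rw [div_le_div_iff₀ (by positivity) hc40]
      have h2 : c ^ 4 = c ^ 2 * c ^ 2 := by ring
      rw [h2]
      have h3 : 0 < c ^ 2 := by positivity
      have h4 : c ^ 2 * c ^ 2 ≤ 1 * c ^ 2 := mul_le_mul_of_nonneg_right hc2 h3.le
      have h5 : 1 * c ^ 2 ≤ d * c ^ 2 := mul_le_mul_of_nonneg_right hd1 h3.le
      linarith
    rw [← heΛ] at h1
    refine h1.trans ?_
    rw [hB, hlog2]
    apply Real.exp_le_exp.2
    rw [hexpo]
    linarith
  refine ⟨J, ⌈Real.exp (3 * Λ) * (Real.exp E1 * (n : ℝ) ^ x)⌉₊,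
    ⌈1 + 2 * ((J : ℝ) + 1) * Real.exp E1 + 8 / c ^ 2⌉₊, by rw [← hR, hT]; exact hJ1, ?_, ?_, ?_, ?_⟩
  · rw [← hE1]
    have h1 := Nat.le_ceil (1 + 2 * ((J : ℝ) + 1) * Real.exp E1 + 8 / c ^ 2)
    have h2 : 0 < 8 / c ^ 2 := by positivity
    linarith
  · have h1 := Nat.le_ceil (1 + 2 * ((J : ℝ) + 1) * Real.exp E1 + 8 / c ^ 2)
    have h2 : 0 < 2 * ((J : ℝ) + 1) * Real.exp E1 := by positivity
    linarith
  · rw [← hE1]
    have h1 := Nat.le_ceil (Real.exp (3 * Λ) * (Real.exp E1 * (n : ℝ) ^ x))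
    have h2 : 0 < Real.exp (-E1) * (n : ℝ) ^ (-x) :=
      mul_pos (Real.exp_pos _) (Real.rpow_pos_of_pos hn0 _)
    have e1 : (c ^ 2 / 8 / 4) ^ 2 / (d : ℝ) = Real.exp (-Λ) := by
      rw [Real.exp_neg, heΛ, inv_div]
      field_simp
      ring
    rw [e1]
    have e2 : Real.exp (-Λ) ≤ c ^ 2 / 8 / 2 := by
      rw [Real.exp_neg, heΛ, inv_div, div_le_iff₀ (by positivity)]
      have h3 : c ^ 4 ≤ c ^ 2 := by
        calc c ^ 4 = c ^ 2 * c ^ 2 := by ring
          _ ≤ c ^ 2 * 1 := mul_le_mul_of_nonneg_left hc2 (by positivity)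
          _ = c ^ 2 := mul_one _
      have h4 := pow_pos hc 2
      have h5 : c ^ 2 * 1 ≤ c ^ 2 * d := mul_le_mul_of_nonneg_left hd1 h4.le
      linarith
    have h3 : Real.exp (3 * Λ) * (Real.exp E1 * (n : ℝ) ^ x) * (Real.exp (-Λ) *
        (Real.exp (-Λ) ^ 2 * (Real.exp (-E1) * (n : ℝ) ^ (-x)))) = 1 := by
      rw [Real.rpow_def_of_pos hn0, Real.rpow_def_of_pos hn0, ← Real.exp_nat_mul]
      simp only [← Real.exp_add]
      rw [← Real.exp_zero]
      congr 1
      push_cast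
      ring
    calc (1 : ℝ) = Real.exp (3 * Λ) * (Real.exp E1 * (n : ℝ) ^ x) * (Real.exp (-Λ) *
        (Real.exp (-Λ) ^ 2 * (Real.exp (-E1) * (n : ℝ) ^ (-x)))) := h3.symm
      _ ≤ _ := by
        refine mul_le_mul h1 ?_ (by positivity) (Nat.cast_nonneg _)
        exact mul_le_mul_of_nonneg_right e2 (by positivity)
  · have h1 := (Nat.ceil_lt_add_one (by positivity :
      0 ≤ Real.exp (3 * Λ) * (Real.exp E1 * (n : ℝ) ^ x))).le
    have h2 := (Nat.ceil_lt_add_one (by positivity :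
      0 ≤ 1 + 2 * ((J : ℝ) + 1) * Real.exp E1 + 8 / c ^ 2)).le
    have h3 : 2 * ((J : ℝ) + 1) * Real.exp E1 ≤ 6 * ((1 + y) * B) := by
      calc 2 * ((J : ℝ) + 1) * Real.exp E1 ≤ 2 * (3 * (1 + y)) * B := by
            refine mul_le_mul (by linarith) hexpE (Real.exp_pos _).le (by linarith)
        _ = 6 * ((1 + y) * B) := by ring
    have h4 : B ≤ (1 + y) * B := le_mul_of_one_le_left (by linarith) (by linarith)
    linarith

section
variable {V W A B E : Type} [Fintype V] [Fintype W] [Fintype E] [Fintype A] [Fintype B]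
  [DecidableEq B]

omit [Fintype V] [Fintype W] [Fintype E] [Fintype A] [Fintype B] in
theorem satE_bounds {k : ℕ} {L : ((W → A) × (V → B) → ℝ) →ₗ[ℝ] ℝ} (hL : SA2 k L) (hk : 2 ≤ k)
    (v : E → V) (w : E → W) (π : E → A → B) (e : E) :
    0 ≤ L (satE v w π e) ∧ L (satE v w π e) ≤ 1 := by
  have hdep : Dep2 {w e} {v e} (satE v w π e) := by
    intro z z' h1 h2
    unfold satE
    rw [h1 _ (mem_singleton_self _), h2 _ (mem_singleton_self _)]
  constructor
  · refine hL.junta {w e} {v e} (by simpa using hk) _ hdep fun z => ?_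
    unfold satE
    split_ifs <;> norm_num
  · have h1 : 0 ≤ L (fun z => 1 - satE v w π e z) := by
      refine hL.junta {w e} {v e} (by simpa using hk) _ (fun z z' h1 h2 => ?_) fun z => ?_
      · show 1 - satE v w π e z = 1 - satE v w π e z'
        rw [hdep z z' h1 h2]
      · unfold satE
        split_ifs <;> norm_num
    have h2 : (fun z => 1 - satE v w π e z) = (fun _ => (1 : ℝ)) - satE v w π e := rfl
    rw [h2, map_sub, hL.one] at h1
    linarith

/-- rounding of the Sherali-Adams hierarchy for projection games -/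
theorem core_two (v : E → V) (w : E → W) (π : E → A → B) (d : ℕ)
    (hfib : ∀ e, Fib d (π e)) (c l x : ℝ) (hc : 0 < c) (hc1 : c ≤ 1)
    (hx : x = Real.log (1024 * d / c ^ 4) / l) (hl0 : 0 < l)
    (hl : Real.log (1024 * d / c ^ 4) ≤ l)
    (hln : l ≤ Real.log (Fintype.card W)) (K : ℕ)
    (hK : 16 * ((1 + Real.log (Fintype.card W)) *
      (Fintype.card W : ℝ) ^ (16 * (x * Real.log (2 / x)))) ≤ K)
    (L : ((W → A) × (V → B) → ℝ) →ₗ[ℝ] ℝ) (hL : SA2 K L)
    (hval : c * (Fintype.card E : ℝ) ≤ ∑ e, L (satE v w π e)) :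
    ∃ (M : W → A) (N : V → B), c ^ 5 * Real.exp (-l) / 2 ^ 21 * (Fintype.card E : ℝ) ≤
      ((univ.filter fun e => π e (M (w e)) = N (v e)).card : ℝ) := by
  classical
  have hne : Nonempty ((W → A) × (V → B)) := by
    by_contra hcon
    rw [not_nonempty_iff] at hcon
    have h1 := hL.one
    have h2 : (fun _ : (W → A) × (V → B) => (1 : ℝ)) = 0 := Subsingleton.elim _ _
    rw [h2, map_zero] at h1
    exact zero_ne_one h1
  obtain ⟨M0, N0⟩ := hne
  rcases Nat.eq_zero_or_pos (Fintype.card E) with hE | hE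
  · refine ⟨M0, N0, ?_⟩
    rw [hE]
    simp
  have hE0 : (0 : ℝ) < Fintype.card E := by exact_mod_cast hE
  obtain ⟨e0⟩ : Nonempty E := Fintype.card_pos_iff.1 hE
  have hA : Nonempty A := ⟨M0 (w e0)⟩
  have hB : Nonempty B := ⟨N0 (v e0)⟩
  set a0 : A := M0 (w e0) with ha0
  have hd : 0 < d := by
    have h1 := hfib e0 (π e0 a0)
    have h2 : 0 < (univ.filter fun a => π e0 a = π e0 a0).card :=
      card_pos.2 ⟨a0, by simp⟩
    omega
  have hd0 : (0 : ℝ) < d := by exact_mod_cast hd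
  have hd1 : (1 : ℝ) ≤ d := by exact_mod_cast hd
  have hlog : 0 < Real.log (Fintype.card W) := by linarith
  have hn : 0 < Fintype.card W := Fintype.card_pos_iff.2 ⟨w e0⟩
  have hn0 : (0 : ℝ) < Fintype.card W := by exact_mod_cast hn
  have hc4 : c ^ 4 ≤ 1 := pow_le_one₀ hc.le hc1
  have hR : (1024 : ℝ) ≤ 1024 * d / c ^ 4 := by
    rw [le_div_iff₀ (by positivity)]
    linarith
  have hΛ : 0 < Real.log (1024 * d / c ^ 4) := Real.log_pos (by linarith)
  have hx0 : 0 < x := by rw [hx]; positivity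
  obtain ⟨J, k, N, hJ, hNJ, hNc, hk, hkN⟩ :=
    numE_sa (Fintype.card W) d hd c l x hc hc1 hx hl hln K hK
  have hkN' : k + (N + 3) ≤ K := by exact_mod_cast hkN
  have hL' : SA2 (k + (N + 3)) L := hL.mono hkN'
  have hN0 : 0 < N := by
    have h1 : (0 : ℝ) < N := lt_of_lt_of_le (by positivity) hNc
    exact_mod_cast h1
  -- good edges
  set G : E → Prop := fun e => c / 2 ≤ L (satE v w π e) with hG
  set ω : E → ℝ := fun e => if G e then (1 : ℝ) else 0 with hωd
  have hω : ∀ e, 0 ≤ ω e := fun e => by simp only [hωd]; split_ifs <;> norm_num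
  have hgood : c / 2 * (Fintype.card E : ℝ) ≤ ∑ e, ω e := by
    have h1 : ∀ e, L (satE v w π e) ≤ c / 2 + ω e := by
      intro e
      simp only [hωd]
      by_cases h : G e
      · rw [if_pos h]
        have := (satE_bounds hL' (by omega) v w π e).2
        linarith
      · rw [if_neg h]
        simp only [hG, not_le] at h
        linarith
    have h2 := sum_le_sum fun e (_ : e ∈ (univ : Finset E)) => h1 e
    rw [sum_add_distrib, sum_const, card_univ, nsmul_eq_mul] at h2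
    linarith
  have hD : 0 < ∑ e, ω e := lt_of_lt_of_le (by positivity) hgood
  set s : E → W ⊕ V := fun e => Sum.inl (w e) with hs
  set t : E → W ⊕ V := fun e => Sum.inr (v e) with ht
  have hpair : ∀ F : W ⊕ V → ℝ, (∀ z, 0 ≤ F z) →
      c ^ 2 / 8 * bil (K2 s t ω) F F ≤ SatF s t π ω F (pj a0 L) := by
    intro F hF
    have h1 := pair_corr_sa2 hN0 hL' (by omega) a0 v w π ω hω (c / 2) (by positivity)
      (fun e he => by
        by_contra hcon
        have h1 : ω e = 0 := by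
          simp only [hωd]
          rw [if_neg]
          exact hcon
        linarith) F hF
    refine le_trans ?_ h1
    have hb : 0 ≤ bil (K2 s t ω) F F := (isKer_K2 s t ω hω).psd F
    refine mul_le_mul_of_nonneg_right ?_ hb
    have h2 : 1 / (N : ℝ) ≤ c ^ 2 / 8 := by
      rw [div_le_iff₀ (by positivity)] at hNc
      rw [div_le_iff₀ (by exact_mod_cast hN0)]
      linarith
    linarith
  have hPL := pj_sa a0 (k + (N + 3)) L hL'
  have hκ0 : 0 < l / (2 * Real.log (Fintype.card W)) := by positivity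
  have hκ1 : l / (2 * Real.log (Fintype.card W)) < 1 := by
    rw [div_lt_one (by positivity)]
    linarith
  have hβe : (Fintype.card W : ℝ) ^ (-(2 * (l / (2 * Real.log (Fintype.card W))))) =
      Real.exp (-l) := by
    rw [Real.rpow_def_of_pos hn0]
    congr 1
    field_simp
  set U : Finset (W ⊕ V) := univ.map Function.Embedding.inl with hU
  have hUc : U.card = Fintype.card W := by rw [hU, card_map, card_univ]
  have hsU : ∀ e, s e ∈ U := fun e => by simp [hs, hU]
  have hcsq : c ^ 2 ≤ 1 := pow_le_one₀ hc.le hc1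
  have hrl : Real.exp (-Real.log (1024 * d / c ^ 4)) = (c ^ 2 / 8 / 4) ^ 2 / (d : ℝ) := by
    rw [Real.exp_neg, Real.exp_log (by positivity), inv_div]
    field_simp
    ring
  have hpart := fun (U0 : Finset (W ⊕ V)) (hU0 : U0 ⊆ U) =>
    part_round_d s t π d hd hfib ω hω hD (Fintype.card W) hn
      (l / (2 * Real.log (Fintype.card W))) x (c ^ 2 / 8) (Real.log (1024 * d / c ^ 4)) hκ0 hκ1
      hx0 (by positivity) (by linarith) hΛ.le hrl J hJ N hNJ k hk (pj a0 L) hPL hpair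
      U0 (by rw [← hUc]; exact card_le_card hU0)
  rw [hβe] at hpart
  obtain ⟨X, Y, hXY⟩ := two_sided s t π ω hω ((c ^ 2 / 8) ^ 2 * Real.exp (-l) / 4096)
    (by positivity) U hsU hpart (fun _ a => if a = a0 then 1 else 0)
    ⟨fun _ a => by beta_reduce; split_ifs <;> norm_num, fun _ => by simp⟩
  refine ⟨fun w' => X (Sum.inl w'), fun v' => Y (Sum.inr v'), ?_⟩
  have h1 : ∑ e, ω e * (if π e (X (s e)) = Y (t e) then 1 else 0) ≤
      ((univ.filter fun e => π e (X (Sum.inl (w e))) = Y (Sum.inr (v e))).card : ℝ) := by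
    rw [card_filter]
    push_cast
    refine sum_le_sum fun e _ => ?_
    simp only [hωd, hs, ht]
    split_ifs <;> norm_num
  refine le_trans ?_ (hXY.trans h1)
  have h2 : (c ^ 2 / 8) ^ 2 * Real.exp (-l) / 4096 * (c / 2 * (Fintype.card E : ℝ)) ≤
      (c ^ 2 / 8) ^ 2 * Real.exp (-l) / 4096 * ∑ e, ω e :=
    mul_le_mul_of_nonneg_left hgood (by positivity)
  have h3 : c ^ 5 * Real.exp (-l) / 2 ^ 21 * (Fintype.card E : ℝ) =
      (c ^ 2 / 8) ^ 2 * Real.exp (-l) / 4096 * (c / 2 * (Fintype.card E : ℝ)) / 4 := by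
    ring
  rw [h3]
  linarith

end

end Pool.Agent.Y572.SA
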