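import Pool.Agent.Y572.SA.TwoFix
import Pool.Agent.Y572.SA.TwoMain
import Pool.Agent.Y572.SA.Main

set_option autoImplicit false

/-!
Rounding of the Sherali-Adams hierarchy (a linear program) for projection games with fibres of at
most `d` elements: every completeness (perfect completeness included) and every soundness.
-/

namespace Pool.Agent.Y572.SA

open Finset Pool.Agent.H647R3.UG Pool.Agent.H573R3.SL Pool.Agent.TH522.UG Pool.Agent.TH522.US
  Pool.Agent.TH522.DG

theorem main_two {V W A B E : Type} [Fintype V] [Fintype W] [Fintype E] [Fintype A] [Fintype B]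
    [DecidableEq B] (v : E → V) (w : E → W) (π : E → A → B) (d : ℕ) (hd : 0 < d)
    (hfib : ∀ e, Fib d (π e)) (c s x : ℝ) (k : ℕ)
    (L : ((W → A) × (V → B) → ℝ) →ₗ[ℝ] ℝ) (hc : 0 < c) (hc1 : c ≤ 1) (hs : 0 < s)
    (hsc : Real.exp 1 * d * s ≤ c)
    (hx : x = (1 + Real.log (d / c)) / Real.log (1 / s))
    (hk : 16 * ((1 + Real.log (Fintype.card W)) *
      (Fintype.card W : ℝ) ^ (512 * (x * Real.log (2 / x)))) ≤ k) (hL : SA2 k L)
    (hval : c * (Fintype.card E : ℝ) ≤ ∑ e, L (satE v w π e)) :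
    ∃ (M : W → A) (N : V → B), s / 2 ^ 21 * (Fintype.card E : ℝ) ≤
      ((univ.filter fun e => π e (M (w e)) = N (v e)).card : ℝ) := by
  classical
  rcases isEmpty_or_nonempty E with hE | hE
  · obtain ⟨X⟩ := ne_of_sa2 hL
    exact ⟨X.1, X.2, by simp⟩
  have hE0 : (0 : ℝ) < Fintype.card E := by exact_mod_cast Fintype.card_pos
  obtain ⟨e0⟩ := hE
  have hW : Nonempty W := ⟨w e0⟩
  have hd1 : (1 : ℝ) ≤ d := by exact_mod_cast hd
  have hd0 : (0 : ℝ) < d := by linarith
  have he1 : (2 : ℝ) ≤ Real.exp 1 := by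
    have := Real.add_one_le_exp (1 : ℝ)
    linarith
  have hes2 : 2 * s ≤ c := by
    refine le_trans ?_ hsc
    have h1 : 2 * 1 ≤ Real.exp 1 * d := mul_le_mul he1 hd1 (by norm_num) (by linarith)
    have h2 : 2 * 1 * s ≤ Real.exp 1 * d * s := mul_le_mul_of_nonneg_right h1 hs.le
    linarith
  have hs1 : s < 1 := by linarith
  obtain ⟨n, hn⟩ : ∃ n, n = Fintype.card W := ⟨_, rfl⟩
  have hn1 : 1 ≤ n := by rw [hn]; exact Fintype.card_pos
  have hn1' : (1 : ℝ) ≤ n := by exact_mod_cast hn1
  have hn0 : (0 : ℝ) < n := by linarith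
  rw [← hn] at hk
  have hlogn : 0 ≤ Real.log n := Real.log_nonneg hn1'
  -- enough levels
  rcases le_or_gt (n + 1) k with hnk | hnk
  · obtain ⟨M, N, hX⟩ := exact2 v w π k (by rw [← hn]; exact hnk) L hL c hval
    refine ⟨M, N, le_trans ?_ hX⟩
    refine mul_le_mul_of_nonneg_right ?_ hE0.le
    rw [div_le_iff₀ (by norm_num)]
    linarith
  obtain ⟨l, hl⟩ : ∃ l, l = Real.log (1 / s) := ⟨_, rfl⟩
  have hl0 : 0 < l := by
    rw [hl]; apply Real.log_pos; rw [lt_div_iff₀ hs]; linarith
  rw [← hl] at hx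
  have hc1' : 1 ≤ 1 / c := by rw [le_div_iff₀ hc]; linarith
  have hlc0 : 0 ≤ Real.log (1 / c) := Real.log_nonneg hc1'
  have hld0 : 0 ≤ Real.log d := Real.log_nonneg hd1
  have hdc : Real.log (d / c) = Real.log d + Real.log (1 / c) := by
    rw [← Real.log_mul hd0.ne' (by positivity)]
    congr 1
    ring
  have hxl : x * l = 1 + Real.log (d / c) := by rw [hx]; field_simp
  have hx0 : 0 < x := by rw [hx, hdc]; positivity
  have hx1 : x ≤ 1 := by
    rw [hx, div_le_one hl0, hl]
    have h1 : Real.exp (1 + Real.log (d / c)) ≤ 1 / s := by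
      rw [Real.exp_add, Real.exp_log (by positivity), le_div_iff₀ hs]
      have h2 : Real.exp 1 * (d / c) * s = Real.exp 1 * d * s / c := by ring
      rw [h2, div_le_one hc]
      exact hsc
    have h2 := Real.log_le_log (Real.exp_pos _) h1
    rwa [Real.log_exp] at h2
  have hes : Real.exp (-l) = s := by
    rw [hl, Real.exp_neg, Real.exp_log (by positivity), one_div, inv_inv]
  obtain ⟨q, hq⟩ : ∃ q, q = x * Real.log (2 / x) := ⟨_, rfl⟩
  rw [← hq] at hk
  have hl2 := Real.log_two_gt_d9
  have hl2' := Real.log_two_lt_d9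
  have hlog2x : Real.log 2 ≤ Real.log (2 / x) := by
    apply Real.log_le_log (by norm_num)
    rw [le_div_iff₀ hx0]
    linarith
  have hqx : Real.log 2 * x ≤ q := by
    rw [hq, mul_comm]; exact mul_le_mul_of_nonneg_left hlog2x hx0.le
  have hq0 : 0 < q := lt_of_lt_of_le (by positivity) hqx
  have hP1 : 1 ≤ (n : ℝ) ^ (512 * q) := Real.one_le_rpow hn1' (by positivity)
  have hPn : (n : ℝ) ^ (512 * q) ≤ (1 + Real.log n) * (n : ℝ) ^ (512 * q) :=
    le_mul_of_one_le_left (by linarith) (by linarith)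
  have hkn : (k : ℝ) ≤ n := by
    have : k ≤ n := by omega
    exact_mod_cast this
  have hk2 : 2 ≤ k := by
    have h1 : (2 : ℝ) ≤ k := by linarith
    exact_mod_cast h1
  have hqC : 512 * q < 1 := by
    by_contra hcon
    push Not at hcon
    have h1 : (n : ℝ) ^ (1 : ℝ) ≤ (n : ℝ) ^ (512 * q) :=
      Real.rpow_le_rpow_of_exponent_le hn1' hcon
    rw [Real.rpow_one] at h1
    linarith
  have hxs : x ≤ 1 / 350 := by
    have h1 : 0.69 * x ≤ Real.log 2 * x := mul_le_mul_of_nonneg_right (by linarith) hx0.le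
    linarith
  obtain ⟨l', hl'⟩ : ∃ l', l' = l - 5 * Real.log (1 / c) := ⟨_, rfl⟩
  have hcx : Real.log (1 / c) ≤ x * l := by rw [hxl, hdc]; linarith
  have hxl350 : x * l ≤ 1 / 350 * l := mul_le_mul_of_nonneg_right hxs hl0.le
  have hl'1 : l / 2 ≤ l' := by
    rw [hl']
    linarith
  have hl'0 : 0 < l' := by linarith
  have h5 : c ^ 5 * Real.exp (-l') = s := by
    have h6 : Real.exp (-l') = s * Real.exp (5 * Real.log (1 / c)) := by
      rw [← hes, ← Real.exp_add, hl']
      congr 1
      ring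
    have h7 : Real.exp (5 * Real.log (1 / c)) = (1 / c) ^ 5 := by
      have : (5 : ℝ) * Real.log (1 / c) = ((5 : ℕ) : ℝ) * Real.log (1 / c) := by norm_num
      rw [this, Real.exp_nat_mul, Real.exp_log (by positivity)]
    rw [h6, h7]
    field_simp
  rcases le_or_gt l' (Real.log n) with hln | hln
  · have h1024 : Real.log (1024 * d / c ^ 4) = Real.log 1024 + Real.log d +
        4 * Real.log (1 / c) := by
      rw [Real.log_div (by positivity) (by positivity), Real.log_pow,
        Real.log_mul (by norm_num) hd0.ne', one_div, Real.log_inv]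
      push_cast
      ring
    have hlog1024 : Real.log 1024 = 10 * Real.log 2 := by
      have : (1024 : ℝ) = 2 ^ 10 := by norm_num
      rw [this, Real.log_pow]
      push_cast
      ring
    have hnum : Real.log (1024 * d / c ^ 4) ≤ 7 * (x * l) := by
      rw [h1024, hlog1024, hxl, hdc]
      linarith
    have hnum0 : 0 < Real.log (1024 * d / c ^ 4) := by
      rw [h1024, hlog1024]
      linarith
    have hle : Real.log (1024 * d / c ^ 4) ≤ l' := by
      refine hnum.trans ?_
      linarith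
    obtain ⟨z, hz⟩ : ∃ z, z = Real.log (1024 * d / c ^ 4) / l' := ⟨_, rfl⟩
    have hz0 : 0 < z := by rw [hz]; positivity
    have hzX : z ≤ 14 * x := by
      rw [hz, div_le_iff₀ hl'0]
      refine hnum.trans ?_
      have h1 : 14 * x * (l / 2) ≤ 14 * x * l' :=
        mul_le_mul_of_nonneg_left hl'1 (by positivity)
      have h3 : 14 * x * (l / 2) = 7 * (x * l) := by ring
      linarith
    have hX1 : 14 * x ≤ 1 := by linarith
    have hzl := ylog_sa hz0 hzX hX1
    have hlogX : Real.log (2 / (14 * x)) ≤ Real.log (2 / x) := by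
      apply Real.log_le_log (by positivity)
      apply div_le_div_of_nonneg_left (by norm_num) hx0
      linarith
    have hexp : 16 * (z * Real.log (2 / z)) ≤ 512 * q := by
      have h1 : 14 * x * Real.log (2 / (14 * x)) ≤ 14 * q := by
        rw [hq]
        have h2 := mul_le_mul_of_nonneg_left hlogX (by positivity : 0 ≤ 14 * x)
        have h3 : 14 * (x * Real.log (2 / x)) = 14 * x * Real.log (2 / x) := by ring
        rw [h3]
        exact h2
      linarith
    have hK : 16 * ((1 + Real.log n) * (n : ℝ) ^ (16 * (z * Real.log (2 / z)))) ≤ k := by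
      refine le_trans ?_ hk
      refine mul_le_mul_of_nonneg_left (mul_le_mul_of_nonneg_left ?_ (by linarith)) (by norm_num)
      exact Real.rpow_le_rpow_of_exponent_le hn1' hexp
    obtain ⟨M, N, hX⟩ := core_two v w π d hfib c l' z hc hc1 hz hl'0 hle
      (by rw [← hn]; exact hln) k (by rw [← hn]; exact hK) L hL hval
    refine ⟨M, N, ?_⟩
    rw [h5] at hX
    exact hX
  · obtain ⟨M, N, hX⟩ := star2 v w π k hk2 L hL c hval
    rw [← hn] at hX
    refine ⟨M, N, le_trans (mul_le_mul_of_nonneg_right ?_ hE0.le) hX⟩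
    have h1 : Real.exp (-l') * n ≤ 1 := by
      have e1 : Real.exp (-l') * n = Real.exp (-l' + Real.log n) := by
        rw [Real.exp_add, Real.exp_log hn0]
      rw [e1]
      have e2 : Real.exp (-l' + Real.log n) ≤ Real.exp 0 := Real.exp_le_exp.mpr (by linarith)
      rwa [Real.exp_zero] at e2
    have h2 : s * n ≤ c := by
      rw [← h5]
      have h3 : c ^ 5 * Real.exp (-l') * n = c ^ 5 * (Real.exp (-l') * n) := by ring
      rw [h3]
      calc c ^ 5 * (Real.exp (-l') * n) ≤ c ^ 5 * 1 := mul_le_mul_of_nonneg_left h1 (by positivity)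
        _ = c * c ^ 4 := by ring
        _ ≤ c * 1 := mul_le_mul_of_nonneg_left (pow_le_one₀ hc.le hc1) hc.le
        _ = c := mul_one c
    have h4 : s ≤ c / n := by rw [le_div_iff₀ hn0]; exact h2
    refine le_trans ?_ h4
    rw [div_le_iff₀ (by norm_num)]
    linarith

end Pool.Agent.Y572.SA
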