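import Pool.Agent.Y572.SA.Two

set_option autoImplicit false

/-!
All edges at a small set of questions can be satisfied as well as by the Sherali-Adams relaxation:
games with two sides and arbitrary projections.
-/

namespace Pool.Agent.Y572.SA

open Finset Pool.Agent.H647R3.UG Pool.Agent.H573R3.SL Pool.Agent.TH522.UG Pool.Agent.TH522.US
  Pool.Agent.TH522.DG

section
variable {V W A B E : Type} [Fintype V] [Fintype W] [Fintype E] [Fintype A] [DecidableEq A]
  [Fintype B] [DecidableEq B]

omit [Fintype E] [DecidableEq A] [DecidableEq B] [Fintype V] [Fintype W] [Fintype A]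
  [Fintype B] in
theorem ne_of_sa2 {k : ℕ} {L : ((W → A) × (V → B) → ℝ) →ₗ[ℝ] ℝ} (hL : SA2 k L) :
    Nonempty ((W → A) × (V → B)) := by
  by_contra hcon
  rw [not_nonempty_iff] at hcon
  have h1 := hL.one
  have h2 : (fun _ : (W → A) × (V → B) => (1 : ℝ)) = 0 := Subsingleton.elim _ _
  rw [h2, map_zero] at h1
  exact zero_ne_one h1

theorem fixset2 [DecidableEq V] [DecidableEq W] (v : E → V) (w : E → W) (π : E → A → B)
    (S : Finset W) (k : ℕ) (hS : S.card + 1 ≤ k) (L : ((W → A) × (V → B) → ℝ) →ₗ[ℝ] ℝ)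
    (hL : SA2 k L) :
    ∃ (M : W → A) (N : V → B), ∑ e, (if w e ∈ S then L (satE v w π e) else 0) ≤
      ((univ.filter fun e => π e (M (w e)) = N (v e)).card : ℝ) := by
  classical
  have hne := ne_of_sa2 hL
  rcases isEmpty_or_nonempty E with hE | hE
  · obtain ⟨X0⟩ := hne
    exact ⟨X0.1, X0.2, by simp⟩
  obtain ⟨e0⟩ := hE
  have hB : Nonempty B := by
    obtain ⟨X0⟩ := hne
    exact ⟨X0.2 (v e0)⟩
  set cnt : V → B → ((W → A) × (V → B)) → ℝ := fun v0 b x =>
    ∑ e, if v e = v0 ∧ w e ∈ S ∧ π e (x.1 (w e)) = b then (1 : ℝ) else 0 with hcnt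
  set N : V → ((W → A) × (V → B)) → ℝ := fun v0 x => univ.sup' univ_nonempty fun b => cnt v0 b x
    with hN
  have hdepc : ∀ v0 b (x y : (W → A) × (V → B)), (∀ p ∈ S, x.1 p = y.1 p) →
      cnt v0 b x = cnt v0 b y := by
    intro v0 b x y h
    simp only [hcnt]
    refine sum_congr rfl fun e _ => ?_
    by_cases h1 : w e ∈ S
    · rw [h (w e) h1]
    · simp [h1]
  have hdepN : ∀ v0 (x y : (W → A) × (V → B)), (∀ p ∈ S, x.1 p = y.1 p) →
      N v0 x = N v0 y := by
    intro v0 x y h
    simp only [hN]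
    congr 1
    funext b
    exact hdepc v0 b x y h
  -- the bound at one right vertex
  have h1 : ∀ v0, ∑ e, (if v e = v0 ∧ w e ∈ S then L (satE v w π e) else 0) ≤ L (N v0) := by
    intro v0
    have h2 : 0 ≤ L (N v0 - ∑ e, (if v e = v0 ∧ w e ∈ S then satE v w π e else 0)) := by
      refine hL.junta S {v0} ?_ _ ?_ ?_
      · rw [card_singleton]
        exact hS
      · intro x y h h'
        rw [Pi.sub_apply, Pi.sub_apply, hdepN v0 x y h, Finset.sum_apply, Finset.sum_apply]
        congr 1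
        refine sum_congr rfl fun e _ => ?_
        by_cases h3 : v e = v0 ∧ w e ∈ S
        · rw [if_pos h3]
          unfold satE
          rw [h (w e) h3.2, h3.1, h' v0 (mem_singleton_self _)]
        · rw [if_neg h3]
          rfl
      · intro x
        rw [Pi.sub_apply, Finset.sum_apply, sub_nonneg]
        have h3 : ∑ e, (if v e = v0 ∧ w e ∈ S then satE v w π e else 0) x =
            cnt v0 (x.2 v0) x := by
          simp only [hcnt]
          refine sum_congr rfl fun e _ => ?_
          by_cases h4 : v e = v0 ∧ w e ∈ S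
          · rw [if_pos h4]
            unfold satE
            rw [h4.1]
            simp [h4.2]
          · rw [if_neg h4, if_neg (fun h => h4 ⟨h.1, h.2.1⟩)]
            rfl
        rw [h3]
        exact Finset.le_sup' (fun b => cnt v0 b x) (mem_univ _)
    rw [map_sub, map_sum] at h2
    have h5 : ∀ e, L (if v e = v0 ∧ w e ∈ S then satE v w π e else 0) =
        if v e = v0 ∧ w e ∈ S then L (satE v w π e) else 0 := by
      intro e
      split_ifs
      · rfl
      · exact map_zero L
    rw [sum_congr rfl fun e _ => h5 e] at h2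
    linarith
  obtain ⟨x, hx⟩ := Finite.exists_max fun x : (W → A) × (V → B) => ∑ v0, N v0 x
  have h2 : 0 ≤ L ((fun _ => ∑ v0, N v0 x) - ∑ v0, N v0) := by
    refine hL.junta S ∅ ?_ _ ?_ ?_
    · rw [card_empty]
      omega
    · intro y z h _
      rw [Pi.sub_apply, Pi.sub_apply, Finset.sum_apply, Finset.sum_apply]
      congr 1
      exact sum_congr rfl fun v0 _ => hdepN v0 y z h
    · intro y
      rw [Pi.sub_apply, Finset.sum_apply, sub_nonneg]
      exact hx y
  have h3 : (fun _ : (W → A) × (V → B) => ∑ v0, N v0 x) = (∑ v0, N v0 x) • fun _ => (1 : ℝ) := by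
    funext y
    simp
  rw [map_sub, map_sum, h3, map_smul, hL.one, smul_eq_mul, mul_one] at h2
  have hB : ∀ v0, ∃ b, N v0 x = cnt v0 b x := by
    intro v0
    obtain ⟨b, -, hb⟩ := Finset.exists_mem_eq_sup' (univ_nonempty (α := B)) fun b => cnt v0 b x
    exact ⟨b, hb⟩
  choose b0 hB using hB
  refine ⟨x.1, b0, ?_⟩
  have h4 : ∑ e, (if w e ∈ S then L (satE v w π e) else 0) =
      ∑ v0, ∑ e, (if v e = v0 ∧ w e ∈ S then L (satE v w π e) else 0) := by
    rw [sum_comm]
    refine sum_congr rfl fun e _ => ?_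
    by_cases h5 : w e ∈ S
    · simp only [h5, and_true, if_true]
      rw [sum_ite_eq, if_pos (mem_univ _)]
    · simp [h5]
  have h5 : ∑ v0, N v0 x ≤ ((univ.filter fun e => π e (x.1 (w e)) = b0 (v e)).card : ℝ) := by
    rw [card_filter]
    push_cast
    rw [sum_congr rfl fun v0 _ => hB v0]
    simp only [hcnt]
    rw [sum_comm]
    refine sum_le_sum fun e _ => ?_
    rw [sum_eq_single (v e)]
    · by_cases h6 : π e (x.1 (w e)) = b0 (v e)
      · rw [if_pos h6]
        split_ifs <;> norm_num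
      · rw [if_neg h6, if_neg (fun h => h6 h.2.2)]
    · intro v0 _ hv
      rw [if_neg (fun h => hv h.1.symm)]
    · intro h; exact absurd (mem_univ _) h
  rw [h4]
  exact (sum_le_sum fun v0 _ => h1 v0).trans (by linarith)

/-- a best question -/
theorem star2 (v : E → V) (w : E → W) (π : E → A → B) (k : ℕ) (hk : 2 ≤ k)
    (L : ((W → A) × (V → B) → ℝ) →ₗ[ℝ] ℝ) (hL : SA2 k L) (c : ℝ)
    (hval : c * (Fintype.card E : ℝ) ≤ ∑ e, L (satE v w π e)) :
    ∃ (M : W → A) (N : V → B), c / Fintype.card W * (Fintype.card E : ℝ) ≤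
      ((univ.filter fun e => π e (M (w e)) = N (v e)).card : ℝ) := by
  classical
  rcases isEmpty_or_nonempty W with hW | hW
  · obtain ⟨M, N, hX⟩ := fixset2 v w π ∅ k (by simp; omega) L hL
    refine ⟨M, N, le_trans (le_of_eq ?_) hX⟩
    simp
  obtain ⟨p, hp⟩ := Finite.exists_max fun p : W =>
    ∑ e, (if w e ∈ ({p} : Finset W) then L (satE v w π e) else 0)
  obtain ⟨M, N, hX⟩ := fixset2 v w π {p} k (by simp; omega) L hL
  refine ⟨M, N, le_trans ?_ hX⟩
  have hn : (0 : ℝ) < Fintype.card W := by exact_mod_cast Fintype.card_pos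
  rw [div_mul_eq_mul_div, div_le_iff₀ hn]
  refine hval.trans ?_
  have h1 : ∑ e, L (satE v w π e) = ∑ q, ∑ e,
      (if w e ∈ ({q} : Finset W) then L (satE v w π e) else 0) := by
    rw [sum_comm]
    refine sum_congr rfl fun e _ => ?_
    simp only [mem_singleton]
    rw [sum_ite_eq, if_pos (mem_univ _)]
  rw [h1]
  refine (sum_le_sum fun q _ => hp q).trans (le_of_eq ?_)
  rw [sum_const, card_univ, nsmul_eq_mul, mul_comm]

/-- many levels -/
theorem exact2 (v : E → V) (w : E → W) (π : E → A → B) (k : ℕ)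
    (hk : Fintype.card W + 1 ≤ k)
    (L : ((W → A) × (V → B) → ℝ) →ₗ[ℝ] ℝ) (hL : SA2 k L) (c : ℝ)
    (hval : c * (Fintype.card E : ℝ) ≤ ∑ e, L (satE v w π e)) :
    ∃ (M : W → A) (N : V → B), c * (Fintype.card E : ℝ) ≤
      ((univ.filter fun e => π e (M (w e)) = N (v e)).card : ℝ) := by
  classical
  obtain ⟨M, N, hX⟩ := fixset2 v w π univ k (by rw [card_univ]; exact hk) L hL
  refine ⟨M, N, hval.trans (le_trans (le_of_eq ?_) hX)⟩
  simp

end

end Pool.Agent.Y572.SA
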